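import Pool.Agent.Helper1.SQ.C1Defs
import Pool.Agent.Helper5.SQ.MT

/-!
# Project SQ: master inequality with the sifted conclusion (variant of helper5's `mt`)
-/

set_option autoImplicit false
open Finset

namespace Pool.Agent.Helper1.SQ

open Pool.Agent.Helper5.SQ

theorem mt2 (hW : Wt) : MT2 := by
  intro N H k Λ a ha hNH hlt
  by_contra hcon
  push Not at hcon
  have hS : ∀ m ∈ cnt N H 1 a, m ∈ Ioc N (N + H) := by
    intro m hm
    unfold cnt at hm
    exact (Finset.mem_filter.mp hm).1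
  have h1 : ∀ m ∈ cnt N H 1 a, 4 * k ≤
      ∑ i ∈ Ico a k, ∑ p ∈ PB i (i + 1), m.factorization p * (k - i) + Λ := by
    intro m hm
    have hmem := hS m hm
    have h2 := hcon m hm
    rw [Finset.mem_Ioc] at hmem
    have h3 := hW k Λ m (by omega) (by omega)
    have h4 := inner_le (k := k) hm
    have h5 : 4 * k ≤ k * ArithmeticFunction.cardFactors m := by
      rw [mul_comm]
      exact Nat.mul_le_mul_left k (by omega)
    omega
  have h2 : ∑ m ∈ cnt N H 1 a, 4 * k ≤ ∑ m ∈ cnt N H 1 a,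
      (∑ i ∈ Ico a k, ∑ p ∈ PB i (i + 1), m.factorization p * (k - i) + Λ) :=
    Finset.sum_le_sum h1
  rw [Finset.sum_const, smul_eq_mul, Finset.sum_add_distrib, Finset.sum_const, smul_eq_mul,
    Finset.sum_comm] at h2
  have h3 : ∑ i ∈ Ico a k, ∑ m ∈ cnt N H 1 a, ∑ p ∈ PB i (i + 1), m.factorization p * (k - i) ≤
      ∑ i ∈ Ico a k, (k - i) * ∑ p ∈ PB i (i + 1), ((cnt N H p a).card + hpw N H a p) := by
    apply Finset.sum_le_sum
    intro i _
    rw [Finset.sum_comm, Finset.mul_sum]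
    apply Finset.sum_le_sum
    intro p _
    rw [← Finset.sum_mul, mul_comm]
    exact Nat.mul_le_mul_left _ sum_fact_le
  have h4 : (cnt N H 1 a).card * (4 * k) ≤
      ∑ i ∈ Ico a k, (k - i) * ∑ p ∈ PB i (i + 1), ((cnt N H p a).card + hpw N H a p) +
      (cnt N H 1 a).card * Λ := by
    linarith
  have h5 : (((cnt N H 1 a).card * (4 * k) : ℕ) : ℝ) ≤
      ((∑ i ∈ Ico a k, (k - i) * ∑ p ∈ PB i (i + 1), ((cnt N H p a).card + hpw N H a p) +
      (cnt N H 1 a).card * Λ : ℕ) : ℝ) := by exact_mod_cast h4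
  push_cast at h5
  have h6 : ∑ i ∈ Ico a k, (((k - i : ℕ)) : ℝ) * ∑ p ∈ PB i (i + 1),
      (((cnt N H p a).card : ℝ) + hpw N H a p) =
      ∑ i ∈ Ico a k, ((k : ℝ) - i) * ∑ p ∈ PB i (i + 1),
      (((cnt N H p a).card : ℝ) + hpw N H a p) := by
    apply Finset.sum_congr rfl
    intro i hi
    rw [Finset.mem_Ico] at hi
    rw [Nat.cast_sub hi.2.le]
  rw [h6] at h5
  linarith

end Pool.Agent.Helper1.SQ
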