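import Pool.Agent.Helper1.SQ.Defs

/-!
# Project SQ: the finite checker (definitions)
-/

set_option autoImplicit false
open Finset

namespace Pool.Agent.Helper1.SQ

/-- master inequality; the integer found is free of prime factors `≤ 2^a` -/
def MT2 : Prop := ∀ N H k Λ a : ℕ, 4 ≤ a → N + H < 2 ^ (Λ + 1) →
  ∑ i ∈ Ico a k, ((k : ℝ) - i) * ∑ p ∈ PB i (i + 1), (((cnt N H p a).card : ℝ) + hpw N H a p) <
    (4 * (k : ℝ) - Λ) * ((cnt N H 1 a).card : ℝ) →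
  ∃ m ∈ cnt N H 1 a, ArithmeticFunction.cardFactors m ≤ 3

/-- the facts used by the checkers -/
structure Hyp : Prop where
  tab : Tab
  cardB : CardB
  sumS : SumS
  sumW : SumW
  sumV : SumV
  bhUp : BHUp
  bhLow : BHLow
  hpb : HPb
  mt : MT2
  totL : TotL

namespace C

/-- scale -/
@[irreducible] def D : ℕ := 1000000000

/-- sum of `f` over `[i, i+n)` by binary splitting, for `n ≤ 2^j` -/
def bs (f : ℕ → ℕ) : ℕ → ℕ → ℕ → ℕ
  | 0, i, n => bif Nat.beq n 0 then 0 else f i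
  | j + 1, i, n => bif Nat.ble n (2 ^ j) then bs f j i n else bs f j i (2 ^ j) + bs f j (i + 2 ^ j) (n - 2 ^ j)

/-- sum of `f` over `[i1, i2)` -/
def sI (f : ℕ → ℕ) (i1 i2 : ℕ) : ℕ := bs f (Nat.log2 (i2 - i1) + 1) i1 (i2 - i1)

/-- upper bound for `D * hr i1 i2` -/
def hs (i1 i2 : ℕ) : ℕ := sI (fun i => D / i + 1) i1 i2

/-- upper bound for `D * sm i1 i2` -/
def Su (i1 i2 : ℕ) : ℕ :=
  bif Nat.ble i2 13 then sI (fun i => 1000 * tbS i) i1 i2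
  else bif Nat.ble 13 i1 then hs i1 i2 + (155 * D / (100 * i1) + 1)
  else sI (fun i => 1000 * tbS i) i1 13 + (hs 13 i2 + (155 * D / 1300 + 1))

/-- upper bound for `D * sm i (i+1)` -/
def sB (i : ℕ) : ℕ := bif Nat.ble 13 i then 255 * D / (100 * i) + 1 else 1000 * tbS i

/-- upper bound for `D * ∑ (k-i) sm i (i+1)` -/
def Wu (i1 i2 k : ℕ) : ℕ :=
  bif Nat.ble i2 13 then sI (fun i => (k - i) * (1000 * tbS i)) i1 i2
  else bif Nat.ble 13 i1 then k * hs i1 i2 + (155 * (k - i1) * D / (100 * i1) + 1) - (i2 - i1) * D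
  else sI (fun i => (k - i) * (1000 * tbS i)) i1 13 +
    (k * hs 13 i2 + (155 * (k - 13) * D / 1300 + 1) - (i2 - 13) * D)

/-- upper bound for the number of primes in `(2^i1, 2^i2]` -/
def cu (i1 i2 : ℕ) : ℕ :=
  bif Nat.ble i2 13 then sI tbC i1 i2
  else bif Nat.ble 13 i1 then 192 * (2 ^ i2 - 2 ^ i1) / 1001 + 8
  else sI tbC i1 13 + (192 * (2 ^ i2 - 8192) / 1001 + 8)

/-- scaled product of the table -/
def pV (i1 : ℕ) : ℕ → ℕ
  | 0 => D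
  | n + 1 => pV i1 n * tbV (i1 + n) / 1000000 + 1

/-- upper bound for `D / vp i1 i2`, `13 ≤ i1` -/
def vU (i1 i2 : ℕ) : ℕ :=
  ((2 * i2 - 1) * D / (2 * i1 - 1) + 1) *
    (D + (155 * D / (100 * i1) + 1 + (Su i1 i2 / 2 ^ i1 + 1)) +
      ((155 * D / (100 * i1) + 1 + (Su i1 i2 / 2 ^ i1 + 1)) ^ 2 / D + 1)) / D + 1

/-- upper bound for `D / vp i1 i2` -/
def IVu (i1 i2 : ℕ) : ℕ :=
  bif Nat.beq i1 i2 then D
  else bif Nat.ble i2 13 then pV i1 (i2 - i1)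
  else bif Nat.ble 13 i1 then vU i1 i2
  else pV i1 (13 - i1) * vU 13 i2 / D + 1

/-- upper bound for `D * rr b a m` -/
def rU (b a m : ℕ) : ℕ := (Su b a) ^ (m + 1) * IVu b a / (D ^ (m + 1) * (m + 1).factorial) + 1

def chOK : ℕ → List (ℕ × ℕ) → Bool
  | a, [] => Nat.beq a 4
  | a, x :: l => Nat.ble 4 x.1 && (Nat.ble (x.1 + 1) a && (Nat.beq (x.2 % 2) 0 && chOK x.1 l))

def chP : ℕ → List (ℕ × ℕ) → ℕ
  | _, [] => D
  | a, x :: l => chP x.1 l * (D + rU x.1 a x.2) / D + 1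

def chR : ℕ → List (ℕ × ℕ) → ℕ
  | _, [] => 0
  | a, x :: l => chR x.1 l + rU x.1 a x.2

def chN : ℕ → List (ℕ × ℕ) → ℕ
  | _, [] => 1
  | a, x :: l => chN x.1 l * (cu x.1 a + 1) ^ x.2

def chM : ℕ → List (ℕ × ℕ) → ℕ
  | _, [] => 1
  | a, x :: l => chM x.1 l + (cu x.1 a + 1)

/-- upper bound for `D * X / (2^h V0 vp 4 a)` where `I ≥ D / vp 4 a` -/
def err (I h X : ℕ) : ℕ := X * I * 1001 / (192 * 2 ^ h) + 1

def EC (k e1 e2 : ℕ) : ℕ := sI (fun i => (k - i) * cu i (i + 1)) e1 e2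

def grOK (k a : ℕ) : ℕ → List (ℕ × ℕ × List (ℕ × ℕ)) → Bool
  | e, [] => Nat.beq e k
  | e, x :: l => Nat.ble e x.1 && (Nat.ble x.1 k && (Nat.ble 4 x.2.1 && (Nat.ble x.2.1 a &&
      (chOK x.2.1 x.2.2 && grOK k a x.1 l))))

def grV (I h k a : ℕ) : ℕ → List (ℕ × ℕ × List (ℕ × ℕ)) → ℕ
  | _, [] => 0
  | e, x :: l => (chP x.2.1 x.2.2 * IVu x.2.1 a / D + 1) * Wu e x.1 k / D + 1 +
      err I h (8 * chN x.2.1 x.2.2 * EC k e x.1) + grV I h k a x.1 l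

/-- bound for the higher powers in block `i` -/
def hpI (I h Λ i : ℕ) : ℕ :=
  min (sB i * I / (D * 2 ^ i) + 1 + err I h (8 * cu i (i + 1)))
    (1001 * (sB i * I) / (192 * D * 2 ^ i) + 1 + err I h (cu i (i + 1))) +
  (1001 * (sB i * I) / (192 * D * 4 ^ i) + 1 + err I h (cu i (i + 1) * (Λ / i - 2)))

def hpV (I h Λ k a : ℕ) : ℕ := sI (fun i => (k - i) * hpI I h Λ i) a k

/-- a certificate for `2^h0 ≤ φ(n) < 2^(h1+1)` -/
structure Cert where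
  h0 : ℕ
  h1 : ℕ
  L : ℕ
  Λ : ℕ
  k : ℕ
  a : ℕ
  ch : List (ℕ × ℕ)
  gr : List (ℕ × ℕ × List (ℕ × ℕ))

/-- the inequality, `I = IVu 4 a` -/
def mainIneq (c : Cert) (I : ℕ) : Bool :=
  Nat.ble (chR c.a c.ch + err I c.h0 (8 * (chN c.a c.ch * chM c.a c.ch))) D &&
  Nat.ble (grV I c.h0 c.k c.a c.a c.gr + hpV I c.h0 c.Λ c.k c.a + 1)
    ((4 * c.k - c.Λ) * (D - (chR c.a c.ch + err I c.h0 (8 * (chN c.a c.ch * chM c.a c.ch)))))

def check (c : Cert) : Bool :=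
  Nat.ble 4 c.a && (Nat.ble c.a 8192 && (Nat.ble c.a c.k && (Nat.ble c.Λ (4 * c.k) &&
  (Nat.ble (2 ^ (c.h1 + 1)) c.L.factorial && (Nat.ble (c.L * c.L * 2 ^ (2 * c.h1 + 2)) (2 ^ (c.Λ + 1)) &&
  (chOK c.a c.ch && (grOK c.k c.a c.a c.gr && (Nat.ble (c.L * 2 ^ (c.h1 + 1)) (2 ^ (8 * c.a)) &&
  mainIneq c (IVu 4 c.a)))))))))

end C

end Pool.Agent.Helper1.SQ
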