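import Pool.Agent.Helper1.SQ.C1Defs

/-!
# Project SQ: soundness of the finite checker, part a (bounds for the block sums)
-/

set_option autoImplicit false
open Finset

namespace Pool.Agent.Helper1.SQ

/-! ### additivity -/

theorem PB_union {i j k : ℕ} (h1 : i ≤ j) (h2 : j ≤ k) : PB i k = PB i j ∪ PB j k := by
  unfold PB
  rw [← Finset.filter_union, Finset.Ioc_union_Ioc_eq_Ioc (Nat.pow_le_pow_right (by norm_num) h1)
    (Nat.pow_le_pow_right (by norm_num) h2)]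

theorem PB_disj (i j k : ℕ) : Disjoint (PB i j) (PB j k) := by
  rw [Finset.disjoint_left]
  intro p hp hq
  unfold PB at hp hq
  simp only [Finset.mem_filter, Finset.mem_Ioc] at hp hq
  omega

theorem sm_add {i j k : ℕ} (h1 : i ≤ j) (h2 : j ≤ k) : sm i k = sm i j + sm j k := by
  unfold sm
  rw [PB_union h1 h2, Finset.sum_union (PB_disj i j k)]

theorem vp_mul {i j k : ℕ} (h1 : i ≤ j) (h2 : j ≤ k) : vp i k = vp i j * vp j k := by
  unfold vp
  rw [PB_union h1 h2, Finset.prod_union (PB_disj i j k)]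

theorem card_add {i j k : ℕ} (h1 : i ≤ j) (h2 : j ≤ k) : (PB i k).card = (PB i j).card + (PB j k).card := by
  rw [PB_union h1 h2, Finset.card_union_of_disjoint (PB_disj i j k)]

theorem sm_self (i : ℕ) : sm i i = 0 := by simp [sm, PB]

theorem vp_self (i : ℕ) : vp i i = 1 := by simp [vp, PB]

theorem sm_nonneg (i j : ℕ) : 0 ≤ sm i j := Finset.sum_nonneg fun p _ => by positivity

theorem sm_eq_sum {i j : ℕ} (h : i ≤ j) : sm i j = ∑ x ∈ Ico i j, sm x (x + 1) := by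
  induction j, h using Nat.le_induction with
  | base => simp [sm_self]
  | succ j hj ih => rw [sm_add hj (Nat.le_succ j), Finset.sum_Ico_succ_top hj, ih]

theorem card_eq_sum {i j : ℕ} (h : i ≤ j) : (PB i j).card = ∑ x ∈ Ico i j, (PB x (x + 1)).card := by
  induction j, h using Nat.le_induction with
  | base => simp [PB]
  | succ j hj ih => rw [card_add hj (Nat.le_succ j), Finset.sum_Ico_succ_top hj, ih]

theorem vp_pos (i j : ℕ) : 0 < vp i j := by
  apply Finset.prod_pos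
  intro p hp
  unfold PB at hp
  simp only [Finset.mem_filter, Finset.mem_Ioc] at hp
  have h2 : (2 : ℝ) ≤ p := by exact_mod_cast hp.2.two_le
  have : (1 : ℝ) / p ≤ 1 / 2 := one_div_le_one_div_of_le (by norm_num) h2
  linarith

theorem vp_le_one (i j : ℕ) : vp i j ≤ 1 := by
  apply Finset.prod_le_one
  · intro p hp
    unfold PB at hp
    simp only [Finset.mem_filter, Finset.mem_Ioc] at hp
    have h2 : (2 : ℝ) ≤ p := by exact_mod_cast hp.2.two_le
    have : (1 : ℝ) / p ≤ 1 / 2 := one_div_le_one_div_of_le (by norm_num) h2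
    linarith
  · intro p _
    have : (0 : ℝ) ≤ 1 / p := by positivity
    linarith

namespace C

/-! ### binary splitting -/

theorem bs_eq (f : ℕ → ℕ) : ∀ j i n : ℕ, n ≤ 2 ^ j → bs f j i n = ∑ x ∈ Ico i (i + n), f x
  | 0, i, n, h => by
    unfold bs
    have hn : n = 0 ∨ n = 1 := by simp at h; omega
    rcases hn with rfl | rfl
    · simp
    · rw [show Nat.beq 1 0 = false from rfl, cond_false]; simp
  | j + 1, i, n, h => by
    unfold bs
    by_cases hn : n ≤ 2 ^ j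
    · rw [Nat.ble_eq_true_of_le hn]
      simp only [cond_true]
      exact bs_eq f j i n hn
    · have hb : Nat.ble n (2 ^ j) = false := by
        rw [Bool.eq_false_iff]
        intro hc
        exact hn (Nat.le_of_ble_eq_true hc)
      rw [hb]
      simp only [cond_false]
      rw [bs_eq f j i (2 ^ j) le_rfl, bs_eq f j (i + 2 ^ j) (n - 2 ^ j) (by rw [pow_succ] at h; omega)]
      rw [Finset.sum_Ico_consecutive _ (by omega) (by omega)]
      congr 2
      omega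

theorem sI_eq (f : ℕ → ℕ) (i1 i2 : ℕ) : sI f i1 i2 = ∑ x ∈ Ico i1 i2, f x := by
  unfold sI
  rw [bs_eq f _ _ _ (Nat.lt_log2_self).le]
  by_cases h : i1 ≤ i2
  · rw [Nat.add_sub_cancel' h]
  · have : i2 - i1 = 0 := by omega
    rw [this, Finset.Ico_eq_empty (by omega), Finset.Ico_eq_empty (by omega)]

theorem D_pos : (0 : ℝ) < (D : ℝ) := by unfold D; norm_num

theorem D_val : (D : ℝ) = 1000000000 := by unfold D; norm_num

/-- rounding up a quotient -/
theorem div_le_up (x y : ℕ) : (x : ℝ) / y ≤ ((x / y + 1 : ℕ) : ℝ) := by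
  rcases Nat.eq_zero_or_pos y with rfl | hy
  · simp
  · rw [div_le_iff₀ (by exact_mod_cast hy)]
    have := Nat.lt_mul_div_succ x hy
    have h2 : x ≤ (x / y + 1) * y := by rw [mul_comm]; exact this.le
    exact_mod_cast h2

theorem hs_ge (i1 i2 : ℕ) : (D : ℝ) * hr i1 i2 ≤ hs i1 i2 := by
  unfold hs hr
  rw [sI_eq, Finset.mul_sum]
  push_cast
  apply Finset.sum_le_sum
  intro i _
  have h := div_le_up D i
  have e : (D : ℝ) * (1 / i) = D / i := by ring
  rw [e]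
  exact_mod_cast h

theorem ble_t {a b : ℕ} (h : a ≤ b) : Nat.ble a b = true := Nat.ble_eq_true_of_le h

theorem ble_f {a b : ℕ} (h : ¬ a ≤ b) : Nat.ble a b = false := by
  rw [Bool.eq_false_iff]
  intro hc
  exact h (Nat.le_of_ble_eq_true hc)

theorem tab_sum (H : Hyp) {i1 i2 : ℕ} (h1 : 4 ≤ i1) (h2 : i1 ≤ i2) (h3 : i2 ≤ 13) :
    (D : ℝ) * sm i1 i2 ≤ sI (fun i => 1000 * tbS i) i1 i2 := by
  rw [sI_eq, sm_eq_sum h2, Finset.mul_sum]
  push_cast
  apply Finset.sum_le_sum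
  intro i hi
  rw [Finset.mem_Ico] at hi
  have := (H.tab i (by omega) (by omega)).1
  rw [le_div_iff₀ (by norm_num)] at this
  rw [D_val]
  norm_num at this ⊢
  linarith

theorem sumS' (H : Hyp) {i1 i2 : ℕ} (h1 : 13 ≤ i1) (h2 : i1 ≤ i2) :
    (D : ℝ) * sm i1 i2 ≤ (hs i1 i2 + (155 * D / (100 * i1) + 1) : ℕ) := by
  have hS := H.sumS i1 i2 h1 h2
  have h3 := hs_ge i1 i2
  have h4 := div_le_up (155 * D) (100 * i1)
  have hi : (0 : ℝ) < i1 := by exact_mod_cast (by omega : 0 < i1)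
  have e : (((155 * D : ℕ) : ℝ)) / ((100 * i1 : ℕ) : ℝ) = D * (1.55 / i1) := by
    push_cast
    field_simp
    ring
  rw [e] at h4
  rw [Nat.cast_add]
  have := mul_le_mul_of_nonneg_left hS D_pos.le
  rw [mul_add] at this
  linarith

theorem Su_ge (H : Hyp) {i1 i2 : ℕ} (h1 : 4 ≤ i1) (h2 : i1 ≤ i2) : (D : ℝ) * sm i1 i2 ≤ Su i1 i2 := by
  unfold Su
  by_cases h3 : i2 ≤ 13
  · rw [ble_t h3, cond_true]
    exact tab_sum H h1 h2 h3
  · rw [ble_f h3, cond_false]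
    by_cases h4 : 13 ≤ i1
    · rw [ble_t h4, cond_true]
      exact sumS' H h4 h2
    · rw [ble_f h4, cond_false]
      have a1 := tab_sum H h1 (by omega : i1 ≤ 13) le_rfl
      have a2 := sumS' H (le_refl 13) (by omega : 13 ≤ i2)
      rw [sm_add (by omega : i1 ≤ 13) (by omega : 13 ≤ i2)]
      push_cast at a1 a2 ⊢
      linarith

theorem sB_ge (H : Hyp) {i : ℕ} (h1 : 4 ≤ i) : (D : ℝ) * sm i (i + 1) ≤ sB i := by
  unfold sB
  by_cases h4 : 13 ≤ i
  · rw [ble_t h4, cond_true]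
    have hS := H.sumS i (i + 1) h4 (by omega)
    have hi : (0 : ℝ) < i := by exact_mod_cast (by omega : 0 < i)
    have e0 : hr i (i + 1) = 1 / i := by simp [hr]
    rw [e0] at hS
    have h4 := div_le_up (255 * D) (100 * i)
    have e : (((255 * D : ℕ) : ℝ)) / ((100 * i : ℕ) : ℝ) = D * (1 / i + 1.55 / i) := by
      push_cast
      field_simp
      ring
    rw [e] at h4
    refine le_trans ?_ h4
    exact mul_le_mul_of_nonneg_left hS D_pos.le
  · rw [ble_f h4, cond_false]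
    have := (H.tab i h1 (by omega)).1
    rw [le_div_iff₀ (by norm_num)] at this
    rw [D_val]
    push_cast
    norm_num at this ⊢
    linarith

theorem tab_W (H : Hyp) {i1 i2 k : ℕ} (h1 : 4 ≤ i1) (h3 : i2 ≤ 13) (hk : i2 ≤ k) :
    (D : ℝ) * ∑ i ∈ Ico i1 i2, ((k : ℝ) - i) * sm i (i + 1) ≤
      sI (fun i => (k - i) * (1000 * tbS i)) i1 i2 := by
  rw [sI_eq, Finset.mul_sum]
  push_cast
  apply Finset.sum_le_sum
  intro i hi
  rw [Finset.mem_Ico] at hi
  have := (H.tab i (by omega) (by omega)).1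
  rw [le_div_iff₀ (by norm_num)] at this
  have hki : (0 : ℝ) ≤ (k : ℝ) - i := by
    have : (i : ℝ) ≤ k := by exact_mod_cast (by omega : i ≤ k)
    linarith
  have e : (((k - i : ℕ) : ℝ)) = (k : ℝ) - i := by
    rw [Nat.cast_sub (by omega)]
  rw [e, D_val]
  norm_num at this ⊢
  nlinarith

theorem sumW' (H : Hyp) {i1 i2 k : ℕ} (h1 : 13 ≤ i1) (h2 : i1 ≤ i2) (hk : i2 ≤ k) :
    (D : ℝ) * ∑ i ∈ Ico i1 i2, ((k : ℝ) - i) * sm i (i + 1) ≤
      (k * hs i1 i2 + (155 * (k - i1) * D / (100 * i1) + 1) - (i2 - i1) * D : ℕ) := by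
  have hS := H.sumW i1 i2 k h1 h2 hk
  have h3 := hs_ge i1 i2
  have h4 := div_le_up (155 * (k - i1) * D) (100 * i1)
  have hi : (0 : ℝ) < i1 := by exact_mod_cast (by omega : 0 < i1)
  have ek : (((k - i1 : ℕ) : ℝ)) = (k : ℝ) - i1 := by rw [Nat.cast_sub (by omega)]
  have ei : (((i2 - i1 : ℕ) : ℝ)) = (i2 : ℝ) - i1 := by rw [Nat.cast_sub (by omega)]
  have e : (((155 * (k - i1) * D : ℕ) : ℝ)) / ((100 * i1 : ℕ) : ℝ) = D * (1.55 * ((k : ℝ) - i1) / i1) := by
    push_cast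
    rw [ek]
    field_simp
    ring
  rw [e] at h4
  have h5 : ((k * hs i1 i2 + (155 * (k - i1) * D / (100 * i1) + 1) : ℕ) : ℝ) - (((i2 - i1) * D : ℕ) : ℝ) ≤
      ((k * hs i1 i2 + (155 * (k - i1) * D / (100 * i1) + 1) - (i2 - i1) * D : ℕ) : ℝ) := by
    rw [sub_le_iff_le_add]
    exact_mod_cast le_tsub_add
  refine le_trans ?_ h5
  have hk0 : (0 : ℝ) ≤ k := by positivity
  have h6 : (k : ℝ) * (D * hr i1 i2) ≤ k * hs i1 i2 := mul_le_mul_of_nonneg_left h3 hk0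
  have h7 : (D : ℝ) * ∑ i ∈ Ico i1 i2, ((k : ℝ) - i) * sm i (i + 1) ≤
      D * (k * hr i1 i2 - ((i2 : ℝ) - i1) + 1.55 * ((k : ℝ) - i1) / i1) :=
    mul_le_mul_of_nonneg_left hS D_pos.le
  have h8 : (D : ℝ) * (k * hr i1 i2 - ((i2 : ℝ) - i1) + 1.55 * ((k : ℝ) - i1) / i1) =
      k * (D * hr i1 i2) - ((i2 : ℝ) - i1) * D + D * (1.55 * ((k : ℝ) - i1) / i1) := by ring
  rw [h8] at h7
  rw [Nat.cast_add, Nat.cast_mul k, Nat.cast_mul (i2 - i1), ei]
  linarith

theorem Wu_ge (H : Hyp) {i1 i2 k : ℕ} (h1 : 4 ≤ i1) (h2 : i1 ≤ i2) (hk : i2 ≤ k) :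
    (D : ℝ) * ∑ i ∈ Ico i1 i2, ((k : ℝ) - i) * sm i (i + 1) ≤ Wu i1 i2 k := by
  unfold Wu
  by_cases h3 : i2 ≤ 13
  · rw [ble_t h3, cond_true]
    exact tab_W H h1 h3 hk
  · rw [ble_f h3, cond_false]
    by_cases h4 : 13 ≤ i1
    · rw [ble_t h4, cond_true]
      exact sumW' H h4 h2 hk
    · rw [ble_f h4, cond_false]
      have a1 := tab_W H h1 (le_refl 13) (by omega : 13 ≤ k)
      have a2 := sumW' H (le_refl 13) (by omega : 13 ≤ i2) hk
      rw [← Finset.sum_Ico_consecutive _ (by omega : i1 ≤ 13) (by omega : 13 ≤ i2), mul_add, Nat.cast_add]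
      norm_num at a1 a2 ⊢
      linarith

theorem tab_C (H : Hyp) {i1 i2 : ℕ} (h1 : 4 ≤ i1) (h2 : i1 ≤ i2) (h3 : i2 ≤ 13) :
    (PB i1 i2).card ≤ sI tbC i1 i2 := by
  rw [sI_eq, card_eq_sum h2]
  apply Finset.sum_le_sum
  intro i hi
  rw [Finset.mem_Ico] at hi
  exact (H.tab i (by omega) (by omega)).2.2

theorem cardB' (H : Hyp) {i1 i2 : ℕ} (h1 : 4 ≤ i1) (h2 : i1 ≤ i2) :
    (PB i1 i2).card ≤ 192 * (2 ^ i2 - 2 ^ i1) / 1001 + 8 := by
  have h := H.cardB i1 i2 h1 h2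
  have h3 : 2 ^ i1 ≤ 2 ^ i2 := Nat.pow_le_pow_right (by norm_num) h2
  have e : (((2 ^ i2 - 2 ^ i1 : ℕ) : ℝ)) = 2 ^ i2 - 2 ^ i1 := by
    rw [Nat.cast_sub h3]; push_cast; ring
  have h4 : (((PB i1 i2).card : ℝ) - 8) * 1001 ≤ ((192 * (2 ^ i2 - 2 ^ i1) : ℕ) : ℝ) := by
    rw [Nat.cast_mul, e]
    push_cast
    linarith
  by_cases h8 : (PB i1 i2).card ≤ 8
  · omega
  · have h9 : (((PB i1 i2).card - 8 : ℕ) : ℝ) = ((PB i1 i2).card : ℝ) - 8 := by
      rw [Nat.cast_sub (by omega)]; norm_num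
    rw [← h9] at h4
    have h10 : ((PB i1 i2).card - 8) * 1001 ≤ 192 * (2 ^ i2 - 2 ^ i1) := by exact_mod_cast h4
    have h11 : (PB i1 i2).card - 8 ≤ 192 * (2 ^ i2 - 2 ^ i1) / 1001 := by
      rw [Nat.le_div_iff_mul_le (by norm_num)]; exact h10
    omega

theorem cu_ge (H : Hyp) {i1 i2 : ℕ} (h1 : 4 ≤ i1) (h2 : i1 ≤ i2) : (PB i1 i2).card ≤ cu i1 i2 := by
  unfold cu
  by_cases h3 : i2 ≤ 13
  · rw [ble_t h3, cond_true]
    exact tab_C H h1 h2 h3
  · rw [ble_f h3, cond_false]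
    by_cases h4 : 13 ≤ i1
    · rw [ble_t h4, cond_true]
      exact cardB' H h1 h2
    · rw [ble_f h4, cond_false, card_add (by omega : i1 ≤ 13) (by omega : 13 ≤ i2)]
      have a1 := tab_C H h1 (by omega : i1 ≤ 13) le_rfl
      have a2 := cardB' H (by norm_num : 4 ≤ 13) (by omega : 13 ≤ i2)
      norm_num at a2
      omega

/-! ### reciprocal products -/

theorem pV_ge (H : Hyp) {i1 : ℕ} (h1 : 4 ≤ i1) : ∀ n : ℕ, i1 + n ≤ 13 → (D : ℝ) / vp i1 (i1 + n) ≤ pV i1 n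
  | 0, _ => by simp [pV, vp_self]
  | n + 1, h => by
    have ih := pV_ge H h1 n (by omega)
    have ht := (H.tab (i1 + n) (by omega) (by omega)).2.1
    have hv := vp_pos (i1 + n) (i1 + n + 1)
    have hv2 := vp_pos i1 (i1 + n)
    rw [show i1 + (n + 1) = i1 + n + 1 from rfl, vp_mul (by omega : i1 ≤ i1 + n) (by omega : i1 + n ≤ i1 + n + 1)]
    have h3 := div_le_up (pV i1 n * tbV (i1 + n)) 1000000
    unfold pV
    refine le_trans ?_ h3
    have e : (D : ℝ) / (vp i1 (i1 + n) * vp (i1 + n) (i1 + n + 1)) =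
        (D / vp i1 (i1 + n)) * (1 / vp (i1 + n) (i1 + n + 1)) := by
      field_simp
    rw [e]
    have e2 : (((pV i1 n * tbV (i1 + n) : ℕ) : ℝ)) / ((1000000 : ℕ) : ℝ) =
        (pV i1 n : ℝ) * ((tbV (i1 + n) : ℝ) / 10 ^ 6) := by
      push_cast; ring
    rw [e2]
    exact mul_le_mul ih ht (by positivity) (by positivity)

theorem vU_ge (H : Hyp) {i1 i2 : ℕ} (h1 : 13 ≤ i1) (h2 : i1 ≤ i2) (h3 : i2 ≤ 8192) :
    (D : ℝ) / vp i1 i2 ≤ vU i1 i2 := by
  have hi : (13 : ℝ) ≤ i1 := by exact_mod_cast h1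
  have hi2 : (i1 : ℝ) ≤ i2 := by exact_mod_cast h2
  set y : ℕ := 155 * D / (100 * i1) + 1 + (Su i1 i2 / 2 ^ i1 + 1) with hy
  -- real x
  have hSu := Su_ge H (by omega : 4 ≤ i1) h2
  have a1 := div_le_up (155 * D) (100 * i1)
  have e1 : (((155 * D : ℕ) : ℝ)) / ((100 * i1 : ℕ) : ℝ) = D * (1.55 / i1) := by
    push_cast
    field_simp
    ring
  rw [e1] at a1
  have a2 := div_le_up (Su i1 i2) (2 ^ i1)
  have hD : (0 : ℝ) < (D : ℝ) := D_pos
  have a3 : (D : ℝ) * (sm i1 i2 / 2 ^ i1) ≤ ((Su i1 i2 / 2 ^ i1 + 1 : ℕ) : ℝ) := by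
    refine le_trans ?_ a2
    push_cast
    rw [← mul_div_assoc]
    exact div_le_div_of_nonneg_right hSu (by positivity)
  set x : ℝ := 1.55 / i1 + sm i1 i2 / 2 ^ i1 with hx
  have hxy : (D : ℝ) * x ≤ y := by
    rw [hx, hy, mul_add, Nat.cast_add]
    exact add_le_add a1 a3
  have hx0 : 0 ≤ x := by
    have := sm_nonneg i1 i2
    positivity
  -- x ≤ 1
  have hx1 : x ≤ 1 := by
    have b1 : hr i1 i2 ≤ 8192 := by
      unfold hr
      calc ∑ i ∈ Ico i1 i2, (1 : ℝ) / i ≤ ∑ i ∈ Ico i1 i2, (1 : ℝ) := by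
            apply Finset.sum_le_sum
            intro i hi
            rw [Finset.mem_Ico] at hi
            rw [div_le_one (by exact_mod_cast (by omega : 0 < i))]
            exact_mod_cast (by omega : 1 ≤ i)
        _ = ((i2 - i1 : ℕ) : ℝ) := by simp
        _ ≤ 8192 := by exact_mod_cast (by omega : i2 - i1 ≤ 8192)
    have b2 := H.sumS i1 i2 h1 h2
    -- a better bound: hr ≤ (i2 - i1)/13
    have b3 : hr i1 i2 ≤ 8192 / 13 := by
      unfold hr
      calc ∑ i ∈ Ico i1 i2, (1 : ℝ) / i ≤ ∑ i ∈ Ico i1 i2, (1 : ℝ) / 13 := by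
            apply Finset.sum_le_sum
            intro i hi
            rw [Finset.mem_Ico] at hi
            exact one_div_le_one_div_of_le (by norm_num) (by exact_mod_cast (by omega : 13 ≤ i))
        _ = ((i2 - i1 : ℕ) : ℝ) * (1 / 13) := by simp
        _ ≤ 8192 * (1 / 13) := by
            apply mul_le_mul_of_nonneg_right _ (by norm_num)
            exact_mod_cast (by omega : i2 - i1 ≤ 8192)
        _ = 8192 / 13 := by norm_num
    have b4 : (1.55 : ℝ) / i1 ≤ 1.55 / 13 := by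
      apply div_le_div_of_nonneg_left (by norm_num) (by norm_num) hi
    have b5 : (8192 : ℝ) ≤ 2 ^ i1 := by
      calc (8192 : ℝ) = 2 ^ 13 := by norm_num
        _ ≤ 2 ^ i1 := pow_le_pow_right₀ (by norm_num) h1
    have b6 : sm i1 i2 / 2 ^ i1 ≤ (8192 / 13 + 1.55 / 13) / 8192 := by
      apply div_le_div₀ (by norm_num) (by linarith) (by norm_num) b5
    rw [hx]
    norm_num at b4 b6 ⊢
    linarith
  have hV := H.sumV i1 i2 h1 h2 x le_rfl hx1
  -- assemble
  have c1 := div_le_up ((2 * i2 - 1) * D) (2 * i1 - 1)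
  have e2 : (((2 * i2 - 1) * D : ℕ) : ℝ) / ((2 * i1 - 1 : ℕ) : ℝ) = D * ((2 * (i2 : ℝ) - 1) / (2 * i1 - 1)) := by
    rw [Nat.cast_mul, Nat.cast_sub (by omega), Nat.cast_sub (by omega)]
    push_cast
    ring
  rw [e2] at c1
  have c2 := div_le_up (y ^ 2) D
  have c3 : (D : ℝ) * (1 + x + x ^ 2) ≤ ((D + y + (y ^ 2 / D + 1) : ℕ) : ℝ) := by
    have d1 : (D : ℝ) * x ^ 2 ≤ ((y ^ 2 / D + 1 : ℕ) : ℝ) := by
      refine le_trans ?_ c2
      rw [le_div_iff₀ hD]
      push_cast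
      calc (D : ℝ) * x ^ 2 * D = (D * x) ^ 2 := by ring
        _ ≤ (y : ℝ) ^ 2 := by
          apply pow_le_pow_left₀ (by positivity) hxy
    rw [Nat.cast_add, Nat.cast_add]
    have d2 : (D : ℝ) * (1 + x + x ^ 2) = D + D * x + D * x ^ 2 := by ring
    rw [d2]
    linarith
  have c4 := div_le_up (((2 * i2 - 1) * D / (2 * i1 - 1) + 1) * (D + y + (y ^ 2 / D + 1))) D
  have e3 : vU i1 i2 = ((2 * i2 - 1) * D / (2 * i1 - 1) + 1) * (D + y + (y ^ 2 / D + 1)) / D + 1 := by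
    unfold vU
    rw [hy]
  rw [e3]
  refine le_trans ?_ c4
  rw [le_div_iff₀ hD]
  have hq0 : 0 ≤ (2 * (i2 : ℝ) - 1) / (2 * i1 - 1) := by
    apply div_nonneg <;> linarith
  calc (D : ℝ) / vp i1 i2 * D = D * D * (1 / vp i1 i2) := by ring
    _ ≤ D * D * ((2 * (i2 : ℝ) - 1) / (2 * i1 - 1) * (1 + x + x ^ 2)) :=
        mul_le_mul_of_nonneg_left hV (by positivity)
    _ = (D * ((2 * (i2 : ℝ) - 1) / (2 * i1 - 1))) * (D * (1 + x + x ^ 2)) := by ring
    _ ≤ (((2 * i2 - 1) * D / (2 * i1 - 1) + 1 : ℕ) : ℝ) * ((D + y + (y ^ 2 / D + 1) : ℕ) : ℝ) := by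
        apply mul_le_mul c1 c3 _ (by positivity)
        positivity
    _ = _ := by rw [Nat.cast_mul]

theorem IVu_ge (H : Hyp) {i1 i2 : ℕ} (h1 : 4 ≤ i1) (h2 : i1 ≤ i2) (h3 : i2 ≤ 8192) :
    (D : ℝ) / vp i1 i2 ≤ IVu i1 i2 := by
  unfold IVu
  by_cases h0 : i1 = i2
  · subst h0
    simp [vp_self]
  · have hb : Nat.beq i1 i2 = false := by
      rw [Bool.eq_false_iff]
      intro hc
      exact h0 (Nat.eq_of_beq_eq_true hc)
    rw [hb, cond_false]
    by_cases h4 : i2 ≤ 13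
    · rw [ble_t h4, cond_true]
      have := pV_ge H h1 (i2 - i1) (by omega)
      rwa [Nat.add_sub_cancel' h2] at this
    · rw [ble_f h4, cond_false]
      by_cases h5 : 13 ≤ i1
      · rw [ble_t h5, cond_true]
        exact vU_ge H h5 h2 h3
      · rw [ble_f h5, cond_false, vp_mul (by omega : i1 ≤ 13) (by omega : 13 ≤ i2)]
        have a1 := pV_ge H h1 (13 - i1) (by omega)
        rw [Nat.add_sub_cancel' (by omega : i1 ≤ 13)] at a1
        have a2 := vU_ge H (le_refl 13) (by omega : 13 ≤ i2) h3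
        have a3 := div_le_up (pV i1 (13 - i1) * vU 13 i2) D
        refine le_trans ?_ a3
        have hv := vp_pos i1 13
        have hv2 := vp_pos 13 i2
        have hD : (0 : ℝ) < (D : ℝ) := D_pos
        rw [le_div_iff₀ hD]
        calc (D : ℝ) / (vp i1 13 * vp 13 i2) * D = (D / vp i1 13) * (D / vp 13 i2) := by
              field_simp
          _ ≤ (pV i1 (13 - i1) : ℝ) * (vU 13 i2 : ℝ) :=
              mul_le_mul a1 a2 (div_nonneg hD.le hv2.le) (Nat.cast_nonneg _)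
          _ = _ := by rw [Nat.cast_mul]

theorem rU_ge (H : Hyp) {b a m : ℕ} (h1 : 4 ≤ b) (h2 : b ≤ a) (h3 : a ≤ 8192) :
    (D : ℝ) * rr b a m ≤ rU b a m := by
  have hS := Su_ge H h1 h2
  have hI := IVu_ge H h1 h2 h3
  have hD : (0 : ℝ) < (D : ℝ) := D_pos
  have hv := vp_pos b a
  have a1 := div_le_up ((Su b a) ^ (m + 1) * IVu b a) (D ^ (m + 1) * (m + 1).factorial)
  unfold rU rr
  refine le_trans ?_ a1
  have hf : (0 : ℝ) < ((m + 1).factorial : ℝ) := by exact_mod_cast Nat.factorial_pos _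
  rw [Nat.cast_mul, Nat.cast_mul, Nat.cast_pow, Nat.cast_pow, le_div_iff₀ (by positivity)]
  calc (D : ℝ) * (sm b a ^ (m + 1) / (((m + 1).factorial : ℝ) * vp b a)) *
        ((D : ℝ) ^ (m + 1) * ((m + 1).factorial : ℝ))
      = ((D : ℝ) * sm b a) ^ (m + 1) * (D / vp b a) := by
        rw [mul_pow]
        field_simp
    _ ≤ (Su b a : ℝ) ^ (m + 1) * (IVu b a : ℝ) := by
        apply mul_le_mul _ hI (by positivity) (by positivity)
        exact pow_le_pow_left₀ (mul_nonneg hD.le (sm_nonneg _ _)) hS _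

theorem rr_nonneg (b a m : ℕ) : 0 ≤ rr b a m := by
  unfold rr
  have := vp_pos b a
  have := sm_nonneg b a
  positivity

end C

end Pool.Agent.Helper1.SQ
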