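import Pool.Agent.Helper1.SQ.C1a

/-!
# Project SQ: soundness of the finite checker, part b (chains, groups, higher powers, certificates)
-/

set_option autoImplicit false
open Finset

namespace Pool.Agent.Helper1.SQ

namespace C

/-! ### chains -/

/-- all parameters of a chain are nonnegative -/
theorem Ch_nonneg {a : ℕ} {P R E M : ℝ} (h : Ch a P R E M) : 0 ≤ P ∧ 0 ≤ R ∧ 1 ≤ E ∧ 1 ≤ M := by
  induction h with
  | base => norm_num
  | @step b P R E M a m _ hba _ ih =>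
    obtain ⟨h1, h2, h3, h4⟩ := ih
    have hr := rr_nonneg b a m
    have hc : (0 : ℝ) ≤ ((PB b a).card : ℝ) := Nat.cast_nonneg _
    refine ⟨by positivity, by positivity, ?_, by linarith⟩
    have : (1 : ℝ) ≤ (((PB b a).card : ℝ) + 1) ^ m := one_le_pow₀ (by linarith)
    nlinarith

theorem Ch_four_le {a : ℕ} {P R E M : ℝ} (h : Ch a P R E M) : 4 ≤ a := by
  induction h with
  | base => norm_num
  | step a m _ hba _ ih => omega

theorem chain_sound (H : Hyp) : ∀ (l : List (ℕ × ℕ)) (a : ℕ), a ≤ 8192 → chOK a l = true →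
    ∃ P R E M : ℝ, Ch a P R E M ∧ (D : ℝ) * P ≤ chP a l ∧ (D : ℝ) * R ≤ chR a l ∧
      E ≤ chN a l ∧ M ≤ chM a l
  | [], a, _, h => by
    have h4 : a = 4 := Nat.eq_of_beq_eq_true h
    subst h4
    exact ⟨1, 0, 1, 1, Ch.base, by simp [chP], by simp [chR], by simp [chN], by simp [chM]⟩
  | x :: l, a, ha, h => by
    obtain ⟨b, m⟩ := x
    unfold chOK at h
    simp only [Bool.and_eq_true] at h
    obtain ⟨h1, h2, h3, h4⟩ := h
    have hb : 4 ≤ b := Nat.le_of_ble_eq_true h1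
    have hba : b < a := Nat.le_of_ble_eq_true h2
    have hm : Even m := Nat.even_iff.mpr (Nat.eq_of_beq_eq_true h3)
    obtain ⟨P, R, E, M, hc, hP, hR, hE, hM⟩ := chain_sound H l b (by omega) h4
    obtain ⟨p0, r0, e0, m0⟩ := Ch_nonneg hc
    have hrr := rU_ge H (m := m) hb hba.le ha
    have hr0 := rr_nonneg b a m
    have hcu : ((PB b a).card : ℝ) + 1 ≤ ((cu b a + 1 : ℕ) : ℝ) := by
      have := cu_ge H hb hba.le
      exact_mod_cast Nat.succ_le_succ this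
    refine ⟨_, _, _, _, Ch.step a m hc hba hm, ?_, ?_, ?_, ?_⟩
    · unfold chP
      have h5 := div_le_up (chP b l * (D + rU b a m)) D
      refine le_trans ?_ h5
      rw [le_div_iff₀ D_pos]
      calc (D : ℝ) * (P * (1 + rr b a m)) * D = (D * P) * (D + D * rr b a m) := by ring
        _ ≤ (chP b l : ℝ) * ((D : ℝ) + rU b a m) := by
            apply mul_le_mul hP (by linarith) _ (Nat.cast_nonneg _)
            have := D_pos
            positivity
        _ = _ := by push_cast; ring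
    · unfold chR
      rw [Nat.cast_add, mul_add]
      exact add_le_add hR hrr
    · unfold chN
      rw [Nat.cast_mul, Nat.cast_pow]
      apply mul_le_mul hE _ (by positivity) (Nat.cast_nonneg _)
      exact pow_le_pow_left₀ (by positivity) hcu _
    · unfold chM
      rw [Nat.cast_add]
      exact add_le_add hM hcu

/-! ### error terms -/

theorem err_ge {a I h : ℕ} (hI : (D : ℝ) / vp 4 a ≤ I) (X : ℕ) {Hh : ℝ} (hH : (2 : ℝ) ^ h ≤ Hh) :
    (D : ℝ) * X ≤ (192 / 1001 * Hh * vp 4 a) * err I h X := by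
  have h1 := div_le_up (X * I * 1001) (192 * 2 ^ h)
  have hv := vp_pos 4 a
  have h2 : (0 : ℝ) < 2 ^ h := by positivity
  have hX : (0 : ℝ) ≤ (X : ℝ) := Nat.cast_nonneg _
  have h3 : (X : ℝ) * (D / vp 4 a) * 1001 / (192 * 2 ^ h) ≤ err I h X := by
    unfold err
    refine le_trans ?_ h1
    push_cast
    apply div_le_div_of_nonneg_right _ (by positivity)
    have := mul_le_mul_of_nonneg_left hI hX
    linarith
  have h4 : (0 : ℝ) ≤ err I h X := Nat.cast_nonneg _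
  calc (D : ℝ) * X = (192 / 1001 * 2 ^ h * vp 4 a) * ((X : ℝ) * (D / vp 4 a) * 1001 / (192 * 2 ^ h)) := by
        field_simp
    _ ≤ (192 / 1001 * 2 ^ h * vp 4 a) * err I h X :=
        mul_le_mul_of_nonneg_left h3 (by positivity)
    _ ≤ (192 / 1001 * Hh * vp 4 a) * err I h X := by
        apply mul_le_mul_of_nonneg_right _ h4
        apply mul_le_mul_of_nonneg_right _ hv.le
        apply mul_le_mul_of_nonneg_left hH (by norm_num)

theorem EC_ge (H : Hyp) {k e1 e2 : ℕ} (h1 : 4 ≤ e1) (h3 : e2 ≤ k) :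
    ∑ i ∈ Ico e1 e2, ((k : ℝ) - i) * ((PB i (i + 1)).card : ℝ) ≤ EC k e1 e2 := by
  unfold EC
  rw [sI_eq]
  push_cast
  apply Finset.sum_le_sum
  intro i hi
  rw [Finset.mem_Ico] at hi
  have e : (((k - i : ℕ) : ℝ)) = (k : ℝ) - i := by
    rw [Nat.cast_sub (by omega)]
  rw [← e]
  apply mul_le_mul_of_nonneg_left _ (Nat.cast_nonneg _)
  exact_mod_cast cu_ge H (by omega) (by omega)

theorem cnt_mono {N H' p a' a : ℕ} (h4 : 4 ≤ a') (h : a' ≤ a) : cnt N H' p a ⊆ cnt N H' p a' := by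
  intro m hm
  unfold cnt at hm ⊢
  rw [Finset.mem_filter] at hm ⊢
  refine ⟨hm.1, hm.2.1, hm.2.2.1, fun q hq => hm.2.2.2 q ?_⟩
  rw [PB_union h4 h]
  exact Finset.mem_union_left _ hq

theorem mem_PB {i j p : ℕ} : p ∈ PB i j ↔ (2 ^ i < p ∧ p ≤ 2 ^ j) ∧ p.Prime := by
  unfold PB
  simp [Finset.mem_filter, Finset.mem_Ioc]

/-- primes above 16 are coprime to 30030 -/
theorem coprime_of_gt {p : ℕ} (hp : p.Prime) (h : 16 < p) : Nat.Coprime p 30030 := by
  rw [Nat.Prime.coprime_iff_not_dvd hp]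
  intro hd
  have h2 : (30030 : ℕ) = 2 * 3 * 5 * 7 * 11 * 13 := by norm_num
  rw [h2] at hd
  simp only [hp.dvd_mul] at hd
  rcases hd with ((((h | h) | h) | h) | h) | h <;>
  · have := Nat.le_of_dvd (by norm_num) h
    omega

theorem group_one (H : Hyp) {N Hn k a a' e e2 h I : ℕ} (l : List (ℕ × ℕ)) (ha4 : 4 ≤ a') (haa : a' ≤ a)
    (ha : a ≤ 8192) (hae : a ≤ e) (hee : e ≤ e2) (hek : e2 ≤ k) (hc : chOK a' l = true)
    (hI : (D : ℝ) / vp 4 a ≤ I) (hH : 2 ^ h ≤ Hn) :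
    (D : ℝ) * ∑ i ∈ Ico e e2, ((k : ℝ) - i) * ∑ p ∈ PB i (i + 1), ((cnt N Hn p a).card : ℝ) ≤
      (192 / 1001 * (Hn : ℝ) * vp 4 a) *
        ((chP a' l * IVu a' a / D + 1) * Wu e e2 k / D + 1 + err I h (8 * chN a' l * EC k e e2) : ℕ) := by
  obtain ⟨P, R, E, M, hch, hP, hR, hE, hM⟩ := chain_sound H l a' (by omega) hc
  obtain ⟨p0, r0, e0, m0⟩ := Ch_nonneg hch
  have hv := vp_pos 4 a
  have hv' := vp_pos 4 a'
  have hv'' := vp_pos a' a
  have hHn : (0 : ℝ) ≤ (Hn : ℝ) := Nat.cast_nonneg _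
  have hvm : vp 4 a = vp 4 a' * vp a' a := vp_mul ha4 haa
  -- pointwise
  have hpt : ∀ i ∈ Ico e e2, ∀ p ∈ PB i (i + 1), ((cnt N Hn p a).card : ℝ) ≤
      (192 / 1001 * (Hn : ℝ) * vp 4 a' * P) * (1 / p) + 8 * E := by
    intro i hi p hp
    rw [Finset.mem_Ico] at hi
    rw [mem_PB] at hp
    have h16 : 16 < p := by
      have : 2 ^ 4 ≤ 2 ^ i := Nat.pow_le_pow_right (by norm_num) (by omega)
      omega
    have hcop := coprime_of_gt hp.2 h16
    have hnd : ∀ q ∈ PB 4 a', ¬ q ∣ p := by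
      intro q hq hd
      rw [mem_PB] at hq
      have hqp : q = p := (Nat.prime_dvd_prime_iff_eq hq.2 hp.2).mp hd
      have : 2 ^ a' ≤ 2 ^ i := Nat.pow_le_pow_right (by norm_num) (by omega)
      omega
    have hub := H.bhUp a' P R E M hch N Hn p hp.2.pos hcop hnd
    have hcc : ((cnt N Hn p a).card : ℝ) ≤ ((cnt N Hn p a').card : ℝ) := by
      exact_mod_cast Finset.card_le_card (cnt_mono ha4 haa)
    refine hcc.trans (hub.trans (le_of_eq ?_))
    ring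
  have hsum : ∑ i ∈ Ico e e2, ((k : ℝ) - i) * ∑ p ∈ PB i (i + 1), ((cnt N Hn p a).card : ℝ) ≤
      (192 / 1001 * (Hn : ℝ) * vp 4 a' * P) * ∑ i ∈ Ico e e2, ((k : ℝ) - i) * sm i (i + 1) +
      8 * E * ∑ i ∈ Ico e e2, ((k : ℝ) - i) * ((PB i (i + 1)).card : ℝ) := by
    rw [Finset.mul_sum, Finset.mul_sum, ← Finset.sum_add_distrib]
    apply Finset.sum_le_sum
    intro i hi
    have hi' := hi
    rw [Finset.mem_Ico] at hi'
    have hki : (0 : ℝ) ≤ (k : ℝ) - i := by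
      have : (i : ℝ) ≤ k := by exact_mod_cast (by omega : i ≤ k)
      linarith
    have h1 : ∑ p ∈ PB i (i + 1), ((cnt N Hn p a).card : ℝ) ≤
        (192 / 1001 * (Hn : ℝ) * vp 4 a' * P) * sm i (i + 1) + 8 * E * ((PB i (i + 1)).card : ℝ) := by
      refine (Finset.sum_le_sum (hpt i hi)).trans (le_of_eq ?_)
      rw [Finset.sum_add_distrib, ← Finset.mul_sum, Finset.sum_const, nsmul_eq_mul]
      unfold sm
      ring
    have h2 := mul_le_mul_of_nonneg_left h1 hki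
    refine h2.trans (le_of_eq ?_)
    ring
  have hW := Wu_ge H (by omega : 4 ≤ e) hee hek
  have hEC := EC_ge H (by omega : 4 ≤ e) hek
  have hIV := IVu_ge H ha4 haa ha
  have hW0 : 0 ≤ ∑ i ∈ Ico e e2, ((k : ℝ) - i) * sm i (i + 1) := by
    apply Finset.sum_nonneg
    intro i hi
    rw [Finset.mem_Ico] at hi
    have hki : (0 : ℝ) ≤ (k : ℝ) - i := by
      have : (i : ℝ) ≤ k := by exact_mod_cast (by omega : i ≤ k)
      linarith
    exact mul_nonneg hki (sm_nonneg _ _)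
  -- main term
  have hmain : (D : ℝ) * ((192 / 1001 * (Hn : ℝ) * vp 4 a' * P) * ∑ i ∈ Ico e e2, ((k : ℝ) - i) * sm i (i + 1)) ≤
      (192 / 1001 * (Hn : ℝ) * vp 4 a) * ((chP a' l * IVu a' a / D + 1) * Wu e e2 k / D + 1 : ℕ) := by
    have h1 := div_le_up (chP a' l * IVu a' a) D
    have h2 := div_le_up ((chP a' l * IVu a' a / D + 1) * Wu e e2 k) D
    have h3 : (D : ℝ) * P * (1 / vp a' a) ≤ ((chP a' l * IVu a' a / D + 1 : ℕ) : ℝ) := by
      refine le_trans ?_ h1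
      rw [le_div_iff₀ D_pos, Nat.cast_mul]
      calc (D : ℝ) * P * (1 / vp a' a) * D = (D * P) * (D / vp a' a) := by ring
        _ ≤ _ := mul_le_mul hP hIV (div_nonneg D_pos.le hv''.le) (Nat.cast_nonneg _)
    have h4 : (D : ℝ) * P * (1 / vp a' a) * ∑ i ∈ Ico e e2, ((k : ℝ) - i) * sm i (i + 1) ≤
        (((chP a' l * IVu a' a / D + 1) * Wu e e2 k / D + 1 : ℕ) : ℝ) := by
      refine le_trans ?_ h2
      rw [le_div_iff₀ D_pos, Nat.cast_mul]
      calc (D : ℝ) * P * (1 / vp a' a) * (∑ i ∈ Ico e e2, ((k : ℝ) - i) * sm i (i + 1)) * D =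
            ((D : ℝ) * P * (1 / vp a' a)) * (D * ∑ i ∈ Ico e e2, ((k : ℝ) - i) * sm i (i + 1)) := by ring
        _ ≤ _ := mul_le_mul h3 hW (mul_nonneg D_pos.le hW0) (Nat.cast_nonneg _)
    calc (D : ℝ) * ((192 / 1001 * (Hn : ℝ) * vp 4 a' * P) * ∑ i ∈ Ico e e2, ((k : ℝ) - i) * sm i (i + 1)) =
        (192 / 1001 * (Hn : ℝ) * vp 4 a) *
          ((D : ℝ) * P * (1 / vp a' a) * ∑ i ∈ Ico e e2, ((k : ℝ) - i) * sm i (i + 1)) := by
          rw [hvm]; field_simp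
      _ ≤ _ := mul_le_mul_of_nonneg_left h4 (by positivity)
  have herr : (D : ℝ) * (8 * E * ∑ i ∈ Ico e e2, ((k : ℝ) - i) * ((PB i (i + 1)).card : ℝ)) ≤
      (192 / 1001 * (Hn : ℝ) * vp 4 a) * (err I h (8 * chN a' l * EC k e e2) : ℕ) := by
    have hHr : (2 : ℝ) ^ h ≤ Hn := by exact_mod_cast hH
    refine le_trans ?_ (err_ge hI (8 * chN a' l * EC k e e2) hHr)
    apply mul_le_mul_of_nonneg_left _ D_pos.le
    push_cast
    apply mul_le_mul _ hEC _ (by positivity)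
    · linarith
    · apply Finset.sum_nonneg
      intro i hi
      rw [Finset.mem_Ico] at hi
      have hki : (0 : ℝ) ≤ (k : ℝ) - i := by
        have : (i : ℝ) ≤ k := by exact_mod_cast (by omega : i ≤ k)
        linarith
      positivity
  rw [Nat.cast_add _ (err I h _), mul_add]
  refine le_trans (mul_le_mul_of_nonneg_left hsum D_pos.le) ?_
  rw [mul_add]
  exact add_le_add hmain herr

theorem groups_sound (H : Hyp) {N Hn k a h I : ℕ} (ha : a ≤ 8192)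
    (hI : (D : ℝ) / vp 4 a ≤ I) (hH : 2 ^ h ≤ Hn) :
    ∀ (gs : List (ℕ × ℕ × List (ℕ × ℕ))) (e : ℕ), a ≤ e → e ≤ k → grOK k a e gs = true →
    (D : ℝ) * ∑ i ∈ Ico e k, ((k : ℝ) - i) * ∑ p ∈ PB i (i + 1), ((cnt N Hn p a).card : ℝ) ≤
      (192 / 1001 * (Hn : ℝ) * vp 4 a) * (grV I h k a e gs : ℕ)
  | [], e, _, _, hg => by
    have : e = k := Nat.eq_of_beq_eq_true hg
    subst this
    simp [grV]
  | x :: gs, e, hae, hek, hg => by
    obtain ⟨e2, a', l⟩ := x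
    unfold grOK at hg
    simp only [Bool.and_eq_true] at hg
    obtain ⟨h1, h2, h3, h4, h5, h6⟩ := hg
    have g1 : e ≤ e2 := Nat.le_of_ble_eq_true h1
    have g2 : e2 ≤ k := Nat.le_of_ble_eq_true h2
    have g3 : 4 ≤ a' := Nat.le_of_ble_eq_true h3
    have g4 : a' ≤ a := Nat.le_of_ble_eq_true h4
    have ih := groups_sound H (N := N) ha hI hH gs e2 (by omega) g2 h6
    have ho := group_one H (N := N) (Hn := Hn) (k := k) (h := h) (I := I) l g3 g4 ha hae g1 g2 h5 hI hH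
    unfold grV
    rw [Nat.cast_add _ (grV I h k a e2 gs), mul_add, ← Finset.sum_Ico_consecutive _ g1 g2, mul_add]
    exact add_le_add ho ih

/-! ### higher powers -/

theorem hp_one (H : Hyp) {N Hn Λ a i h I : ℕ} (ha : 4 ≤ a) (hai : a ≤ i)
    (hI : (D : ℝ) / vp 4 a ≤ I) (hH : 2 ^ h ≤ Hn) (hN : N + Hn < 2 ^ (Λ + 1)) :
    (D : ℝ) * ∑ p ∈ PB i (i + 1), (hpw N Hn a p : ℝ) ≤
      (192 / 1001 * (Hn : ℝ) * vp 4 a) * (hpI I h Λ i : ℕ) := by
  have hb := H.hpb N Hn Λ a i ha hai hN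
  have hv := vp_pos 4 a
  have hHr : (2 : ℝ) ^ h ≤ Hn := by exact_mod_cast hH
  have hHn : (0 : ℝ) ≤ (Hn : ℝ) := Nat.cast_nonneg _
  have hs := sB_ge H (by omega : 4 ≤ i)
  have hs0 := sm_nonneg i (i + 1)
  have hcu : ((PB i (i + 1)).card : ℝ) ≤ (cu i (i + 1) : ℝ) := by
    exact_mod_cast cu_ge H (by omega) (by omega)
  have hc0 : (0 : ℝ) ≤ ((PB i (i + 1)).card : ℝ) := Nat.cast_nonneg _
  set V : ℝ := 192 / 1001 * (Hn : ℝ) * vp 4 a with hV
  have hV0 : 0 ≤ V := by positivity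
  have hD := D_pos
  -- key product: D * sm / vp ≤ sB * I / D
  have key : (D : ℝ) * sm i (i + 1) * (D / vp 4 a) ≤ ((sB i * I : ℕ) : ℝ) := by
    rw [Nat.cast_mul]
    exact mul_le_mul hs hI (div_nonneg hD.le hv.le) (Nat.cast_nonneg _)
  have tA : (D : ℝ) * (192 / 1001 * (Hn : ℝ) * sm i (i + 1) / 2 ^ i) ≤ V * ((sB i * I / (D * 2 ^ i) + 1 : ℕ) : ℝ) := by
    have h1 := div_le_up (sB i * I) (D * 2 ^ i)
    refine le_trans ?_ (mul_le_mul_of_nonneg_left h1 hV0)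
    have h2 : (D : ℝ) * sm i (i + 1) * (D / vp 4 a) / (((D * 2 ^ i : ℕ)) : ℝ) ≤
        ((sB i * I : ℕ) : ℝ) / (((D * 2 ^ i : ℕ)) : ℝ) := div_le_div_of_nonneg_right key (Nat.cast_nonneg _)
    refine le_trans (le_of_eq ?_) (mul_le_mul_of_nonneg_left h2 hV0)
    rw [hV]; push_cast; field_simp
  have tB : (D : ℝ) * ((Hn : ℝ) * sm i (i + 1) / 2 ^ i) ≤
      V * ((1001 * (sB i * I) / (192 * D * 2 ^ i) + 1 : ℕ) : ℝ) := by
    have h1 := div_le_up (1001 * (sB i * I)) (192 * D * 2 ^ i)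
    refine le_trans ?_ (mul_le_mul_of_nonneg_left h1 hV0)
    have h2 : 1001 * ((D : ℝ) * sm i (i + 1) * (D / vp 4 a)) / (((192 * D * 2 ^ i : ℕ)) : ℝ) ≤
        ((1001 * (sB i * I) : ℕ) : ℝ) / (((192 * D * 2 ^ i : ℕ)) : ℝ) := by
      apply div_le_div_of_nonneg_right _ (Nat.cast_nonneg _)
      rw [Nat.cast_mul 1001]
      have := mul_le_mul_of_nonneg_left key (by norm_num : (0 : ℝ) ≤ 1001)
      exact_mod_cast this
    refine le_trans (le_of_eq ?_) (mul_le_mul_of_nonneg_left h2 hV0)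
    rw [hV]; push_cast; field_simp
  have tC : (D : ℝ) * ((Hn : ℝ) * sm i (i + 1) / 4 ^ i) ≤
      V * ((1001 * (sB i * I) / (192 * D * 4 ^ i) + 1 : ℕ) : ℝ) := by
    have h1 := div_le_up (1001 * (sB i * I)) (192 * D * 4 ^ i)
    refine le_trans ?_ (mul_le_mul_of_nonneg_left h1 hV0)
    have h2 : 1001 * ((D : ℝ) * sm i (i + 1) * (D / vp 4 a)) / (((192 * D * 4 ^ i : ℕ)) : ℝ) ≤
        ((1001 * (sB i * I) : ℕ) : ℝ) / (((192 * D * 4 ^ i : ℕ)) : ℝ) := by
      apply div_le_div_of_nonneg_right _ (Nat.cast_nonneg _)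
      rw [Nat.cast_mul 1001]
      have := mul_le_mul_of_nonneg_left key (by norm_num : (0 : ℝ) ≤ 1001)
      exact_mod_cast this
    refine le_trans (le_of_eq ?_) (mul_le_mul_of_nonneg_left h2 hV0)
    rw [hV]; push_cast; field_simp
  have eA : (D : ℝ) * (8 * ((PB i (i + 1)).card : ℝ)) ≤ V * (err I h (8 * cu i (i + 1)) : ℕ) := by
    refine le_trans ?_ (err_ge hI (8 * cu i (i + 1)) hHr)
    apply mul_le_mul_of_nonneg_left _ hD.le
    push_cast
    linarith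
  have eB : (D : ℝ) * ((PB i (i + 1)).card : ℝ) ≤ V * (err I h (cu i (i + 1)) : ℕ) := by
    refine le_trans ?_ (err_ge hI (cu i (i + 1)) hHr)
    exact mul_le_mul_of_nonneg_left hcu hD.le
  have eC : (D : ℝ) * (((PB i (i + 1)).card : ℝ) * ((Λ / i - 2 : ℕ) : ℝ)) ≤
      V * (err I h (cu i (i + 1) * (Λ / i - 2)) : ℕ) := by
    refine le_trans ?_ (err_ge hI (cu i (i + 1) * (Λ / i - 2)) hHr)
    apply mul_le_mul_of_nonneg_left _ hD.le
    rw [Nat.cast_mul]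
    exact mul_le_mul_of_nonneg_right hcu (Nat.cast_nonneg _)
  -- assemble
  unfold hpI
  rw [Nat.cast_add, mul_add]
  refine le_trans (mul_le_mul_of_nonneg_left hb hD.le) ?_
  rw [mul_add]
  apply add_le_add
  · rw [Nat.cast_min, mul_min_of_nonneg _ _ hV0, mul_min_of_nonneg _ _ hD.le]
    apply min_le_min
    · rw [Nat.cast_add _ (err I h _), mul_add, mul_add]
      exact add_le_add tA eA
    · rw [Nat.cast_add _ (err I h _), mul_add, mul_add]
      exact add_le_add tB eB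
  · rw [Nat.cast_add _ (err I h _), mul_add, mul_add]
    exact add_le_add tC eC

theorem hp_sound (H : Hyp) {N Hn Λ k a h I : ℕ} (ha : 4 ≤ a)
    (hI : (D : ℝ) / vp 4 a ≤ I) (hH : 2 ^ h ≤ Hn) (hN : N + Hn < 2 ^ (Λ + 1)) :
    (D : ℝ) * ∑ i ∈ Ico a k, ((k : ℝ) - i) * ∑ p ∈ PB i (i + 1), (hpw N Hn a p : ℝ) ≤
      (192 / 1001 * (Hn : ℝ) * vp 4 a) * (hpV I h Λ k a : ℕ) := by
  unfold hpV
  rw [sI_eq, Finset.mul_sum, Nat.cast_sum, Finset.mul_sum]
  apply Finset.sum_le_sum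
  intro i hi
  rw [Finset.mem_Ico] at hi
  have h1 := hp_one H (N := N) (i := i) ha hi.1 hI hH hN
  have e : (((k - i : ℕ) : ℝ)) = (k : ℝ) - i := by
    rw [Nat.cast_sub (by omega)]
  rw [Nat.cast_mul, e]
  have hki : (0 : ℝ) ≤ (k : ℝ) - i := by
    have : (i : ℝ) ≤ k := by exact_mod_cast (by omega : i ≤ k)
    linarith
  have h2 := mul_le_mul_of_nonneg_left h1 hki
  calc _ = ((k : ℝ) - i) * ((D : ℝ) * ∑ p ∈ PB i (i + 1), (hpw N Hn a p : ℝ)) := by ring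
    _ ≤ _ := h2
    _ = _ := by ring

/-! ### certificates -/

theorem core (H : Hyp) {N Hn Λ k a h I : ℕ} {ch : List (ℕ × ℕ)} {gs : List (ℕ × ℕ × List (ℕ × ℕ))}
    (ha4 : 4 ≤ a) (ha : a ≤ 8192) (hak : a ≤ k) (hΛ : Λ ≤ 4 * k)
    (hI : (D : ℝ) / vp 4 a ≤ I) (hH : 2 ^ h ≤ Hn) (hN : N + Hn < 2 ^ (Λ + 1))
    (hc : chOK a ch = true) (hg : grOK k a a gs = true)
    (h1 : chR a ch + err I h (8 * (chN a ch * chM a ch)) ≤ D)
    (h2 : grV I h k a a gs + hpV I h Λ k a + 1 ≤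
      (4 * k - Λ) * (D - (chR a ch + err I h (8 * (chN a ch * chM a ch))))) :
    ∃ m ∈ cnt N Hn 1 a, ArithmeticFunction.cardFactors m ≤ 3 := by
  apply H.mt N Hn k Λ a ha4 hN
  obtain ⟨P, R, E, M, hch, hP, hR, hE, hM⟩ := chain_sound H ch a ha hc
  obtain ⟨p0, r0, e0, m0⟩ := Ch_nonneg hch
  have hD := D_pos
  have hv := vp_pos 4 a
  have hHr : (2 : ℝ) ^ h ≤ Hn := by exact_mod_cast hH
  have h2h : (0 : ℝ) < 2 ^ h := by positivity
  have hHn : (0 : ℝ) < (Hn : ℝ) := lt_of_lt_of_le h2h hHr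
  set V : ℝ := 192 / 1001 * (Hn : ℝ) * vp 4 a with hV
  have hV0 : 0 < V := by positivity
  set r : ℕ := chR a ch + err I h (8 * (chN a ch * chM a ch)) with hr
  have hrD : (r : ℝ) ≤ (D : ℝ) := by exact_mod_cast h1
  have hR1 : R ≤ 1 := by
    have a1 : (D : ℝ) * R ≤ (D : ℝ) * 1 := by
      have a2 : (chR a ch : ℝ) ≤ (r : ℝ) := by
        rw [hr]; push_cast
        have : (0 : ℝ) ≤ (err I h (8 * (chN a ch * chM a ch)) : ℝ) := Nat.cast_nonneg _
        linarith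
      linarith
    exact le_of_mul_le_mul_left a1 hD
  have hlow := H.bhLow a P R E M hch hR1 N Hn
  -- lower bound for the count
  have hcnt : V * ((D : ℝ) - r) ≤ (D : ℝ) * ((cnt N Hn 1 a).card : ℝ) := by
    have herr := err_ge (a := a) hI (8 * (chN a ch * chM a ch)) hHr
    have hEM : E * M ≤ ((chN a ch * chM a ch : ℕ) : ℝ) := by
      rw [Nat.cast_mul]
      exact mul_le_mul hE hM (by linarith) (Nat.cast_nonneg _)
    have b1 : (D : ℝ) * (8 * (E * M)) ≤ V * (err I h (8 * (chN a ch * chM a ch)) : ℕ) := by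
      refine le_trans ?_ herr
      apply mul_le_mul_of_nonneg_left _ hD.le
      rw [Nat.cast_mul 8]
      push_cast at hEM ⊢
      linarith
    have b2 := mul_le_mul_of_nonneg_left hlow hD.le
    refine le_trans ?_ b2
    have b3 : (D : ℝ) * R * V ≤ chR a ch * V := mul_le_mul_of_nonneg_right hR hV0.le
    rw [hr, Nat.cast_add]
    have b4 : (D : ℝ) * (192 / 1001 * (Hn : ℝ) * vp 4 a * (1 - R) - 8 * (E * M)) =
        V * D - D * R * V - D * (8 * (E * M)) := by rw [hV]; ring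
    rw [b4]
    linarith
  have hup1 := groups_sound H (N := N) ha hI hH gs a le_rfl hak hg
  have hup2 := hp_sound H (k := k) ha4 hI hH hN
  have hsplit : ∑ i ∈ Ico a k, ((k : ℝ) - i) * ∑ p ∈ PB i (i + 1), (((cnt N Hn p a).card : ℝ) + hpw N Hn a p) =
      ∑ i ∈ Ico a k, ((k : ℝ) - i) * ∑ p ∈ PB i (i + 1), ((cnt N Hn p a).card : ℝ) +
      ∑ i ∈ Ico a k, ((k : ℝ) - i) * ∑ p ∈ PB i (i + 1), (hpw N Hn a p : ℝ) := by
    rw [← Finset.sum_add_distrib]
    apply Finset.sum_congr rfl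
    intro i _
    rw [Finset.sum_add_distrib]
    ring
  rw [hsplit]
  have e4 : ((4 * k - Λ : ℕ) : ℝ) = 4 * (k : ℝ) - Λ := by
    rw [Nat.cast_sub hΛ]; push_cast; ring
  have eD : ((D - r : ℕ) : ℝ) = (D : ℝ) - r := by
    rw [Nat.cast_sub h1]
  have h2r : ((grV I h k a a gs : ℕ) : ℝ) + (hpV I h Λ k a : ℕ) + 1 ≤ (4 * (k : ℝ) - Λ) * ((D : ℝ) - r) := by
    rw [← e4, ← eD]
    exact_mod_cast h2
  have h40 : (0 : ℝ) ≤ 4 * (k : ℝ) - Λ := by
    rw [← e4]; exact Nat.cast_nonneg _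
  -- multiply by D
  have hfin : (D : ℝ) * (∑ i ∈ Ico a k, ((k : ℝ) - i) * ∑ p ∈ PB i (i + 1), ((cnt N Hn p a).card : ℝ) +
      ∑ i ∈ Ico a k, ((k : ℝ) - i) * ∑ p ∈ PB i (i + 1), (hpw N Hn a p : ℝ)) <
      (D : ℝ) * ((4 * (k : ℝ) - Λ) * ((cnt N Hn 1 a).card : ℝ)) := by
    rw [mul_add]
    calc _ ≤ V * ((grV I h k a a gs : ℕ) : ℝ) + V * ((hpV I h Λ k a : ℕ) : ℝ) := add_le_add hup1 hup2
      _ < V * ((4 * (k : ℝ) - Λ) * ((D : ℝ) - r)) := by
          rw [← mul_add]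
          apply mul_lt_mul_of_pos_left _ hV0
          linarith
      _ = (4 * (k : ℝ) - Λ) * (V * ((D : ℝ) - r)) := by ring
      _ ≤ (4 * (k : ℝ) - Λ) * ((D : ℝ) * ((cnt N Hn 1 a).card : ℝ)) := mul_le_mul_of_nonneg_left hcnt h40
      _ = _ := by ring
  exact lt_of_mul_lt_mul_left hfin hD.le

/-- the prime factors of the elements of `cnt N H 1 a` exceed `2^a` -/
theorem cnt_prime {N Hn a m p : ℕ} (ha : 4 ≤ a) (hm : m ∈ cnt N Hn 1 a) (hp : p.Prime) (hpm : p ∣ m) :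
    2 ^ a < p := by
  unfold cnt at hm
  rw [Finset.mem_filter] at hm
  obtain ⟨_, _, hc, hq⟩ := hm
  by_contra hcon
  rw [not_lt] at hcon
  by_cases h16 : p ≤ 16
  · have h30 : p ∣ 30030 := by
      have h2 := hp.two_le
      interval_cases p <;> first | decide | (exfalso; revert hp; decide)
    have h1 : p ∣ Nat.gcd m 30030 := Nat.dvd_gcd hpm h30
    rw [hc] at h1
    exact hp.one_lt.ne' (Nat.dvd_one.mp h1)
  · apply hq p _ hpm
    rw [mem_PB]
    exact ⟨⟨by omega, hcon⟩, hp⟩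

/-- the conclusion -/
def Good (n : ℕ) : Prop :=
  ∃ m : ℕ, n ^ 2 < m ∧ m ≤ n ^ 2 + Nat.totient n ∧ ArithmeticFunction.cardFactors m ≤ 3 ∧
    ∀ p : ℕ, p.Prime → p ∣ m → n < p ^ 8

theorem good_of {n a : ℕ} (ha : 4 ≤ a) (hna : n ≤ 2 ^ (8 * a))
    (h : ∃ m ∈ cnt (n ^ 2) (Nat.totient n) 1 a, ArithmeticFunction.cardFactors m ≤ 3) : Good n := by
  obtain ⟨m, hm, hm3⟩ := h
  have hm' := hm
  unfold cnt at hm'
  rw [Finset.mem_filter, Finset.mem_Ioc] at hm'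
  refine ⟨m, hm'.1.1, hm'.1.2, hm3, fun p hp hpm => ?_⟩
  have h1 := cnt_prime ha hm hp hpm
  calc n ≤ 2 ^ (8 * a) := hna
    _ = (2 ^ a) ^ 8 := by rw [← pow_mul]; congr 1; ring
    _ < p ^ 8 := Nat.pow_lt_pow_left h1 (by norm_num)

/-- soundness of a certificate -/
theorem cert_sound (H : Hyp) (c : Cert) (hc : check c = true) (n : ℕ) (hn : 0 < n)
    (h0 : 2 ^ c.h0 ≤ Nat.totient n) (h1 : Nat.totient n < 2 ^ (c.h1 + 1)) : Good n := by
  unfold check mainIneq at hc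
  simp only [Bool.and_eq_true] at hc
  obtain ⟨c1, c2, c3, c4, c5, c6, c7, c8, c8b, c9, c10⟩ := hc
  have g1 := Nat.le_of_ble_eq_true c1
  have g2 := Nat.le_of_ble_eq_true c2
  have g3 := Nat.le_of_ble_eq_true c3
  have g4 := Nat.le_of_ble_eq_true c4
  have g5 := Nat.le_of_ble_eq_true c5
  have g6 := Nat.le_of_ble_eq_true c6
  have g8 := Nat.le_of_ble_eq_true c8b
  have g9 := Nat.le_of_ble_eq_true c9
  have g10 := Nat.le_of_ble_eq_true c10
  have hL := H.totL c.L (2 ^ (c.h1 + 1)) n hn g5 h1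
  have hN : n ^ 2 + Nat.totient n < 2 ^ (c.Λ + 1) := by
    refine lt_of_lt_of_le ?_ g6
    have a1 : Nat.totient n ≤ n := Nat.totient_le n
    have a2 : n + 1 ≤ c.L * 2 ^ (c.h1 + 1) := by
      have : c.L * Nat.totient n + c.L ≤ c.L * 2 ^ (c.h1 + 1) := by
        rw [← Nat.mul_succ]
        exact Nat.mul_le_mul_left _ h1
      have hLpos : 0 < c.L := by
        rcases Nat.eq_zero_or_pos c.L with h | h
        · rw [h] at hL; omega
        · exact h
      omega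
    calc n ^ 2 + Nat.totient n < (n + 1) ^ 2 := by nlinarith
      _ ≤ (c.L * 2 ^ (c.h1 + 1)) ^ 2 := Nat.pow_le_pow_left a2 2
      _ = c.L * c.L * 2 ^ (2 * c.h1 + 2) := by ring
  have hn8 : n ≤ 2 ^ (8 * c.a) := by
    refine le_trans hL (le_trans ?_ g8)
    exact Nat.mul_le_mul_left _ h1.le
  exact good_of g1 hn8 (core H (N := n ^ 2) (Hn := Nat.totient n) (h := c.h0) (I := IVu 4 c.a) g1 g2 g3 g4
    (IVu_ge H le_rfl g1 g2) h0 hN c7 c8 g9 g10)

end C

end Pool.Agent.Helper1.SQ
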