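import Pool.Agent.Helper1.SQ.C1b

/-!
# Project SQ: lists of certificates
-/

set_option autoImplicit false
open Finset

namespace Pool.Agent.Helper1.SQ.C

/-- the certificates are valid and cover `2^s ≤ φ(n) < 2^e` -/
def cover : ℕ → ℕ → List Cert → Bool
  | s, e, [] => Nat.beq s e
  | s, e, c :: l => Nat.beq c.h0 s && (check c && cover (c.h1 + 1) e l)

theorem cover_sound (H : Hyp) (n : ℕ) (hn : 0 < n) : ∀ (l : List Cert) (s e : ℕ), cover s e l = true →
    2 ^ s ≤ Nat.totient n → Nat.totient n < 2 ^ e → Good n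
  | [], s, e, hc, h1, h2 => by
    have : s = e := Nat.eq_of_beq_eq_true hc
    subst this
    exact absurd h2 (not_lt.mpr h1)
  | c :: l, s, e, hc, h1, h2 => by
    unfold cover at hc
    simp only [Bool.and_eq_true] at hc
    obtain ⟨g1, g2, g3⟩ := hc
    have hs : c.h0 = s := Nat.eq_of_beq_eq_true g1
    by_cases hlt : Nat.totient n < 2 ^ (c.h1 + 1)
    · exact cert_sound H c g2 n hn (by rw [hs]; exact h1) hlt
    · exact cover_sound H n hn l (c.h1 + 1) e g3 (not_lt.mp hlt) h2

end Pool.Agent.Helper1.SQ.C
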