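import Pool.Agent.Helper1.SQ.C1b

/-!
# Project SQ: the asymptotic checker, part a

Everything is expressed in units of `h/240`, `h ≥ 4800`; the dyadic point with label `X` is `2^(pt h X)`,
`pt h X = X h / 240` (floor).
-/

set_option autoImplicit false
open Finset

namespace Pool.Agent.Helper1.SQ.C2

open Pool.Agent.Helper1.SQ Pool.Agent.Helper1.SQ.C

def pt (h X : ℕ) : ℕ := X * h / 240

/-- upper bound for `D * log (Y/X)` -/
def lg (X Y : ℕ) : ℕ := sI (fun i => D / i + 1) (60 * X) (60 * Y)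

def dl (X : ℕ) : ℕ := 3 * D / (40 * X - 3) + 1

def et (X : ℕ) : ℕ := 155 * D / (2000 * X) + 1

def S2 (X Y : ℕ) : ℕ := lg X Y + dl X + et X

def x2 (X : ℕ) : ℕ := et X + (D / 100000 + 1)

def V2 (X Y : ℕ) : ℕ :=
  bif Nat.beq X Y then D
  else ((Y * D / X + 1) * (D + dl X) / D + 1) * (D + x2 X + (x2 X ^ 2 / D + 1)) / D + 1

def r2 (b a m : ℕ) : ℕ := S2 b a ^ (m + 1) * V2 b a / (D ^ (m + 1) * (m + 1).factorial) + 1

def W2 (K X Y : ℕ) : ℕ := lg X Y + dl X + et X + (D / (20 * K) + 1) - (Y - X) * D / K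

variable {h : ℕ}

theorem pt_le (h X : ℕ) : (pt h X : ℝ) ≤ X * ((h : ℝ) / 240) := by
  unfold pt
  have := @Nat.cast_div_le ℝ _ _ _ (X * h) 240
  push_cast at this
  linarith

theorem pt_gt (h X : ℕ) : (X : ℝ) * ((h : ℝ) / 240) - 1 < pt h X := by
  have h1 := div_le_up (X * h) 240
  have h2 : X * h < 240 * (X * h / 240) + 240 := by omega
  have h3 : (X : ℝ) * h < 240 * (pt h X : ℝ) + 240 := by
    unfold pt
    exact_mod_cast h2
  linarith

theorem pt_ge (hh : 4800 ≤ h) (X : ℕ) : 20 * X ≤ pt h X := by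
  unfold pt
  rw [Nat.le_div_iff_mul_le (by norm_num)]
  nlinarith

theorem pt_mono {X Y : ℕ} (hXY : X ≤ Y) : pt h X ≤ pt h Y := by
  unfold pt
  exact Nat.div_le_div_right (Nat.mul_le_mul_right h hXY)

theorem pt_add (hh : 4800 ≤ h) {X Y : ℕ} (hXY : X < Y) : pt h X + 20 ≤ pt h Y := by
  unfold pt
  have h1 : X * h + 4800 ≤ Y * h := by
    have : (X + 1) * h ≤ Y * h := Nat.mul_le_mul_right h hXY
    nlinarith
  omega

theorem log_step {i : ℕ} (hi : 1 ≤ i) : Real.log (((i + 1 : ℕ) : ℝ)) - Real.log i ≤ 1 / i := by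
  have h0 : (0 : ℝ) < i := by exact_mod_cast hi
  rw [← Real.log_div (by positivity) h0.ne']
  have e : (((i + 1 : ℕ) : ℝ)) / i = 1 + 1 / i := by
    push_cast; field_simp
  rw [e]
  have := Real.log_le_sub_one_of_pos (show (0 : ℝ) < 1 + 1 / i by positivity)
  linarith

theorem log_le_hr {i j : ℕ} (hi : 1 ≤ i) (hij : i ≤ j) : Real.log j - Real.log i ≤ hr i j := by
  induction j, hij using Nat.le_induction with
  | base => simp [hr]
  | succ j hj ih =>
    have h1 := log_step (i := j) (by omega)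
    unfold hr at ih ⊢
    rw [Finset.sum_Ico_succ_top hj]
    linarith

theorem lg_ge {X Y : ℕ} (hX : 1 ≤ X) (hXY : X ≤ Y) : (D : ℝ) * Real.log ((Y : ℝ) / X) ≤ lg X Y := by
  have h1 := hs_ge (60 * X) (60 * Y)
  have h2 := log_le_hr (i := 60 * X) (j := 60 * Y) (by omega) (by omega)
  have hX0 : (0 : ℝ) < X := by exact_mod_cast hX
  have hY0 : (0 : ℝ) < Y := by exact_mod_cast (by omega : 0 < Y)
  have e : Real.log ((60 * Y : ℕ) : ℝ) - Real.log ((60 * X : ℕ) : ℝ) = Real.log ((Y : ℝ) / X) := by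
    rw [Real.log_div hY0.ne' hX0.ne']
    push_cast
    rw [Real.log_mul (by norm_num) hY0.ne', Real.log_mul (by norm_num) hX0.ne']
    ring
  rw [e] at h2
  have h3 : lg X Y = hs (60 * X) (60 * Y) := rfl
  rw [h3]
  exact (mul_le_mul_of_nonneg_left h2 D_pos.le).trans h1

theorem dl_ge (hh : 4800 ≤ h) {X : ℕ} (hX : 1 ≤ X) :
    (D : ℝ) * (3 / (2 * X * ((h : ℝ) / 240) - 3)) ≤ dl X := by
  have h1 := div_le_up (3 * D) (40 * X - 3)
  unfold dl
  refine le_trans ?_ h1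
  have e : ((40 * X - 3 : ℕ) : ℝ) = 40 * X - 3 := by
    rw [Nat.cast_sub (by omega)]; push_cast; ring
  rw [e]
  push_cast
  have hX0 : (1 : ℝ) ≤ X := by exact_mod_cast hX
  have ht : (20 : ℝ) ≤ (h : ℝ) / 240 := by
    have : (4800 : ℝ) ≤ h := by exact_mod_cast hh
    linarith
  have h2 : 40 * (X : ℝ) - 3 ≤ 2 * X * ((h : ℝ) / 240) - 3 := by nlinarith
  have h3 : 3 / (2 * (X : ℝ) * ((h : ℝ) / 240) - 3) ≤ 3 / (40 * X - 3) :=
    div_le_div_of_nonneg_left (by norm_num) (by linarith) h2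
  calc (D : ℝ) * (3 / (2 * X * ((h : ℝ) / 240) - 3)) ≤ D * (3 / (40 * X - 3)) :=
        mul_le_mul_of_nonneg_left h3 D_pos.le
    _ = 3 * D / (40 * X - 3) := by ring

theorem et_ge (hh : 4800 ≤ h) {X : ℕ} (hX : 1 ≤ X) : (D : ℝ) * (1.55 / (pt h X : ℝ)) ≤ et X := by
  have h1 := div_le_up (155 * D) (2000 * X)
  unfold et
  refine le_trans ?_ h1
  have h2 : (20 : ℝ) * X ≤ pt h X := by exact_mod_cast pt_ge hh X
  have hX0 : (1 : ℝ) ≤ X := by exact_mod_cast hX
  have h3 : (1.55 : ℝ) / (pt h X : ℝ) ≤ 1.55 / (20 * X) :=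
    div_le_div_of_nonneg_left (by norm_num) (by positivity) h2
  calc (D : ℝ) * (1.55 / (pt h X : ℝ)) ≤ D * (1.55 / (20 * X)) := mul_le_mul_of_nonneg_left h3 D_pos.le
    _ = _ := by push_cast; field_simp; ring

/-- the ratio bound -/
theorem ratio_le (hh : 4800 ≤ h) {X Y : ℕ} (hX : 1 ≤ X) (hXY : X ≤ Y) :
    (2 * (pt h Y : ℝ) - 1) / (2 * pt h X - 1) ≤
      (Y : ℝ) / X * (1 + 3 / (2 * X * ((h : ℝ) / 240) - 3)) := by
  set t : ℝ := (h : ℝ) / 240 with ht
  have ht20 : (20 : ℝ) ≤ t := by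
    have : (4800 : ℝ) ≤ h := by exact_mod_cast hh
    rw [ht]; linarith
  have hX0 : (1 : ℝ) ≤ X := by exact_mod_cast hX
  have hY0 : (X : ℝ) ≤ Y := by exact_mod_cast hXY
  have h1 := pt_le h Y
  have h2 := pt_gt h X
  rw [← ht] at h1 h2
  have hXt : (20 : ℝ) ≤ X * t := by nlinarith
  have h3 : (0 : ℝ) < 2 * X * t - 3 := by nlinarith
  have h4 : (0 : ℝ) < 2 * (pt h X : ℝ) - 1 := by nlinarith
  have h5 : (Y : ℝ) / X * (1 + 3 / (2 * X * t - 3)) = (2 * Y * t) / (2 * X * t - 3) := by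
    have hX' : (X : ℝ) ≠ 0 := by positivity
    have hw : ∀ w : ℝ, 0 < w → w = 2 * X * t - 3 →
        (Y : ℝ) / X * (1 + 3 / w) = (2 * Y * t) / w := by
      intro w hw0 hw1
      have e : (2 : ℝ) * Y * t = Y / X * (w + 3) := by
        rw [hw1]; field_simp; ring
      rw [e]
      field_simp
    exact hw _ h3 rfl
  rw [h5, div_le_div_iff₀ h4 h3]
  have h6 : 2 * (X : ℝ) * t - 3 < 2 * pt h X - 1 := by linarith
  have hYt : 0 ≤ 2 * (Y : ℝ) * t := by positivity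
  nlinarith

theorem S2_ge (hL : HrLog) (hh : 4800 ≤ h) {X Y : ℕ} (hX : 1 ≤ X) (hXY : X ≤ Y) :
    (D : ℝ) * (hr (pt h X) (pt h Y) + 1.55 / (pt h X : ℝ)) ≤ S2 X Y ∧
    (D : ℝ) * hr (pt h X) (pt h Y) ≤ lg X Y + dl X := by
  have hp := pt_ge hh X
  have hpm := pt_mono (h := h) hXY
  have h1 := hL (pt h X) (pt h Y) (by omega) hpm
  have h2 := ratio_le hh hX hXY
  set t : ℝ := (h : ℝ) / 240 with ht
  have ht20 : (20 : ℝ) ≤ t := by
    have : (4800 : ℝ) ≤ h := by exact_mod_cast hh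
    rw [ht]; linarith
  have hX0 : (1 : ℝ) ≤ X := by exact_mod_cast hX
  have hY0 : (X : ℝ) ≤ Y := by exact_mod_cast hXY
  have hXt : (20 : ℝ) ≤ X * t := by nlinarith
  have h3 : (0 : ℝ) < 2 * X * t - 3 := by nlinarith
  have hpr : (20 : ℝ) ≤ (pt h X : ℝ) := by
    have : 20 ≤ pt h X := by omega
    exact_mod_cast this
  have hpr2 : (pt h X : ℝ) ≤ (pt h Y : ℝ) := by exact_mod_cast hpm
  have hδ : (0 : ℝ) ≤ 3 / (2 * X * t - 3) := by positivity
  have h4 : Real.log ((2 * (pt h Y : ℝ) - 1) / (2 * pt h X - 1)) ≤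
      Real.log ((Y : ℝ) / X) + 3 / (2 * X * t - 3) := by
    have h5 : (0 : ℝ) < (2 * (pt h Y : ℝ) - 1) / (2 * pt h X - 1) := by
      apply div_pos <;> linarith
    refine (Real.log_le_log h5 h2).trans ?_
    have hYX : (0 : ℝ) < (Y : ℝ) / X := by
      apply div_pos <;> linarith
    rw [Real.log_mul hYX.ne' (by positivity)]
    have h6 := Real.log_le_sub_one_of_pos (show (0 : ℝ) < 1 + 3 / (2 * X * t - 3) by positivity)
    linarith
  have h7 := lg_ge hX hXY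
  have h8 := dl_ge hh hX
  rw [← ht] at h8
  have h9 := et_ge hh hX
  have h10 : (D : ℝ) * hr (pt h X) (pt h Y) ≤ lg X Y + dl X := by
    have := mul_le_mul_of_nonneg_left (h1.trans h4) D_pos.le
    rw [mul_add] at this
    linarith
  refine ⟨?_, h10⟩
  unfold S2
  rw [mul_add, Nat.cast_add, Nat.cast_add]
  linarith

theorem sm2_ge (H : Hyp) (hL : HrLog) (hh : 4800 ≤ h) {X Y : ℕ} (hX : 1 ≤ X) (hXY : X ≤ Y) :
    (D : ℝ) * sm (pt h X) (pt h Y) ≤ S2 X Y := by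
  have hp := pt_ge hh X
  have h1 := H.sumS (pt h X) (pt h Y) (by omega) (pt_mono hXY)
  exact (mul_le_mul_of_nonneg_left h1 D_pos.le).trans (S2_ge hL hh hX hXY).1

theorem W2_ge (H : Hyp) (hL : HrLog) (hh : 4800 ≤ h) {K X Y : ℕ} (hX : 1 ≤ X) (hXY : X < Y) (hYK : Y ≤ K) :
    (D : ℝ) * ∑ i ∈ Ico (pt h X) (pt h Y), ((pt h K : ℝ) - i) * sm i (i + 1) ≤ (pt h K : ℝ) * W2 K X Y := by
  have hp := pt_ge hh X
  have hpm := pt_mono (h := h) hXY.le
  have hpK := pt_mono (h := h) hYK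
  have h1 := H.sumW (pt h X) (pt h Y) (pt h K) (by omega) hpm hpK
  have h2 := (S2_ge hL hh hX hXY.le).2
  have h3 := et_ge hh hX
  set t : ℝ := (h : ℝ) / 240 with ht
  have ht20 : (20 : ℝ) ≤ t := by
    have : (4800 : ℝ) ≤ h := by exact_mod_cast hh
    rw [ht]; linarith
  have hX0 : (1 : ℝ) ≤ X := by exact_mod_cast hX
  have hY0 : (X : ℝ) + 1 ≤ Y := by exact_mod_cast hXY
  have hK0 : (Y : ℝ) ≤ K := by exact_mod_cast hYK
  set k : ℝ := (pt h K : ℝ) with hk
  set x : ℝ := (pt h X : ℝ) with hx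
  set y : ℝ := (pt h Y : ℝ) with hy
  have hx20 : (20 : ℝ) ≤ x := by
    have : 20 ≤ pt h X := by omega
    rw [hx]; exact_mod_cast this
  have hxy : x ≤ y := by rw [hx, hy]; exact_mod_cast hpm
  have hyk : y ≤ k := by rw [hy, hk]; exact_mod_cast hpK
  have hk0 : 0 < k := by linarith
  -- (y - x)/k ≥ (Y-X)/K - 1/(20 K)
  have b1 : x ≤ X * t := by rw [hx]; exact pt_le h X
  have b2 : (Y : ℝ) * t - 1 < y := by rw [hy]; exact pt_gt h Y
  have b3 : k ≤ K * t := by rw [hk]; exact pt_le h K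
  have hKp : (0 : ℝ) < K := by linarith
  have b4 : ((Y : ℝ) - X) / K - 1 / (20 * K) ≤ (y - x) / k := by
    have c1 : ((Y : ℝ) - X) * t - 1 ≤ y - x := by nlinarith
    have c2 : 0 ≤ ((Y : ℝ) - X) * t - 1 := by nlinarith
    have c3 : (((Y : ℝ) - X) * t - 1) / (K * t) ≤ (y - x) / k :=
      div_le_div₀ (by linarith) c1 hk0 b3
    refine le_trans ?_ c3
    have c4 : (((Y : ℝ) - X) * t - 1) / (K * t) = ((Y : ℝ) - X) / K - 1 / (t * K) := by
      field_simp
    rw [c4]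
    have c5 : 1 / (t * (K : ℝ)) ≤ 1 / (20 * K) :=
      one_div_le_one_div_of_le (by positivity) (by nlinarith)
    linarith
  -- combine
  have d1 : (D : ℝ) * ∑ i ∈ Ico (pt h X) (pt h Y), (k - i) * sm i (i + 1) ≤
      k * (D * hr (pt h X) (pt h Y) - D * ((y - x) / k) + D * (1.55 / x)) := by
    have e1 := mul_le_mul_of_nonneg_left h1 D_pos.le
    refine e1.trans ?_
    have e2 : k * (D * hr (pt h X) (pt h Y) - D * ((y - x) / k) + D * (1.55 / x)) =
        D * (k * hr (pt h X) (pt h Y) - (y - x) + 1.55 * k / x) := by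
      field_simp
    rw [e2]
    apply mul_le_mul_of_nonneg_left _ D_pos.le
    have e3 : 1.55 * (k - x) / x ≤ 1.55 * k / x := by
      apply div_le_div_of_nonneg_right _ (by linarith)
      linarith
    linarith
  refine d1.trans ?_
  apply mul_le_mul_of_nonneg_left _ hk0.le
  have e5 := div_le_up D (20 * K)
  have e6 := @Nat.cast_div_le ℝ _ _ _ ((Y - X) * D) K
  have e7 : (((Y - X) * D : ℕ) : ℝ) = ((Y : ℝ) - X) * D := by
    rw [Nat.cast_mul, Nat.cast_sub hXY.le]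
  rw [e7] at e6
  have e8 : (((lg X Y + dl X + et X + (D / (20 * K) + 1) : ℕ)) : ℝ) - (((Y - X) * D / K : ℕ) : ℝ) ≤ W2 K X Y := by
    unfold W2
    rw [sub_le_iff_le_add]
    exact_mod_cast le_tsub_add
  refine le_trans ?_ e8
  rw [Nat.cast_add, Nat.cast_add, Nat.cast_add]
  have e9 : (D : ℝ) / ((20 * K : ℕ) : ℝ) = D * (1 / (20 * K)) := by push_cast; ring
  rw [e9] at e5
  have e10 : ((Y : ℝ) - X) * D / K = D * (((Y : ℝ) - X) / K) := by ring
  rw [e10] at e6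
  have e11 := mul_le_mul_of_nonneg_left b4 D_pos.le
  rw [mul_sub] at e11
  linarith

/-- crude bound for `sm` between labels `≤ 240` -/
theorem sm_crude (H : Hyp) (hL : HrLog) (hh : 4800 ≤ h) {X Y : ℕ} (hX : 1 ≤ X) (hXY : X ≤ Y) (hY : Y ≤ 240) :
    sm (pt h X) (pt h Y) ≤ 10 := by
  have hp := pt_ge hh X
  have hpm := pt_mono (h := h) hXY
  have h0 := H.sumS (pt h X) (pt h Y) (by omega) hpm
  have h1 := hL (pt h X) (pt h Y) (by omega) hpm
  have h2 := ratio_le hh hX hXY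
  set t : ℝ := (h : ℝ) / 240 with ht
  have ht20 : (20 : ℝ) ≤ t := by
    have : (4800 : ℝ) ≤ h := by exact_mod_cast hh
    rw [ht]; linarith
  have hX0 : (1 : ℝ) ≤ X := by exact_mod_cast hX
  have hY0 : (X : ℝ) ≤ Y := by exact_mod_cast hXY
  have hY1 : (Y : ℝ) ≤ 240 := by exact_mod_cast hY
  have hXt : (20 : ℝ) ≤ X * t := by nlinarith
  have hpr : (20 : ℝ) ≤ (pt h X : ℝ) := by
    have : 20 ≤ pt h X := by omega
    exact_mod_cast this
  have hpr2 : (pt h X : ℝ) ≤ (pt h Y : ℝ) := by exact_mod_cast hpm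
  have h3 : (1.55 : ℝ) / (pt h X : ℝ) ≤ 1 := by
    rw [div_le_one (by linarith)]; linarith
  have h4 : 3 / (2 * (X : ℝ) * t - 3) ≤ 1 := by
    rw [div_le_one (by nlinarith)]; nlinarith
  have h5 : (Y : ℝ) / X ≤ 240 := by
    rw [div_le_iff₀ (by linarith)]; nlinarith
  have h6 : (2 * (pt h Y : ℝ) - 1) / (2 * pt h X - 1) ≤ 512 := by
    refine h2.trans ?_
    have hYX : (0 : ℝ) ≤ (Y : ℝ) / X := by positivity
    nlinarith
  have h7 : Real.log ((2 * (pt h Y : ℝ) - 1) / (2 * pt h X - 1)) ≤ 9 := by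
    have h8 : (0 : ℝ) < (2 * (pt h Y : ℝ) - 1) / (2 * pt h X - 1) := by
      apply div_pos <;> linarith
    have h9 := Real.log_le_log h8 h6
    have h10 : Real.log (512 : ℝ) = 9 * Real.log 2 := by
      rw [show (512 : ℝ) = 2 ^ 9 by norm_num, Real.log_pow]; norm_num
    have := Real.log_two_lt_d9
    rw [h10] at h9
    linarith
  linarith

theorem V2_ge (H : Hyp) (hL : HrLog) (hh : 4800 ≤ h) {X Y : ℕ} (hX : 1 ≤ X) (hXY : X ≤ Y) (hY : Y ≤ 240) :
    (D : ℝ) / vp (pt h X) (pt h Y) ≤ V2 X Y := by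
  unfold V2
  by_cases h0 : X = Y
  · subst h0
    simp [vp_self]
  · have hb : Nat.beq X Y = false := by
      rw [Bool.eq_false_iff]
      intro hc
      exact h0 (Nat.eq_of_beq_eq_true hc)
    rw [hb, cond_false]
    have hp := pt_ge hh X
    have hpm := pt_mono (h := h) hXY
    have hD := D_pos
    have hX0 : (1 : ℝ) ≤ X := by exact_mod_cast hX
    have hY0 : (X : ℝ) ≤ Y := by exact_mod_cast hXY
    have hpr : (20 : ℝ) ≤ (pt h X : ℝ) := by
      have : 20 ≤ pt h X := by omega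
      exact_mod_cast this
    have hpr2 : (pt h X : ℝ) ≤ (pt h Y : ℝ) := by exact_mod_cast hpm
    have hsm := sm_crude H hL hh hX hXY hY
    have hsm0 := sm_nonneg (pt h X) (pt h Y)
    set x : ℝ := 1.55 / (pt h X : ℝ) + sm (pt h X) (pt h Y) / 2 ^ (pt h X) with hx
    have hpow : (1000000 : ℝ) ≤ 2 ^ (pt h X) := by
      calc (1000000 : ℝ) ≤ 2 ^ 20 := by norm_num
        _ ≤ 2 ^ (pt h X) := pow_le_pow_right₀ (by norm_num) (by omega)
    have hq : sm (pt h X) (pt h Y) / 2 ^ (pt h X) ≤ 1 / 100000 := by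
      rw [div_le_div_iff₀ (by positivity) (by norm_num)]
      linarith
    have hq0 : 0 ≤ sm (pt h X) (pt h Y) / 2 ^ (pt h X) := by positivity
    have he : (1.55 : ℝ) / (pt h X : ℝ) ≤ 1.55 / 20 :=
      div_le_div_of_nonneg_left (by norm_num) (by norm_num) hpr
    have hx1 : x ≤ 1 := by
      rw [hx]; norm_num at he hq ⊢; linarith
    have hx0 : 0 ≤ x := by rw [hx]; positivity
    have hV := H.sumV (pt h X) (pt h Y) (by omega) hpm x le_rfl hx1
    have hxD : (D : ℝ) * x ≤ x2 X := by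
      unfold x2
      rw [hx, mul_add, Nat.cast_add]
      have e1 := et_ge hh hX
      have e2 := div_le_up D 100000
      have e3 : (D : ℝ) / ((100000 : ℕ) : ℝ) = D * (1 / 100000) := by push_cast; ring
      rw [e3] at e2
      have e4 := mul_le_mul_of_nonneg_left hq hD.le
      linarith
    have hr := ratio_le hh hX hXY
    have hdl := dl_ge hh hX
    set t : ℝ := (h : ℝ) / 240 with ht
    have ht20 : (20 : ℝ) ≤ t := by
      have : (4800 : ℝ) ≤ h := by exact_mod_cast hh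
      rw [ht]; linarith
    have hXt : (20 : ℝ) ≤ X * t := by nlinarith
    have hδ : (0 : ℝ) ≤ 3 / (2 * X * t - 3) := by
      apply div_nonneg (by norm_num); nlinarith
    -- first factor
    have c1 := div_le_up (Y * D) X
    have c2 : (D : ℝ) * ((Y : ℝ) / X) ≤ ((Y * D / X + 1 : ℕ) : ℝ) := by
      refine le_trans (le_of_eq ?_) c1
      push_cast; ring
    have c3 : (D : ℝ) * (1 + 3 / (2 * X * t - 3)) ≤ ((D + dl X : ℕ) : ℝ) := by
      rw [Nat.cast_add, mul_add]; linarith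
    have c4 := div_le_up ((Y * D / X + 1) * (D + dl X)) D
    have c5 : (D : ℝ) * ((2 * (pt h Y : ℝ) - 1) / (2 * pt h X - 1)) ≤
        (((Y * D / X + 1) * (D + dl X) / D + 1 : ℕ) : ℝ) := by
      refine le_trans ?_ c4
      rw [le_div_iff₀ hD]
      have e1 := mul_le_mul_of_nonneg_left hr hD.le
      calc (D : ℝ) * ((2 * (pt h Y : ℝ) - 1) / (2 * pt h X - 1)) * D ≤
            (D * ((Y : ℝ) / X * (1 + 3 / (2 * X * t - 3)))) * D := mul_le_mul_of_nonneg_right e1 hD.le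
        _ = (D * ((Y : ℝ) / X)) * (D * (1 + 3 / (2 * X * t - 3))) := by ring
        _ ≤ ((Y * D / X + 1 : ℕ) : ℝ) * ((D + dl X : ℕ) : ℝ) := by
            apply mul_le_mul c2 c3 _ (Nat.cast_nonneg _)
            positivity
        _ = _ := by rw [Nat.cast_mul]
    have c6 := div_le_up (x2 X ^ 2) D
    have c7 : (D : ℝ) * (1 + x + x ^ 2) ≤ ((D + x2 X + (x2 X ^ 2 / D + 1) : ℕ) : ℝ) := by
      have d1 : (D : ℝ) * x ^ 2 ≤ ((x2 X ^ 2 / D + 1 : ℕ) : ℝ) := by
        refine le_trans ?_ c6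
        rw [le_div_iff₀ hD]
        push_cast
        calc (D : ℝ) * x ^ 2 * D = (D * x) ^ 2 := by ring
          _ ≤ (x2 X : ℝ) ^ 2 := pow_le_pow_left₀ (by positivity) hxD 2
      rw [Nat.cast_add, Nat.cast_add]
      have d2 : (D : ℝ) * (1 + x + x ^ 2) = D + D * x + D * x ^ 2 := by ring
      rw [d2]
      linarith
    have c8 := div_le_up (((Y * D / X + 1) * (D + dl X) / D + 1) * (D + x2 X + (x2 X ^ 2 / D + 1))) D
    refine le_trans ?_ c8
    rw [le_div_iff₀ hD]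
    calc (D : ℝ) / vp (pt h X) (pt h Y) * D = D * D * (1 / vp (pt h X) (pt h Y)) := by ring
      _ ≤ D * D * ((2 * (pt h Y : ℝ) - 1) / (2 * pt h X - 1) * (1 + x + x ^ 2)) :=
          mul_le_mul_of_nonneg_left hV (by positivity)
      _ = (D * ((2 * (pt h Y : ℝ) - 1) / (2 * pt h X - 1))) * (D * (1 + x + x ^ 2)) := by ring
      _ ≤ (((Y * D / X + 1) * (D + dl X) / D + 1 : ℕ) : ℝ) * ((D + x2 X + (x2 X ^ 2 / D + 1) : ℕ) : ℝ) := by
          apply mul_le_mul c5 c7 _ (Nat.cast_nonneg _)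
          positivity
      _ = _ := by rw [Nat.cast_mul]

theorem r2_ge (H : Hyp) (hL : HrLog) (hh : 4800 ≤ h) {b a m : ℕ} (hb : 1 ≤ b) (hba : b ≤ a) (ha : a ≤ 240) :
    (D : ℝ) * rr (pt h b) (pt h a) m ≤ r2 b a m := by
  have hS := sm2_ge H hL hh hb hba
  have hI := V2_ge H hL hh hb hba ha
  have hD := D_pos
  have hv := vp_pos (pt h b) (pt h a)
  have a1 := div_le_up (S2 b a ^ (m + 1) * V2 b a) (D ^ (m + 1) * (m + 1).factorial)
  unfold r2 rr
  refine le_trans ?_ a1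
  have hf : (0 : ℝ) < ((m + 1).factorial : ℝ) := by exact_mod_cast Nat.factorial_pos _
  rw [Nat.cast_mul, Nat.cast_mul, Nat.cast_pow, Nat.cast_pow, le_div_iff₀ (by positivity)]
  calc (D : ℝ) * (sm (pt h b) (pt h a) ^ (m + 1) / (((m + 1).factorial : ℝ) * vp (pt h b) (pt h a))) *
        ((D : ℝ) ^ (m + 1) * ((m + 1).factorial : ℝ))
      = ((D : ℝ) * sm (pt h b) (pt h a)) ^ (m + 1) * (D / vp (pt h b) (pt h a)) := by
        rw [mul_pow]
        field_simp
    _ ≤ (S2 b a : ℝ) ^ (m + 1) * (V2 b a : ℝ) := by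
        apply mul_le_mul _ hI (by positivity) (by positivity)
        exact pow_le_pow_left₀ (mul_nonneg hD.le (sm_nonneg _ _)) hS _

end Pool.Agent.Helper1.SQ.C2
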