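import Pool.Agent.Helper1.SQ.C2t

/-!
# Project SQ: the asymptotic checker, part b (chains, groups, soundness)
-/

set_option autoImplicit false
open Finset

namespace Pool.Agent.Helper1.SQ.C2

open Pool.Agent.Helper1.SQ Pool.Agent.Helper1.SQ.C

def chOK2 : ℕ → List (ℕ × ℕ) → Bool
  | _, [] => true
  | a, x :: l => Nat.ble 1 x.1 && (Nat.ble (x.1 + 1) a && (Nat.beq (x.2 % 2) 0 && chOK2 x.1 l))

def chP2 : ℕ → List (ℕ × ℕ) → ℕ
  | _, [] => 1005500000
  | a, x :: l => chP2 x.1 l * (D + r2 x.1 a x.2) / D + 1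

def chR2 : ℕ → List (ℕ × ℕ) → ℕ
  | _, [] => 5400000
  | a, x :: l => chR2 x.1 l + r2 x.1 a x.2

def lev2 : ℕ → List (ℕ × ℕ) → ℕ
  | a, [] => 21 * a
  | a, x :: l => 2 * x.2 * a + lev2 x.1 l

variable {h : ℕ}

theorem pt_240 (h X : ℕ) : 240 * pt h X ≤ X * h := by
  unfold pt
  exact Nat.mul_div_le _ _

theorem chain2_sound (H : Hyp) (hL : HrLog) (hh : 4800 ≤ h) : ∀ (l : List (ℕ × ℕ)) (a : ℕ), 1 ≤ a → a ≤ 240 →
    chOK2 a l = true →
    ∃ P R E M : ℝ, Ch (pt h a) P R E M ∧ (D : ℝ) * P ≤ chP2 a l ∧ (D : ℝ) * R ≤ chR2 a l ∧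
      E ^ 480 ≤ 2 ^ (lev2 a l * h) ∧ M ≤ 2 ^ (pt h a + 1)
  | [], a, ha1, ha, _ => by
    have hp := pt_ge hh a
    obtain ⟨P, R, E, M, hc, hP, hR, hE, hM⟩ := tail H hL (a := pt h a) (by omega)
    obtain ⟨p0, r0, e0, m0⟩ := Ch_nonneg hc
    refine ⟨P, R, E, M, hc, ?_, ?_, ?_, hM⟩
    · unfold chP2
      rw [D_val]; push_cast; linarith
    · unfold chR2
      rw [D_val]; push_cast; linarith
    · unfold lev2
      calc E ^ 480 = (E ^ 2) ^ 240 := by rw [← pow_mul]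
        _ ≤ (2 ^ (21 * pt h a)) ^ 240 := pow_le_pow_left₀ (by positivity) hE _
        _ = 2 ^ (21 * pt h a * 240) := by rw [← pow_mul]
        _ ≤ 2 ^ (21 * a * h) := by
            apply pow_le_pow_right₀ (by norm_num)
            have := pt_240 h a
            nlinarith
  | x :: l, a, ha1, ha, hc => by
    obtain ⟨b, m⟩ := x
    unfold chOK2 at hc
    simp only [Bool.and_eq_true] at hc
    obtain ⟨h1, h2, h3, h4⟩ := hc
    have hb : 1 ≤ b := Nat.le_of_ble_eq_true h1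
    have hba : b < a := Nat.le_of_ble_eq_true h2
    have hm : Even m := Nat.even_iff.mpr (Nat.eq_of_beq_eq_true h3)
    obtain ⟨P, R, E, M, hc, hP, hR, hE, hM⟩ := chain2_sound H hL hh l b hb (by omega) h4
    obtain ⟨p0, r0, e0, m0⟩ := Ch_nonneg hc
    have hrr := r2_ge H hL hh (m := m) hb hba.le ha
    have hr0 := rr_nonneg (pt h b) (pt h a) m
    have hpt : pt h b < pt h a := by have := pt_add hh hba; omega
    have hcd := card_real hpt.le
    have hc0 : (0 : ℝ) ≤ ((PB (pt h b) (pt h a)).card : ℝ) := Nat.cast_nonneg _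
    refine ⟨_, _, _, _, Ch.step (pt h a) m hc hpt hm, ?_, ?_, ?_, ?_⟩
    · unfold chP2
      have h5 := div_le_up (chP2 b l * (D + r2 b a m)) D
      refine le_trans ?_ h5
      rw [le_div_iff₀ D_pos]
      calc (D : ℝ) * (P * (1 + rr (pt h b) (pt h a) m)) * D = (D * P) * (D + D * rr (pt h b) (pt h a) m) := by
            ring
        _ ≤ (chP2 b l : ℝ) * ((D : ℝ) + r2 b a m) := by
            apply mul_le_mul hP (by linarith) _ (Nat.cast_nonneg _)
            have := D_pos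
            positivity
        _ = _ := by push_cast; ring
    · unfold chR2
      rw [Nat.cast_add, mul_add]
      exact add_le_add hR hrr
    · unfold lev2
      calc (E * (((PB (pt h b) (pt h a)).card : ℝ) + 1) ^ m) ^ 480 =
            E ^ 480 * ((((PB (pt h b) (pt h a)).card : ℝ) + 1) ^ m) ^ 480 := by rw [mul_pow]
        _ ≤ 2 ^ (lev2 b l * h) * ((2 ^ (pt h a)) ^ m) ^ 480 := by
            apply mul_le_mul hE _ (by positivity) (by positivity)
            apply pow_le_pow_left₀ (by positivity)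
            exact pow_le_pow_left₀ (by positivity) hcd m
        _ = 2 ^ (lev2 b l * h + pt h a * m * 480) := by
            rw [pow_add, pow_mul (2 : ℝ) (pt h a * m) 480, pow_mul (2 : ℝ) (pt h a) m]
        _ ≤ 2 ^ ((2 * m * a + lev2 b l) * h) := by
            apply pow_le_pow_right₀ (by norm_num)
            have h6 := pt_240 h a
            have h7 : 240 * pt h a * (2 * m) ≤ a * h * (2 * m) := Nat.mul_le_mul_right _ h6
            nlinarith
    · have h1 := card_le_pow hpt.le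
      have h2 : (((PB (pt h b) (pt h a)).card : ℝ)) + 2 ^ (pt h b) ≤ 2 ^ (pt h a) := by exact_mod_cast h1
      have h3 : 2 ^ (pt h b) + 1 ≤ 2 ^ (pt h a) := by
        have : 2 ^ (pt h b) < 2 ^ (pt h a) := Nat.pow_lt_pow_right (by norm_num) hpt
        omega
      have h3' : (2 : ℝ) ^ (pt h b) + 1 ≤ 2 ^ (pt h a) := by exact_mod_cast h3
      rw [pow_succ] at hM ⊢
      linarith

/-! ### crude estimates -/

theorem pow_big : ∀ s : ℕ, 40 ≤ s → 122600000 * (s + 1) ^ 2 ≤ 2 ^ s := by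
  intro s hs
  induction s, hs using Nat.le_induction with
  | base => norm_num
  | succ s hs ih =>
    have h1 : (s + 1 + 1) ^ 2 ≤ 2 * (s + 1) ^ 2 := by nlinarith
    have h2 : (2 : ℕ) ^ (s + 1) = 2 ^ s * 2 := pow_succ 2 s
    rw [h2]
    linarith

theorem inv_vp_exp (a : ℕ) : 1 / vp 4 a ≤ Real.exp (2 * sm 4 a) := by
  unfold vp sm
  rw [Finset.mul_sum, Real.exp_sum, one_div, ← Finset.prod_inv_distrib]
  apply Finset.prod_le_prod
  · intro p hp
    rw [mem_PB] at hp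
    have h2 : (2 : ℝ) ≤ p := by exact_mod_cast hp.2.two_le
    have : (1 : ℝ) / p ≤ 1 / 2 := one_div_le_one_div_of_le (by norm_num) h2
    exact inv_nonneg.mpr (by linarith)
  · intro p hp
    rw [mem_PB] at hp
    have h2 : (2 : ℝ) ≤ p := by exact_mod_cast hp.2.two_le
    have hx : (1 : ℝ) / p ≤ 1 / 2 := one_div_le_one_div_of_le (by norm_num) h2
    have hx0 : (0 : ℝ) ≤ 1 / p := by positivity
    set x : ℝ := 1 / p with hxd
    have h3 : (0 : ℝ) < 1 - x := by linarith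
    have h4 : (1 - x)⁻¹ - 1 ≤ 2 * x := by
      rw [inv_eq_one_div, div_sub_one h3.ne', div_le_iff₀ h3]
      nlinarith
    have h5 := Real.add_one_le_exp (2 * x)
    linarith

theorem crudeIV (H : Hyp) (hL : HrLog) {a : ℕ} (ha : 13 ≤ a) : 1 / vp 4 a ≤ (a : ℝ) ^ 2 := by
  refine (inv_vp_exp a).trans ?_
  have h1 := Su_ge H (le_refl 4) (by norm_num : 4 ≤ 13)
  have h1' : Su 4 13 ≤ 1117000000 := by decide +kernel
  have h1r : (Su 4 13 : ℝ) ≤ 1117000000 := by exact_mod_cast h1'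
  rw [D_val] at h1
  have h2 := H.sumS 13 a le_rfl ha
  have h3 := hL 13 a (by norm_num) ha
  have har : (13 : ℝ) ≤ a := by exact_mod_cast ha
  have h4 : sm 4 a ≤ 1.25 + Real.log ((2 * (a : ℝ) - 1) / 25) := by
    rw [sm_add (by norm_num : 4 ≤ 13) ha]
    have e : (2 * (a : ℝ) - 1) / (2 * ((13 : ℕ) : ℝ) - 1) = (2 * (a : ℝ) - 1) / 25 := by norm_num
    rw [e] at h3
    norm_num at h1 h2 h3 ⊢
    linarith
  have hq : (0 : ℝ) < (2 * (a : ℝ) - 1) / 25 := by
    apply div_pos <;> linarith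
  calc Real.exp (2 * sm 4 a) ≤ Real.exp (2.5 + 2 * Real.log ((2 * (a : ℝ) - 1) / 25)) :=
        Real.exp_le_exp.mpr (by linarith)
    _ = Real.exp 2.5 * ((2 * (a : ℝ) - 1) / 25) ^ 2 := by
        rw [Real.exp_add]
        congr 1
        rw [show 2 * Real.log ((2 * (a : ℝ) - 1) / 25) = Real.log ((2 * (a : ℝ) - 1) / 25) * 2 by ring,
          Real.exp_mul, Real.exp_log hq]
        norm_num
    _ ≤ 30 * ((2 * (a : ℝ) - 1) / 25) ^ 2 := by
        apply mul_le_mul_of_nonneg_right _ (by positivity)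
        have h5 := Real.exp_one_lt_d9
        have h6 : Real.exp 2.5 ≤ Real.exp 1 ^ 3 := by
          rw [← Real.exp_nat_mul]
          exact Real.exp_le_exp.mpr (by norm_num)
        calc Real.exp 2.5 ≤ Real.exp 1 ^ 3 := h6
          _ ≤ 2.7182818286 ^ 3 := pow_le_pow_left₀ (Real.exp_pos _).le h5.le 3
          _ ≤ 30 := by norm_num
    _ ≤ (a : ℝ) ^ 2 := by
        nlinarith

/-- standing facts about `s = h / 120` -/
theorem s_facts (hh : 4800 ≤ h) : 40 ≤ h / 120 ∧ h ≤ 120 * (h / 120 + 1) ∧ 120 * (h / 120) ≤ h := by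
  refine ⟨?_, ?_, ?_⟩ <;> omega

theorem vp_low (H : Hyp) (hL : HrLog) (hh : 4800 ≤ h) {A : ℕ} (hA1 : 1 ≤ A) (hA : A ≤ 34) :
    417084 / vp 4 (pt h A) ≤ 2 ^ (h / 120) := by
  have hp := pt_ge hh A
  have h1 := crudeIV H hL (a := pt h A) (by omega)
  obtain ⟨s1, s2, s3⟩ := s_facts hh
  have h2 := pow_big (h / 120) s1
  have h3 : 7 * pt h A ≤ h := by
    have := pt_240 h A
    have h4 : A * h ≤ 34 * h := Nat.mul_le_mul_right h hA
    omega
  set s := h / 120 with hs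
  set a := pt h A with ha
  have h5 : 417084 * a ^ 2 ≤ 2 ^ s := by
    refine le_trans ?_ h2
    have h6 : 7 * a ≤ 120 * (s + 1) := le_trans h3 s2
    have h7 : (7 * a) ^ 2 ≤ (120 * (s + 1)) ^ 2 := Nat.pow_le_pow_left h6 2
    have h8 : 49 * a ^ 2 ≤ 14400 * (s + 1) ^ 2 := by
      calc 49 * a ^ 2 = (7 * a) ^ 2 := by ring
        _ ≤ (120 * (s + 1)) ^ 2 := h7
        _ = 14400 * (s + 1) ^ 2 := by ring
    omega
  have h9 : (417084 : ℝ) * (a : ℝ) ^ 2 ≤ 2 ^ s := by exact_mod_cast h5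
  calc 417084 / vp 4 a = 417084 * (1 / vp 4 a) := by ring
    _ ≤ 417084 * (a : ℝ) ^ 2 := mul_le_mul_of_nonneg_left h1 (by norm_num)
    _ ≤ _ := h9

theorem errE (H : Hyp) (hL : HrLog) (hh : 4800 ≤ h) {A Hn : ℕ} (hA1 : 1 ≤ A) (hA : A ≤ 34) (hH : 2 ^ h ≤ Hn)
    {X : ℝ} (hX : X * 2 ^ (h / 120) ≤ 8 * 2 ^ h) :
    (D : ℝ) * X ≤ (192 / 1001 * (Hn : ℝ) * vp 4 (pt h A)) * 100000 := by
  have h1 := vp_low H hL hh hA1 hA
  have hv := vp_pos 4 (pt h A)
  have hHr : (2 : ℝ) ^ h ≤ Hn := by exact_mod_cast hH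
  have hs : (0 : ℝ) < 2 ^ (h / 120) := by positivity
  rw [div_le_iff₀ hv] at h1
  rw [D_val]
  have h2 : X ≤ 8 * 2 ^ h / 2 ^ (h / 120) := by rw [le_div_iff₀ hs]; exact hX
  have h3 : 8 * (2 : ℝ) ^ h / 2 ^ (h / 120) ≤ 192 / 1001 * 2 ^ h * vp 4 (pt h A) / 10000 := by
    rw [div_le_div_iff₀ hs (by norm_num)]
    have h2h : (0 : ℝ) < 2 ^ h := by positivity
    have h5 : (8 * 10000 : ℝ) ≤ 192 / 1001 * (2 ^ (h / 120) * vp 4 (pt h A)) := by linarith
    calc 8 * (2 : ℝ) ^ h * 10000 = 2 ^ h * (8 * 10000) := by ring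
      _ ≤ 2 ^ h * (192 / 1001 * (2 ^ (h / 120) * vp 4 (pt h A))) := mul_le_mul_of_nonneg_left h5 h2h.le
      _ = _ := by ring
  have h4 : 192 / 1001 * (2 : ℝ) ^ h * vp 4 (pt h A) / 10000 ≤
      192 / 1001 * (Hn : ℝ) * vp 4 (pt h A) / 10000 := by
    apply div_le_div_of_nonneg_right _ (by norm_num)
    apply mul_le_mul_of_nonneg_right _ hv.le
    apply mul_le_mul_of_nonneg_left hHr (by norm_num)
  linarith

/-- the `480`-th power trick -/
theorem pow480 {x : ℝ} (hx : 0 ≤ x) (hx2 : x ^ 480 ≤ 2 ^ (480 * h)) : x ≤ 2 ^ h := by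
  have : x ^ 480 ≤ (2 ^ h) ^ 480 := by
    rw [← pow_mul, mul_comm h 480]; exact hx2
  exact (pow_le_pow_iff_left₀ hx (by positivity) (by norm_num)).mp this

theorem s480 (h : ℕ) : h / 120 * 480 ≤ 4 * h := by omega

theorem group2 (H : Hyp) (hL : HrLog) (hh : 4800 ≤ h) {N Hn A α X Y K : ℕ} (l : List (ℕ × ℕ))
    (hα : 1 ≤ α) (hαA : α ≤ A) (hA : A ≤ 34) (hAX : A ≤ X) (hXY : X < Y) (hYK : Y ≤ K)
    (hc : chOK2 α l = true) (hlev : lev2 α l + 2 * Y ≤ 476) (hH : 2 ^ h ≤ Hn) :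
    (D : ℝ) * ∑ i ∈ Ico (pt h X) (pt h Y), ((pt h K : ℝ) - i) *
        ∑ p ∈ PB i (i + 1), ((cnt N Hn p (pt h A)).card : ℝ) ≤
      (192 / 1001 * (Hn : ℝ) * vp 4 (pt h A)) * ((pt h K : ℝ) *
        ((chP2 α l * V2 α A / D + 1) * W2 K X Y / D + 1 + 100000 : ℕ)) := by
  obtain ⟨P, R, E, M, hch, hP, hR, hE, hM⟩ := chain2_sound H hL hh l α hα (by omega) hc
  obtain ⟨p0, r0, e0, m0⟩ := Ch_nonneg hch
  have hpα := pt_ge hh α
  have hαA' := pt_mono (h := h) hαA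
  have hAX' := pt_mono (h := h) hAX
  have hXY' := pt_mono (h := h) hXY.le
  have hYK' := pt_mono (h := h) hYK
  set a' := pt h α with ha'
  set a := pt h A with ha
  set e := pt h X with he
  set e2 := pt h Y with he2
  set k := pt h K with hk
  have hv := vp_pos 4 a
  have hv' := vp_pos 4 a'
  have hv'' := vp_pos a' a
  have hHn : (0 : ℝ) ≤ (Hn : ℝ) := Nat.cast_nonneg _
  have hvm : vp 4 a = vp 4 a' * vp a' a := vp_mul (by omega) hαA'
  have hpt : ∀ i ∈ Ico e e2, ∀ p ∈ PB i (i + 1), ((cnt N Hn p a).card : ℝ) ≤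
      (192 / 1001 * (Hn : ℝ) * vp 4 a' * P) * (1 / p) + 8 * E := by
    intro i hi p hp
    rw [Finset.mem_Ico] at hi
    rw [mem_PB] at hp
    have h16 : 16 < p := by
      have : 2 ^ 4 ≤ 2 ^ i := Nat.pow_le_pow_right (by norm_num) (by omega)
      omega
    have hcop := coprime_of_gt hp.2 h16
    have hnd : ∀ q ∈ PB 4 a', ¬ q ∣ p := by
      intro q hq hd
      rw [mem_PB] at hq
      have hqp : q = p := (Nat.prime_dvd_prime_iff_eq hq.2 hp.2).mp hd
      have : 2 ^ a' ≤ 2 ^ i := Nat.pow_le_pow_right (by norm_num) (by omega)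
      omega
    have hub := H.bhUp a' P R E M hch N Hn p hp.2.pos hcop hnd
    have hcc : ((cnt N Hn p a).card : ℝ) ≤ ((cnt N Hn p a').card : ℝ) := by
      exact_mod_cast Finset.card_le_card (cnt_mono (by omega) hαA')
    refine hcc.trans (hub.trans (le_of_eq ?_))
    ring
  have hkr : ∀ i ∈ Ico e e2, (0 : ℝ) ≤ (k : ℝ) - i ∧ (k : ℝ) - i ≤ k := by
    intro i hi
    rw [Finset.mem_Ico] at hi
    have h1 : (i : ℝ) ≤ k := by exact_mod_cast (by omega : i ≤ k)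
    have h2 : (0 : ℝ) ≤ i := Nat.cast_nonneg _
    constructor <;> linarith
  have hsum : ∑ i ∈ Ico e e2, ((k : ℝ) - i) * ∑ p ∈ PB i (i + 1), ((cnt N Hn p a).card : ℝ) ≤
      (192 / 1001 * (Hn : ℝ) * vp 4 a' * P) * ∑ i ∈ Ico e e2, ((k : ℝ) - i) * sm i (i + 1) +
      8 * E * ∑ i ∈ Ico e e2, ((k : ℝ) - i) * ((PB i (i + 1)).card : ℝ) := by
    rw [Finset.mul_sum, Finset.mul_sum, ← Finset.sum_add_distrib]
    apply Finset.sum_le_sum
    intro i hi
    have hki := (hkr i hi).1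
    have h1 : ∑ p ∈ PB i (i + 1), ((cnt N Hn p a).card : ℝ) ≤
        (192 / 1001 * (Hn : ℝ) * vp 4 a' * P) * sm i (i + 1) + 8 * E * ((PB i (i + 1)).card : ℝ) := by
      refine (Finset.sum_le_sum (hpt i hi)).trans (le_of_eq ?_)
      rw [Finset.sum_add_distrib, ← Finset.mul_sum, Finset.sum_const, nsmul_eq_mul]
      unfold sm
      ring
    have h2 := mul_le_mul_of_nonneg_left h1 hki
    refine h2.trans (le_of_eq ?_)
    ring
  have hW := W2_ge H hL hh (by omega : 1 ≤ X) hXY hYK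
  have hIV := V2_ge H hL hh hα hαA (by omega : A ≤ 240)
  rw [← he, ← he2, ← hk] at hW
  rw [← ha', ← ha] at hIV
  have hk0 : (0 : ℝ) ≤ k := Nat.cast_nonneg _
  have hW0 : 0 ≤ ∑ i ∈ Ico e e2, ((k : ℝ) - i) * sm i (i + 1) := by
    apply Finset.sum_nonneg
    intro i hi
    exact mul_nonneg (hkr i hi).1 (sm_nonneg _ _)
  -- main term
  have hmain : (D : ℝ) * ((192 / 1001 * (Hn : ℝ) * vp 4 a' * P) * ∑ i ∈ Ico e e2, ((k : ℝ) - i) * sm i (i + 1)) ≤
      (192 / 1001 * (Hn : ℝ) * vp 4 a) * ((k : ℝ) * ((chP2 α l * V2 α A / D + 1) * W2 K X Y / D + 1 : ℕ)) := by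
    have h1 := div_le_up (chP2 α l * V2 α A) D
    have h2 := div_le_up ((chP2 α l * V2 α A / D + 1) * W2 K X Y) D
    have h3 : (D : ℝ) * P * (1 / vp a' a) ≤ ((chP2 α l * V2 α A / D + 1 : ℕ) : ℝ) := by
      refine le_trans ?_ h1
      rw [le_div_iff₀ D_pos, Nat.cast_mul]
      calc (D : ℝ) * P * (1 / vp a' a) * D = (D * P) * (D / vp a' a) := by ring
        _ ≤ _ := mul_le_mul hP hIV (div_nonneg D_pos.le hv''.le) (Nat.cast_nonneg _)
    have h4 : (D : ℝ) * P * (1 / vp a' a) * ∑ i ∈ Ico e e2, ((k : ℝ) - i) * sm i (i + 1) ≤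
        (k : ℝ) * (((chP2 α l * V2 α A / D + 1) * W2 K X Y / D + 1 : ℕ) : ℝ) := by
      refine le_trans ?_ (mul_le_mul_of_nonneg_left h2 hk0)
      have hdv : ∀ u v w : ℝ, u * (v / w) = u * v / w := fun u v w => by ring
      rw [hdv (k : ℝ) _ (D : ℝ), le_div_iff₀ D_pos, Nat.cast_mul]
      calc (D : ℝ) * P * (1 / vp a' a) * (∑ i ∈ Ico e e2, ((k : ℝ) - i) * sm i (i + 1)) * D =
            ((D : ℝ) * P * (1 / vp a' a)) * (D * ∑ i ∈ Ico e e2, ((k : ℝ) - i) * sm i (i + 1)) := by ring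
        _ ≤ ((chP2 α l * V2 α A / D + 1 : ℕ) : ℝ) * ((k : ℝ) * (W2 K X Y : ℝ)) :=
            mul_le_mul h3 hW (mul_nonneg D_pos.le hW0) (Nat.cast_nonneg _)
        _ = _ := by ring
    calc (D : ℝ) * ((192 / 1001 * (Hn : ℝ) * vp 4 a' * P) * ∑ i ∈ Ico e e2, ((k : ℝ) - i) * sm i (i + 1)) =
        (192 / 1001 * (Hn : ℝ) * vp 4 a) *
          ((D : ℝ) * P * (1 / vp a' a) * ∑ i ∈ Ico e e2, ((k : ℝ) - i) * sm i (i + 1)) := by
          rw [hvm]; field_simp
      _ ≤ _ := mul_le_mul_of_nonneg_left h4 (by positivity)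
  have herr : (D : ℝ) * (8 * E * ∑ i ∈ Ico e e2, ((k : ℝ) - i) * ((PB i (i + 1)).card : ℝ)) ≤
      (192 / 1001 * (Hn : ℝ) * vp 4 a) * ((k : ℝ) * 100000) := by
    have b1 : ∑ i ∈ Ico e e2, ((k : ℝ) - i) * ((PB i (i + 1)).card : ℝ) ≤ (k : ℝ) * 2 ^ e2 := by
      calc ∑ i ∈ Ico e e2, ((k : ℝ) - i) * ((PB i (i + 1)).card : ℝ) ≤
            ∑ i ∈ Ico e e2, (k : ℝ) * ((PB i (i + 1)).card : ℝ) := by
              apply Finset.sum_le_sum
              intro i hi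
              exact mul_le_mul_of_nonneg_right (hkr i hi).2 (Nat.cast_nonneg _)
        _ = (k : ℝ) * ((PB e e2).card : ℝ) := by
              rw [← Finset.mul_sum, card_eq_sum hXY', Nat.cast_sum]
        _ ≤ (k : ℝ) * 2 ^ e2 := by
              apply mul_le_mul_of_nonneg_left _ hk0
              have := card_real hXY'
              linarith
    have b2 : E * 2 ^ e2 * 2 ^ (h / 120) ≤ 2 ^ h := by
      apply pow480 (by positivity)
      calc (E * 2 ^ e2 * 2 ^ (h / 120)) ^ 480 = E ^ 480 * 2 ^ (e2 * 480) * 2 ^ (h / 120 * 480) := by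
            rw [mul_pow, mul_pow, ← pow_mul, ← pow_mul]
        _ ≤ 2 ^ (lev2 α l * h) * 2 ^ (e2 * 480) * 2 ^ (h / 120 * 480) := by
            apply mul_le_mul_of_nonneg_right _ (by positivity)
            exact mul_le_mul_of_nonneg_right hE (by positivity)
        _ = 2 ^ (lev2 α l * h + e2 * 480 + h / 120 * 480) := by rw [pow_add, pow_add]
        _ ≤ 2 ^ (480 * h) := by
            apply pow_le_pow_right₀ (by norm_num)
            have h6 := pt_240 h Y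
            rw [← he2] at h6
            have h7 := s480 h
            have h8 : (lev2 α l + 2 * Y) * h ≤ 476 * h := Nat.mul_le_mul_right h hlev
            nlinarith
    have b3 := errE H hL hh (A := A) (by omega) hA hH (X := 8 * (E * 2 ^ e2)) (by linarith)
    rw [← ha] at b3
    calc (D : ℝ) * (8 * E * ∑ i ∈ Ico e e2, ((k : ℝ) - i) * ((PB i (i + 1)).card : ℝ)) ≤
          (D : ℝ) * (8 * E * ((k : ℝ) * 2 ^ e2)) := by
            apply mul_le_mul_of_nonneg_left _ D_pos.le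
            exact mul_le_mul_of_nonneg_left b1 (by positivity)
      _ = (k : ℝ) * ((D : ℝ) * (8 * (E * 2 ^ e2))) := by ring
      _ ≤ (k : ℝ) * ((192 / 1001 * (Hn : ℝ) * vp 4 a) * 100000) := mul_le_mul_of_nonneg_left b3 hk0
      _ = _ := by ring
  rw [Nat.cast_add _ 100000, mul_add, mul_add]
  refine le_trans (mul_le_mul_of_nonneg_left hsum D_pos.le) ?_
  rw [mul_add]
  push_cast at hmain herr ⊢
  exact add_le_add hmain herr

def grOK2 (K A : ℕ) : ℕ → List (ℕ × ℕ × List (ℕ × ℕ)) → Bool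
  | e, [] => Nat.beq e K
  | e, x :: l => Nat.ble (e + 1) x.1 && (Nat.ble x.1 K && (Nat.ble 1 x.2.1 && (Nat.ble x.2.1 A &&
      (chOK2 x.2.1 x.2.2 && (Nat.ble (lev2 x.2.1 x.2.2 + 2 * x.1) 476 && grOK2 K A x.1 l)))))

def grV2 (K A : ℕ) : ℕ → List (ℕ × ℕ × List (ℕ × ℕ)) → ℕ
  | _, [] => 0
  | e, x :: l => (chP2 x.2.1 x.2.2 * V2 x.2.1 A / D + 1) * W2 K e x.1 / D + 1 + 100000 + grV2 K A x.1 l

theorem groups2 (H : Hyp) (hL : HrLog) (hh : 4800 ≤ h) {N Hn A K : ℕ} (hA : A ≤ 34) (hH : 2 ^ h ≤ Hn) :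
    ∀ (gs : List (ℕ × ℕ × List (ℕ × ℕ))) (e : ℕ), A ≤ e → e ≤ K → grOK2 K A e gs = true →
    (D : ℝ) * ∑ i ∈ Ico (pt h e) (pt h K), ((pt h K : ℝ) - i) *
        ∑ p ∈ PB i (i + 1), ((cnt N Hn p (pt h A)).card : ℝ) ≤
      (192 / 1001 * (Hn : ℝ) * vp 4 (pt h A)) * ((pt h K : ℝ) * (grV2 K A e gs : ℕ))
  | [], e, _, _, hg => by
    have : e = K := Nat.eq_of_beq_eq_true hg
    subst this
    simp [grV2]
  | x :: gs, e, hae, hek, hg => by
    obtain ⟨e2, a', l⟩ := x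
    unfold grOK2 at hg
    simp only [Bool.and_eq_true] at hg
    obtain ⟨h1, h2, h3, h4, h5, h6, h7⟩ := hg
    have g1 : e < e2 := Nat.le_of_ble_eq_true h1
    have g2 : e2 ≤ K := Nat.le_of_ble_eq_true h2
    have g3 : 1 ≤ a' := Nat.le_of_ble_eq_true h3
    have g4 : a' ≤ A := Nat.le_of_ble_eq_true h4
    have g6 := Nat.le_of_ble_eq_true h6
    have ih := groups2 H hL hh (N := N) hA hH gs e2 (by omega) g2 h7
    have ho := group2 H hL hh (N := N) (Hn := Hn) l g3 g4 hA hae g1 g2 h5 g6 hH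
    unfold grV2
    have m1 := pt_mono (h := h) g1.le
    have m2 := pt_mono (h := h) g2
    rw [Nat.cast_add _ (grV2 K A e2 gs), mul_add, mul_add, ← Finset.sum_Ico_consecutive _ m1 m2, mul_add]
    exact add_le_add ho ih

theorem geo_sum (a : ℕ) : ∀ k : ℕ, ∑ i ∈ Ico a k, (1 : ℝ) / 2 ^ i ≤ 2 / 2 ^ a - (if a ≤ k then 2 / 2 ^ k else 0)
  | 0 => by
    simp only [Nat.not_lt_zero, not_false_eq_true, Finset.Ico_eq_empty, Finset.sum_empty]
    by_cases h : a ≤ 0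
    · have : a = 0 := by omega
      subst this
      simp
    · rw [if_neg h, sub_zero]
      positivity
  | k + 1 => by
    by_cases h : a ≤ k
    · rw [Finset.sum_Ico_succ_top h, if_pos (by omega : a ≤ k + 1)]
      have ih := geo_sum a k
      rw [if_pos h] at ih
      have e : (2 : ℝ) / 2 ^ k - 1 / 2 ^ k = 2 / 2 ^ (k + 1) := by
        rw [pow_succ]; field_simp; norm_num
      linarith
    · by_cases h2 : a = k + 1
      · subst h2
        simp
      · rw [if_neg (by omega), Finset.Ico_eq_empty (by omega), Finset.sum_empty, sub_zero]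
        positivity

theorem hp2 (H : Hyp) (hL : HrLog) (hh : 4800 ≤ h) {N Hn A K Λ : ℕ} (hA20 : 20 ≤ A) (hA : A ≤ 34)
    (hK : K ≤ 234) (hAK : A ≤ K) (hH : 2 ^ h ≤ Hn) (hN : N + Hn < 2 ^ (Λ + 1)) (hΛ : Λ + 1 ≤ 3 * h) :
    (D : ℝ) * ∑ i ∈ Ico (pt h A) (pt h K), ((pt h K : ℝ) - i) * ∑ p ∈ PB i (i + 1), (hpw N Hn (pt h A) p : ℝ) ≤
      (192 / 1001 * (Hn : ℝ) * vp 4 (pt h A)) * ((pt h K : ℝ) * 100000) := by
  have hpA := pt_ge hh A
  have hAK' := pt_mono (h := h) hAK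
  have hvl := vp_low H hL hh (by omega : 1 ≤ A) hA
  have hcr := crudeIV H hL (a := pt h A) (by omega)
  obtain ⟨s1, s2, s3⟩ := s_facts hh
  have hkh : pt h K + 3 * (h / 120) ≤ h := by
    have := pt_240 h K
    have h4 : K * h ≤ 234 * h := Nat.mul_le_mul_right h hK
    omega
  have hpb := pow_big (h / 120) s1
  have hpa := pow_big (pt h A) (by omega)
  set a := pt h A with ha
  set k := pt h K with hk
  set s := h / 120 with hs
  have hv := vp_pos 4 a
  have hHn : (0 : ℝ) < (Hn : ℝ) := by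
    have : 0 < 2 ^ h := by positivity
    exact_mod_cast (by omega : 0 < Hn)
  have hHr : (2 : ℝ) ^ h ≤ Hn := by exact_mod_cast hH
  have hk0 : (0 : ℝ) ≤ k := Nat.cast_nonneg _
  -- pointwise in i
  have hpt : ∀ i ∈ Ico a k, ∑ p ∈ PB i (i + 1), (hpw N Hn a p : ℝ) ≤
      2 * (Hn : ℝ) * (1 / 2 ^ i) + ((PB i (i + 1)).card : ℝ) * (Λ + 1) := by
    intro i hi
    rw [Finset.mem_Ico] at hi
    have hb := H.hpb N Hn Λ a i (by omega) hi.1 hN
    have hsi : sm i (i + 1) ≤ 1 := by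
      have h1 := H.sumS i (i + 1) (by omega) (by omega)
      have e0 : hr i (i + 1) = 1 / i := by simp [hr]
      rw [e0] at h1
      have hir : (13 : ℝ) ≤ i := by exact_mod_cast (by omega : 13 ≤ i)
      have h2 : (1 : ℝ) / i + 1.55 / i ≤ 1 := by
        rw [← add_div, div_le_one (by linarith)]
        linarith
      linarith
    have hs0 := sm_nonneg i (i + 1)
    have h2i : (0 : ℝ) < 2 ^ i := by positivity
    have h4i : (2 : ℝ) ^ i ≤ 4 ^ i := pow_le_pow_left₀ (by norm_num) (by norm_num) i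
    have c0 : (0 : ℝ) ≤ ((PB i (i + 1)).card : ℝ) := Nat.cast_nonneg _
    have h5 : (Hn : ℝ) * sm i (i + 1) / 2 ^ i ≤ Hn * (1 / 2 ^ i) := by
      rw [mul_div_assoc]
      apply mul_le_mul_of_nonneg_left _ hHn.le
      exact div_le_div_of_nonneg_right hsi h2i.le
    have h6 : (Hn : ℝ) * sm i (i + 1) / 4 ^ i ≤ Hn * (1 / 2 ^ i) := by
      rw [mul_div_assoc]
      apply mul_le_mul_of_nonneg_left _ hHn.le
      exact div_le_div₀ (by norm_num) hsi h2i h4i
    have h7 : ((Λ / i - 2 : ℕ) : ℝ) ≤ (Λ : ℝ) := by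
      have : Λ / i - 2 ≤ Λ := (Nat.sub_le _ _).trans (Nat.div_le_self _ _)
      exact_mod_cast this
    have h8 : ((PB i (i + 1)).card : ℝ) * ((Λ / i - 2 : ℕ) : ℝ) ≤ ((PB i (i + 1)).card : ℝ) * Λ :=
      mul_le_mul_of_nonneg_left h7 c0
    have h9 := min_le_right (192 / 1001 * (Hn : ℝ) * sm i (i + 1) / 2 ^ i + 8 * ((PB i (i + 1)).card : ℝ))
      ((Hn : ℝ) * sm i (i + 1) / 2 ^ i + ((PB i (i + 1)).card : ℝ))
    linarith
  have hsum : ∑ i ∈ Ico a k, ((k : ℝ) - i) * ∑ p ∈ PB i (i + 1), (hpw N Hn a p : ℝ) ≤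
      (k : ℝ) * (4 * Hn / 2 ^ a + (Λ + 1) * 2 ^ k) := by
    calc ∑ i ∈ Ico a k, ((k : ℝ) - i) * ∑ p ∈ PB i (i + 1), (hpw N Hn a p : ℝ) ≤
          ∑ i ∈ Ico a k, (k : ℝ) * (2 * (Hn : ℝ) * (1 / 2 ^ i) + ((PB i (i + 1)).card : ℝ) * (Λ + 1)) := by
            apply Finset.sum_le_sum
            intro i hi
            have hi' := hi
            rw [Finset.mem_Ico] at hi'
            have h1 : (i : ℝ) ≤ k := by exact_mod_cast (by omega : i ≤ k)
            have h2 : (0 : ℝ) ≤ i := Nat.cast_nonneg _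
            apply mul_le_mul (by linarith) (hpt i hi) _ hk0
            exact Finset.sum_nonneg fun p _ => Nat.cast_nonneg _
      _ = (k : ℝ) * (2 * (Hn : ℝ) * ∑ i ∈ Ico a k, (1 : ℝ) / 2 ^ i + ((PB a k).card : ℝ) * (Λ + 1)) := by
            rw [← Finset.mul_sum, Finset.sum_add_distrib, ← Finset.mul_sum, ← Finset.sum_mul,
              card_eq_sum hAK', Nat.cast_sum]
      _ ≤ _ := by
            apply mul_le_mul_of_nonneg_left _ hk0
            have g1 := geo_sum a k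
            rw [if_pos hAK'] at g1
            have g2 : ∑ i ∈ Ico a k, (1 : ℝ) / 2 ^ i ≤ 2 / 2 ^ a := by
              have : (0 : ℝ) ≤ 2 / 2 ^ k := by positivity
              linarith
            have g3 : 2 * (Hn : ℝ) * ∑ i ∈ Ico a k, (1 : ℝ) / 2 ^ i ≤ 2 * Hn * (2 / 2 ^ a) :=
              mul_le_mul_of_nonneg_left g2 (by positivity)
            have g4 := card_real hAK'
            have g5 : ((PB a k).card : ℝ) * (Λ + 1) ≤ 2 ^ k * (Λ + 1) := by
              apply mul_le_mul_of_nonneg_right (by linarith) (by positivity)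
            have g6 : 2 * (Hn : ℝ) * (2 / 2 ^ a) = 4 * Hn / 2 ^ a := by ring
            linarith
  refine (mul_le_mul_of_nonneg_left hsum D_pos.le).trans ?_
  have hfin : (D : ℝ) * (4 * Hn / 2 ^ a + (Λ + 1) * 2 ^ k) ≤ (192 / 1001 * (Hn : ℝ) * vp 4 a) * 100000 := by
    rw [D_val]
    have hcr' : 1 ≤ (a : ℝ) ^ 2 * vp 4 a := by
      rw [div_le_iff₀ hv] at hcr; exact hcr
    -- first part
    have p1 : (1000000000 : ℝ) * (4 * Hn / 2 ^ a) ≤ (192 / 1001 * (Hn : ℝ) * vp 4 a) * 50000 := by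
      have q1 : (417084 : ℝ) * (a : ℝ) ^ 2 ≤ 2 ^ a := by
        have : 417084 * a ^ 2 ≤ 2 ^ a := by
          refine le_trans ?_ hpa
          nlinarith
        exact_mod_cast this
      have q2 : (417084 : ℝ) ≤ 2 ^ a * vp 4 a := by
        calc (417084 : ℝ) ≤ 417084 * ((a : ℝ) ^ 2 * vp 4 a) := by linarith
          _ = (417084 * (a : ℝ) ^ 2) * vp 4 a := by ring
          _ ≤ 2 ^ a * vp 4 a := mul_le_mul_of_nonneg_right q1 hv.le
      have h2a : (0 : ℝ) < 2 ^ a := by positivity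
      rw [← mul_div_assoc, div_le_iff₀ h2a]
      have q3 : (Hn : ℝ) * 417084 ≤ Hn * (2 ^ a * vp 4 a) := mul_le_mul_of_nonneg_left q2 hHn.le
      nlinarith
    -- second part
    have p2 : (1000000000 : ℝ) * ((Λ + 1) * 2 ^ k) ≤ (192 / 1001 * (Hn : ℝ) * vp 4 a) * 50000 := by
      have q1 : 7 * a ≤ h := by
        have := pt_240 h A
        rw [← ha] at this
        have h4 : A * h ≤ 34 * h := Nat.mul_le_mul_right h hA
        omega
      -- 104271 (Λ+1) a^2 ≤ 2^(3s)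
      have q2 : 104300 * ((Λ + 1) * a ^ 2) ≤ 2 ^ (3 * s) := by
        have r1 : Λ + 1 ≤ 360 * (s + 1) := by omega
        have r2 : a ≤ 18 * (s + 1) := by omega
        have r3 : (Λ + 1) * a ^ 2 ≤ (360 * (s + 1)) * (18 * (s + 1)) ^ 2 :=
          Nat.mul_le_mul r1 (Nat.pow_le_pow_left r2 2)
        have r4 : 2 ^ (3 * s) = 2 ^ s * (2 ^ s * 2 ^ s) := by
          rw [← pow_add, ← pow_add]; congr 1; ring
        have r5 : 1 ≤ 2 ^ s := Nat.one_le_two_pow
        have r6 : (122600000 * (s + 1) ^ 2) * (122600000 * (s + 1) ^ 2 * 1) ≤ 2 ^ s * (2 ^ s * 2 ^ s) :=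
          Nat.mul_le_mul hpb (Nat.mul_le_mul hpb r5)
        rw [r4]
        refine le_trans ?_ r6
        have r7 : 104300 * ((Λ + 1) * a ^ 2) ≤ 104300 * ((360 * (s + 1)) * (18 * (s + 1)) ^ 2) :=
          Nat.mul_le_mul_left _ r3
        refine r7.trans ?_
        have r8 : (s + 1) ^ 3 ≤ (s + 1) ^ 4 := Nat.pow_le_pow_right (by omega) (by norm_num)
        calc 104300 * ((360 * (s + 1)) * (18 * (s + 1)) ^ 2) = 12165552000 * (s + 1) ^ 3 := by ring
          _ ≤ 12165552000 * (s + 1) ^ 4 := Nat.mul_le_mul_left _ r8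
          _ ≤ 15030760000000000 * (s + 1) ^ 4 := Nat.mul_le_mul_right _ (by norm_num)
          _ = 122600000 * (s + 1) ^ 2 * (122600000 * (s + 1) ^ 2 * 1) := by ring
      have q3 : (104300 : ℝ) * (((Λ : ℝ) + 1) * (a : ℝ) ^ 2) ≤ 2 ^ (3 * s) := by exact_mod_cast q2
      have q4 : (104300 : ℝ) * ((Λ : ℝ) + 1) ≤ 2 ^ (3 * s) * vp 4 a := by
        have t1 : (104300 : ℝ) * ((Λ : ℝ) + 1) ≤ 104300 * ((Λ : ℝ) + 1) * ((a : ℝ) ^ 2 * vp 4 a) :=
          le_mul_of_one_le_right (by positivity) hcr'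
        have t2 : (104300 : ℝ) * ((Λ : ℝ) + 1) * ((a : ℝ) ^ 2 * vp 4 a) =
            (104300 * (((Λ : ℝ) + 1) * (a : ℝ) ^ 2)) * vp 4 a := by ring
        rw [t2] at t1
        exact t1.trans (mul_le_mul_of_nonneg_right q3 hv.le)
      have q5 : (2 : ℝ) ^ k * 2 ^ (3 * s) ≤ Hn := by
        rw [← pow_add]
        exact (pow_le_pow_right₀ (by norm_num) hkh).trans hHr
      have h2k : (0 : ℝ) < 2 ^ k := by positivity
      calc (1000000000 : ℝ) * ((Λ + 1) * 2 ^ k) ≤ (192 / 1001 * 50000) * (2 ^ k * (104300 * ((Λ : ℝ) + 1))) := by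
            have : (0 : ℝ) ≤ 2 ^ k * ((Λ : ℝ) + 1) := by positivity
            nlinarith
        _ ≤ (192 / 1001 * 50000) * (2 ^ k * (2 ^ (3 * s) * vp 4 a)) := by
            apply mul_le_mul_of_nonneg_left _ (by norm_num)
            exact mul_le_mul_of_nonneg_left q4 h2k.le
        _ = (192 / 1001 * 50000) * ((2 ^ k * 2 ^ (3 * s)) * vp 4 a) := by ring
        _ ≤ (192 / 1001 * 50000) * (Hn * vp 4 a) := by
            apply mul_le_mul_of_nonneg_left _ (by norm_num)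
            exact mul_le_mul_of_nonneg_right q5 hv.le
        _ = _ := by ring
    rw [mul_add]
    linarith
  calc (D : ℝ) * ((k : ℝ) * (4 * Hn / 2 ^ a + (Λ + 1) * 2 ^ k)) =
        (k : ℝ) * ((D : ℝ) * (4 * Hn / 2 ^ a + (Λ + 1) * 2 ^ k)) := by ring
    _ ≤ (k : ℝ) * ((192 / 1001 * (Hn : ℝ) * vp 4 a) * 100000) := mul_le_mul_of_nonneg_left hfin hk0
    _ = _ := by ring

/-- the asymptotic certificate -/
def chk2 (K A lam : ℕ) (c0 : List (ℕ × ℕ)) (gs : List (ℕ × ℕ × List (ℕ × ℕ))) : Bool :=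
  Nat.ble 31 A && (Nat.ble A 34 && (Nat.ble A K && (Nat.ble K 234 && (Nat.ble (D * 9627) (lam * (20 * K - 1)) &&
  (Nat.ble lam (4 * D) && (chOK2 A c0 && (Nat.ble (lev2 A c0 + 2 * A + 5) 480 && (grOK2 K A A gs &&
  (Nat.ble (chR2 A c0 + 100000) D &&
   Nat.ble ((grV2 K A A gs + 100000 + 1) * D) ((4 * D - lam) * (D - (chR2 A c0 + 100000))))))))))))

theorem two_pow_le_factorial : ∀ h : ℕ, 5 ≤ h → 2 ^ (h + 1) ≤ h.factorial := by
  intro h hh
  induction h, hh using Nat.le_induction with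
  | base => decide
  | succ n hn ih =>
    rw [Nat.factorial_succ, pow_succ]
    nlinarith

theorem log_small (hh : 4800 ≤ h) : 400 * Nat.log 2 h ≤ h := by
  by_cases hl : Nat.log 2 h ≤ 12
  · omega
  · have h1 : 2 ^ Nat.log 2 h ≤ h := Nat.pow_log_le_self 2 (by omega)
    have h2 : ∀ L : ℕ, 13 ≤ L → 400 * L ≤ 2 ^ L := by
      intro L hL
      induction L, hL using Nat.le_induction with
      | base => norm_num
      | succ n hn ih => rw [pow_succ]; omega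
    exact (h2 _ (by omega)).trans h1

theorem final2core (H : Hyp) (hL : HrLog) {K A lam r G : ℕ} {c0 : List (ℕ × ℕ)}
    {gs : List (ℕ × ℕ × List (ℕ × ℕ))} (hA31 : 31 ≤ A) (hA : A ≤ 34) (hAK : A ≤ K) (hK : K ≤ 234)
    (hlamr : (D : ℝ) * 9627 ≤ lam * (20 * (K : ℝ) - 1)) (hlam4r : (lam : ℝ) ≤ 4 * D)
    (c7 : chOK2 A c0 = true) (hlev : lev2 A c0 + 2 * A + 5 ≤ 480) (c9 : grOK2 K A A gs = true)
    (hr : (r : ℝ) = chR2 A c0 + 100000) (hG : (G : ℝ) = grV2 K A A gs + 100000 + 1) (hrDr : (r : ℝ) ≤ D)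
    (hiq : (G : ℝ) * D ≤ (4 * (D : ℝ) - lam) * ((D : ℝ) - r))
    (n : ℕ) (hn : 0 < n) (h : ℕ) (h4800 : 4800 ≤ h)
    (hH : 2 ^ h ≤ Nat.totient n) (hH2 : Nat.totient n < 2 ^ (h + 1)) : Good n := by
  set φ := Nat.totient n with hφd
  have hTL := H.totL h (2 ^ (h + 1)) n hn (two_pow_le_factorial h (by omega)) hH2
  rw [← hφd] at hTL
  set Λ := 2 * h + 3 + 2 * Nat.log 2 h with hΛ
  have hN : n ^ 2 + φ < 2 ^ (Λ + 1) := by
    have a1 : φ ≤ n := Nat.totient_le n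
    have a2 : n + 1 ≤ h * 2 ^ (h + 1) := by
      have : h * φ + h ≤ h * 2 ^ (h + 1) := by
        rw [← Nat.mul_succ]
        exact Nat.mul_le_mul_left _ hH2
      omega
    have a3 : h < 2 ^ (Nat.log 2 h + 1) := Nat.lt_pow_succ_log_self (by norm_num) h
    calc n ^ 2 + φ < (n + 1) ^ 2 := by nlinarith
      _ ≤ (h * 2 ^ (h + 1)) ^ 2 := Nat.pow_le_pow_left a2 2
      _ ≤ (2 ^ (Nat.log 2 h + 1) * 2 ^ (h + 1)) ^ 2 := by
          apply Nat.pow_le_pow_left
          exact Nat.mul_le_mul_right _ a3.le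
      _ = 2 ^ (Λ + 1) := by
          rw [← pow_add, ← pow_mul, hΛ]; congr 1; ring
  have hlog := log_small h4800
  have hA20 : 20 ≤ A := by omega
  have hΛ1 : 200 * Λ ≤ 401 * h + 600 := by rw [hΛ]; omega
  have hΛ3 : Λ + 1 ≤ 3 * h := by omega
  set a := pt h A with ha
  set k := pt h K with hk
  have hak : a ≤ k := pt_mono hAK
  have hpA := pt_ge h4800 A
  have hv := vp_pos 4 a
  have hHr : (2 : ℝ) ^ h ≤ φ := by exact_mod_cast hH
  have h2h : (0 : ℝ) < 2 ^ h := by positivity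
  have hφr : (0 : ℝ) < (φ : ℝ) := lt_of_lt_of_le h2h hHr
  set V : ℝ := 192 / 1001 * (φ : ℝ) * vp 4 a with hV
  have hV0 : 0 < V := by positivity
  have hD := D_pos
  -- lambda
  have hk1 : (K : ℝ) * ((h : ℝ) / 240) - 1 < k := pt_gt h K
  have hK20 : (20 : ℝ) ≤ K := by exact_mod_cast (by omega : 20 ≤ K)
  have hΛk : (D : ℝ) * Λ ≤ lam * k := by
    have b1 : (Λ : ℝ) ≤ 2.005 * h + 3 := by
      have : (200 : ℝ) * Λ ≤ 401 * h + 600 := by exact_mod_cast hΛ1
      linarith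
    have hlam0 : (0 : ℝ) ≤ lam := Nat.cast_nonneg _
    set t : ℝ := (h : ℝ) / 240 with ht
    have ht20 : (20 : ℝ) ≤ t := by
      have : (4800 : ℝ) ≤ h := by exact_mod_cast h4800
      rw [ht]; linarith
    have b2 : (h : ℝ) = 240 * t := by rw [ht]; ring
    have b3 : (D : ℝ) * Λ ≤ D * (481.2 * t + 3) := by
      apply mul_le_mul_of_nonneg_left _ hD.le
      rw [b2] at b1; linarith
    -- slope
    have b4 : (D : ℝ) * 481.2 ≤ lam * K := by
      have : (lam : ℝ) * (20 * (K : ℝ) - 1) ≤ 20 * (lam * K) := by nlinarith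
      rw [D_val] at hlamr ⊢
      linarith
    have b5 : (D : ℝ) * (481.2 * t + 3) ≤ lam * (K * t - 1) := by
      have c1 : (D : ℝ) * 481.2 * (t - 20) ≤ lam * K * (t - 20) :=
        mul_le_mul_of_nonneg_right b4 (by linarith)
      nlinarith
    have b6 : (lam : ℝ) * (K * t - 1) ≤ lam * k := mul_le_mul_of_nonneg_left hk1.le hlam0
    linarith
  have hk0 : (0 : ℝ) < k := by
    have : 0 < k := by omega
    exact_mod_cast this
  have h4k : (0 : ℝ) ≤ 4 * (k : ℝ) - Λ := by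
    have : (D : ℝ) * Λ ≤ D * (4 * k) := by
      calc (D : ℝ) * Λ ≤ lam * k := hΛk
        _ ≤ 4 * D * k := mul_le_mul_of_nonneg_right hlam4r hk0.le
        _ = D * (4 * k) := by ring
    have := le_of_mul_le_mul_left this hD
    linarith
  -- the lower bound
  obtain ⟨P, R, E, M, hch, hP, hR, hE, hM⟩ := chain2_sound H hL h4800 c0 A (by omega) (by omega) c7
  obtain ⟨p0, r0, e0, m0⟩ := Ch_nonneg hch
  rw [← ha] at hch hM
  have hR1 : R ≤ 1 := by
    have a1 : (D : ℝ) * R ≤ (D : ℝ) * 1 := by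
      linarith
    exact le_of_mul_le_mul_left a1 hD
  have hlow := H.bhLow a P R E M hch hR1 (n ^ 2) φ
  have hEM : E * M * 2 ^ (h / 120) ≤ 2 ^ h := by
    apply pow480 (by positivity)
    calc (E * M * 2 ^ (h / 120)) ^ 480 = E ^ 480 * M ^ 480 * 2 ^ (h / 120 * 480) := by
          rw [mul_pow, mul_pow, ← pow_mul]
      _ ≤ 2 ^ (lev2 A c0 * h) * (2 ^ (a + 1)) ^ 480 * 2 ^ (h / 120 * 480) := by
          apply mul_le_mul_of_nonneg_right _ (by positivity)
          apply mul_le_mul hE _ (by positivity) (by positivity)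
          exact pow_le_pow_left₀ (by linarith) hM _
      _ = 2 ^ (lev2 A c0 * h + (a + 1) * 480 + h / 120 * 480) := by
          rw [← pow_mul, ← pow_add, ← pow_add]
      _ ≤ 2 ^ (480 * h) := by
          apply pow_le_pow_right₀ (by norm_num)
          have h6 := pt_240 h A
          rw [← ha] at h6
          have h7 := s480 h
          have h8 : (lev2 A c0 + 2 * A + 5) * h ≤ 480 * h := Nat.mul_le_mul_right h hlev
          nlinarith
  have herr := errE H hL h4800 (A := A) (by omega) hA hH (X := 8 * (E * M)) (by linarith)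
  rw [← ha, ← hV] at herr
  have hcnt : V * ((D : ℝ) - r) ≤ (D : ℝ) * ((cnt (n ^ 2) φ 1 a).card : ℝ) := by
    have b2 := mul_le_mul_of_nonneg_left hlow hD.le
    refine le_trans ?_ b2
    have b3 : (D : ℝ) * R * V ≤ chR2 A c0 * V := mul_le_mul_of_nonneg_right hR hV0.le
    rw [hr]
    have b4 : (D : ℝ) * (192 / 1001 * (φ : ℝ) * vp 4 a * (1 - R) - 8 * (E * M)) =
        V * D - D * R * V - D * (8 * (E * M)) := by rw [hV]; ring
    rw [b4]
    linarith
  have hup1 := groups2 H hL h4800 (N := n ^ 2) (K := K) hA hH gs A le_rfl hAK c9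
  have hup2 := hp2 H hL h4800 (N := n ^ 2) (K := K) hA20 hA hK hAK hH hN hΛ3
  rw [← ha, ← hk, ← hV] at hup1 hup2
  have hsplit : ∑ i ∈ Ico a k, ((k : ℝ) - i) *
      ∑ p ∈ PB i (i + 1), (((cnt (n ^ 2) φ p a).card : ℝ) + hpw (n ^ 2) φ a p) =
      ∑ i ∈ Ico a k, ((k : ℝ) - i) * ∑ p ∈ PB i (i + 1), ((cnt (n ^ 2) φ p a).card : ℝ) +
      ∑ i ∈ Ico a k, ((k : ℝ) - i) * ∑ p ∈ PB i (i + 1), (hpw (n ^ 2) φ a p : ℝ) := by
    rw [← Finset.sum_add_distrib]
    apply Finset.sum_congr rfl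
    intro i _
    rw [Finset.sum_add_distrib]
    ring
  rw [hG] at hiq
  have hg0 : (0 : ℝ) ≤ ((grV2 K A A gs : ℕ) : ℝ) := Nat.cast_nonneg _
  have hfin : (D : ℝ) * (D * (∑ i ∈ Ico a k, ((k : ℝ) - i) * ∑ p ∈ PB i (i + 1), ((cnt (n ^ 2) φ p a).card : ℝ) +
      ∑ i ∈ Ico a k, ((k : ℝ) - i) * ∑ p ∈ PB i (i + 1), (hpw (n ^ 2) φ a p : ℝ))) <
      (D : ℝ) * (D * ((4 * (k : ℝ) - Λ) * ((cnt (n ^ 2) φ 1 a).card : ℝ))) := by
    calc _ ≤ (D : ℝ) * (V * ((k : ℝ) * ((grV2 K A A gs : ℕ) : ℝ)) + V * ((k : ℝ) * 100000)) := by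
          apply mul_le_mul_of_nonneg_left _ hD.le
          rw [mul_add]
          exact add_le_add hup1 hup2
      _ = V * k * (((grV2 K A A gs : ℕ) : ℝ) * D + 100000 * D) := by ring
      _ < V * k * ((4 * (D : ℝ) - lam) * ((D : ℝ) - r)) := by
          apply mul_lt_mul_of_pos_left _ (by positivity)
          linarith
      _ = (4 * (D : ℝ) * k - lam * k) * (V * ((D : ℝ) - r)) := by ring
      _ ≤ (4 * (D : ℝ) * k - D * Λ) * (V * ((D : ℝ) - r)) := by
          apply mul_le_mul_of_nonneg_right (by linarith)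
          exact mul_nonneg hV0.le (by linarith)
      _ = D * ((4 * (k : ℝ) - Λ) * (V * ((D : ℝ) - r))) := by ring
      _ ≤ D * ((4 * (k : ℝ) - Λ) * (D * ((cnt (n ^ 2) φ 1 a).card : ℝ))) := by
          apply mul_le_mul_of_nonneg_left _ hD.le
          exact mul_le_mul_of_nonneg_left hcnt h4k
      _ = _ := by ring
  have hlt := lt_of_mul_lt_mul_left (lt_of_mul_lt_mul_left hfin hD.le) hD.le
  rw [← hsplit] at hlt
  have hn8 : n ≤ 2 ^ (8 * a) := by
    have a3 : h < 2 ^ (Nat.log 2 h + 1) := Nat.lt_pow_succ_log_self (by norm_num) h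
    have e1 : Nat.log 2 h + 1 + (h + 1) ≤ 8 * a := by
      have e2 : 31 * h < 240 * (a + 1) := by
        have e3 : 31 * h ≤ A * h := Nat.mul_le_mul_right h hA31
        have e4 : A * h < 240 * (A * h / 240) + 240 := by omega
        have e5 : a = A * h / 240 := rfl
        omega
      omega
    calc n ≤ h * φ := hTL
      _ ≤ 2 ^ (Nat.log 2 h + 1) * 2 ^ (h + 1) := Nat.mul_le_mul a3.le hH2.le
      _ = 2 ^ (Nat.log 2 h + 1 + (h + 1)) := (pow_add _ _ _).symm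
      _ ≤ 2 ^ (8 * a) := Nat.pow_le_pow_right (by norm_num) e1
  exact good_of (by omega) hn8 (H.mt (n ^ 2) φ k Λ a (by omega) hN hlt)

theorem final2' (H : Hyp) (hL : HrLog) {K A lam : ℕ} {c0 : List (ℕ × ℕ)} {gs : List (ℕ × ℕ × List (ℕ × ℕ))}
    (hchk : chk2 K A lam c0 gs = true) (n : ℕ) (hn : 0 < n) (h : ℕ) (h4800 : 4800 ≤ h)
    (hH : 2 ^ h ≤ Nat.totient n) (hH2 : Nat.totient n < 2 ^ (h + 1)) : Good n := by
  unfold chk2 at hchk
  simp only [Bool.and_eq_true] at hchk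
  obtain ⟨c1, c2, c3, c4, c5, c6, c7, c8, c9, c10, c11⟩ := hchk
  have hA31 := Nat.le_of_ble_eq_true c1
  have hA := Nat.le_of_ble_eq_true c2
  have hAK := Nat.le_of_ble_eq_true c3
  have hK := Nat.le_of_ble_eq_true c4
  have hlev := Nat.le_of_ble_eq_true c8
  have e20 : ((20 * K - 1 : ℕ) : ℝ) = 20 * (K : ℝ) - 1 := by
    rw [Nat.cast_sub (by omega)]; push_cast; ring
  have hlam := Nat.le_of_ble_eq_true c5
  have hlam4 := Nat.le_of_ble_eq_true c6
  have hrD := Nat.le_of_ble_eq_true c10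
  have hineq := Nat.le_of_ble_eq_true c11
  have hlamr : (D : ℝ) * 9627 ≤ lam * (20 * (K : ℝ) - 1) := by
    rw [← e20]
    exact_mod_cast hlam
  have hlam4r : (lam : ℝ) ≤ 4 * D := by exact_mod_cast hlam4
  have hrDr : ((chR2 A c0 + 100000 : ℕ) : ℝ) ≤ D := by exact_mod_cast hrD
  have eD : ((D - (chR2 A c0 + 100000) : ℕ) : ℝ) = (D : ℝ) - ((chR2 A c0 + 100000 : ℕ) : ℝ) :=
    Nat.cast_sub hrD
  have eL : ((4 * D - lam : ℕ) : ℝ) = 4 * (D : ℝ) - lam := by rw [Nat.cast_sub hlam4, Nat.cast_mul]; norm_num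
  have hiq : ((grV2 K A A gs + 100000 + 1 : ℕ) : ℝ) * D ≤
      (4 * (D : ℝ) - lam) * ((D : ℝ) - ((chR2 A c0 + 100000 : ℕ) : ℝ)) := by
    rw [← eD, ← eL, ← Nat.cast_mul, ← Nat.cast_mul]
    exact Nat.cast_le.mpr hineq
  exact final2core H hL hA31 hA hAK hK hlamr hlam4r c7 hlev c9 (r := chR2 A c0 + 100000)
    (G := grV2 K A A gs + 100000 + 1) (by push_cast; ring) (by push_cast; ring) hrDr hiq n hn h h4800 hH hH2

theorem final2 (H : Hyp) (hL : HrLog) {K A lam : ℕ} {c0 : List (ℕ × ℕ)} {gs : List (ℕ × ℕ × List (ℕ × ℕ))}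
    (hchk : chk2 K A lam c0 gs = true) (n : ℕ) (hn : 0 < n) (h0 : ℕ) (h4800 : 4800 ≤ h0)
    (hφ : 2 ^ h0 ≤ Nat.totient n) : Good n := by
  have hφ0 : Nat.totient n ≠ 0 := (Nat.totient_pos.mpr hn).ne'
  exact final2' H hL hchk n hn (Nat.log 2 (Nat.totient n))
    (h4800.trans (Nat.le_log_of_pow_le (by norm_num) hφ)) (Nat.pow_log_le_self 2 hφ0)
    (Nat.lt_pow_succ_log_self (by norm_num) _)

end Pool.Agent.Helper1.SQ.C2
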