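import Pool.Agent.Helper1.SQ.C2a

/-!
# Project SQ: the asymptotic checker, tails of the chains (thirds)
-/

set_option autoImplicit false
open Finset

namespace Pool.Agent.Helper1.SQ.C2

open Pool.Agent.Helper1.SQ Pool.Agent.Helper1.SQ.C

def third (a : ℕ) : ℕ := max 4 (a / 3)

theorem small_tab : ∀ a ∈ List.range 39, 5 ≤ a → Su (third a) a ≤ 1320000000 ∧ IVu (third a) a ≤ 3800000000 := by
  decide +kernel

theorem third_bounds (H : Hyp) (hL : HrLog) {a : ℕ} (ha : 5 ≤ a) :
    sm (third a) a ≤ 1.32 ∧ 1 / vp (third a) a ≤ 3.8 := by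
  by_cases h39 : a < 39
  · obtain ⟨h1, h2⟩ := small_tab a (List.mem_range.mpr h39) ha
    have hb : 4 ≤ third a := le_max_left _ _
    have hba : third a ≤ a := by unfold third; omega
    have s1 := Su_ge H hb hba
    have s2 := IVu_ge H hb hba (by omega)
    have h1' : (Su (third a) a : ℝ) ≤ 1320000000 := by exact_mod_cast h1
    have h2' : (IVu (third a) a : ℝ) ≤ 3800000000 := by exact_mod_cast h2
    rw [D_val] at s1 s2
    constructor
    · linarith
    · have e : (1000000000 : ℝ) / vp (third a) a = 1000000000 * (1 / vp (third a) a) := by ring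
      rw [e] at s2
      linarith
  · have hb : third a = a / 3 := by unfold third; omega
    set b : ℕ := a / 3 with hbd
    rw [hb]
    have hb13 : 13 ≤ b := by omega
    have hba : b ≤ a := by omega
    have hab : a ≤ 3 * b + 2 := by omega
    have hbr : (13 : ℝ) ≤ b := by exact_mod_cast hb13
    have har : (a : ℝ) ≤ 3 * b + 2 := by exact_mod_cast hab
    have hbar : (b : ℝ) ≤ a := by exact_mod_cast hba
    have q1 : (2 * (a : ℝ) - 1) / (2 * b - 1) ≤ 3.24 := by
      rw [div_le_iff₀ (by linarith)]
      linarith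
    have q0 : 0 < (2 * (a : ℝ) - 1) / (2 * b - 1) := by
      apply div_pos <;> linarith
    have q2 : (1.55 : ℝ) / b ≤ 0.1193 := by
      rw [div_le_iff₀ (by linarith)]
      linarith
    have h1 := H.sumS b a hb13 hba
    have h2 := hL b a (by omega) hba
    have h3 : Real.log ((2 * (a : ℝ) - 1) / (2 * b - 1)) ≤ 1.2 := by
      refine (Real.log_le_log q0 q1).trans ?_
      rw [Real.log_le_iff_le_exp (by norm_num)]
      have := Real.quadratic_le_exp_of_nonneg (show (0 : ℝ) ≤ 1.2 by norm_num)
      have h4 : Real.exp 1.2 = Real.exp 0.4 ^ 3 := by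
        rw [← Real.exp_nat_mul]; norm_num
      have h5 := Real.quadratic_le_exp_of_nonneg (show (0 : ℝ) ≤ 0.4 by norm_num)
      have h6 : (1.48 : ℝ) ≤ Real.exp 0.4 := by norm_num at h5 ⊢; linarith
      rw [h4]
      calc (3.24 : ℝ) ≤ 1.48 ^ 3 := by norm_num
        _ ≤ Real.exp 0.4 ^ 3 := pow_le_pow_left₀ (by norm_num) h6 3
    have hs : sm b a ≤ 1.32 := by linarith
    refine ⟨hs, ?_⟩
    have hs0 := sm_nonneg b a
    have hpow : (8192 : ℝ) ≤ 2 ^ b := by
      calc (8192 : ℝ) = 2 ^ 13 := by norm_num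
        _ ≤ 2 ^ b := pow_le_pow_right₀ (by norm_num) hb13
    have hq : sm b a / 2 ^ b ≤ 0.0002 := by
      rw [div_le_iff₀ (by positivity)]
      linarith
    have hV := H.sumV b a hb13 hba 0.1195 (by linarith) (by norm_num)
    refine hV.trans ?_
    calc (2 * (a : ℝ) - 1) / (2 * b - 1) * (1 + 0.1195 + 0.1195 ^ 2) ≤ 3.24 * (1 + 0.1195 + 0.1195 ^ 2) :=
          mul_le_mul_of_nonneg_right q1 (by norm_num)
      _ ≤ 3.8 := by norm_num

noncomputable def rb (m : ℕ) : ℝ := 3.8 * 1.32 ^ (m + 1) / (m + 1).factorial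

theorem rb_nonneg (m : ℕ) : 0 ≤ rb m := by unfold rb; positivity

theorem rr_third (H : Hyp) (hL : HrLog) {a : ℕ} (ha : 5 ≤ a) (m : ℕ) : rr (third a) a m ≤ rb m := by
  obtain ⟨h1, h2⟩ := third_bounds H hL ha
  have hv := vp_pos (third a) a
  have hs := sm_nonneg (third a) a
  have hf : (0 : ℝ) < ((m + 1).factorial : ℝ) := by exact_mod_cast Nat.factorial_pos _
  unfold rr rb
  have e : sm (third a) a ^ (m + 1) / (((m + 1).factorial : ℝ) * vp (third a) a) =
      (1 / vp (third a) a) * sm (third a) a ^ (m + 1) / ((m + 1).factorial : ℝ) := by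
    field_simp
  rw [e]
  apply div_le_div_of_nonneg_right _ hf.le
  exact mul_le_mul h2 (pow_le_pow_left₀ hs h1 _) (by positivity) (by norm_num)

theorem rb_step {m : ℕ} (hm : 6 ≤ m) : rb m + 1.025 * rb (m + 2) ≤ 1.025 * rb m := by
  have hf : (0 : ℝ) < ((m + 1).factorial : ℝ) := by exact_mod_cast Nat.factorial_pos _
  have hm' : (6 : ℝ) ≤ m := by exact_mod_cast hm
  have e : rb (m + 2) = rb m * (1.7424 / (((m : ℝ) + 2) * (m + 3))) := by
    unfold rb
    have e1 : ((m + 2 + 1).factorial : ℝ) = ((m : ℝ) + 3) * ((m + 2) * ((m + 1).factorial : ℝ)) := by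
      rw [show m + 2 + 1 = (m + 1 + 1) + 1 from rfl, Nat.factorial_succ, Nat.factorial_succ (m + 1)]
      push_cast
      ring
    rw [e1, show m + 2 + 1 = (m + 1) + 2 from rfl, pow_add]
    field_simp
    norm_num
  have h2 : (1.7424 : ℝ) / (((m : ℝ) + 2) * (m + 3)) ≤ 1.7424 / 72 := by
    apply div_le_div_of_nonneg_left (by norm_num) (by norm_num)
    nlinarith
  rw [e]
  have h3 := rb_nonneg m
  have h4 : rb m * (1.7424 / (((m : ℝ) + 2) * (m + 3))) ≤ rb m * (1.7424 / 72) :=
    mul_le_mul_of_nonneg_left h2 h3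
  norm_num at h4 ⊢
  nlinarith

theorem card_le_pow {b a : ℕ} (hba : b ≤ a) : (PB b a).card + 2 ^ b ≤ 2 ^ a := by
  have h1 : (PB b a).card ≤ (Ioc (2 ^ b) (2 ^ a)).card := Finset.card_filter_le _ _
  rw [Nat.card_Ioc] at h1
  have h2 : 2 ^ b ≤ 2 ^ a := Nat.pow_le_pow_right (by norm_num) hba
  omega

theorem card_real {b a : ℕ} (hba : b ≤ a) : ((PB b a).card : ℝ) + 1 ≤ 2 ^ a := by
  have h1 := card_le_pow hba
  have h2 : 1 ≤ 2 ^ b := Nat.one_le_two_pow
  exact_mod_cast (by omega : (PB b a).card + 1 ≤ 2 ^ a)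

/-- tails by thirds -/
theorem tail_aux (H : Hyp) (hL : HrLog) : ∀ a : ℕ, 4 ≤ a → ∀ m : ℕ, Even m → 6 ≤ m →
    ∃ P R E M : ℝ, Ch a P R E M ∧ P ≤ Real.exp (1.025 * rb m) ∧ R ≤ 1.025 * rb m ∧
      E ^ 2 ≤ 2 ^ (3 * (m + 1) * a) ∧ M ≤ 2 ^ (a + 1) := by
  intro a
  induction a using Nat.strong_induction_on with
  | _ a ih =>
    intro ha m hm hm6
    by_cases h4 : a = 4
    · subst h4
      have := rb_nonneg m
      refine ⟨1, 0, 1, 1, Ch.base, ?_, by positivity, ?_, by norm_num⟩
      · exact Real.one_le_exp (by positivity)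
      · rw [one_pow]; exact one_le_pow₀ (by norm_num)
    · have ha5 : 5 ≤ a := by omega
      have hb4 : 4 ≤ third a := le_max_left _ _
      have hba : third a < a := by unfold third; omega
      obtain ⟨P, R, E, M, hc, hP, hR, hE, hM⟩ := ih (third a) hba hb4 (m + 2) (hm.add (by norm_num)) (by omega)
      obtain ⟨p0, r0, e0, m0⟩ := Ch_nonneg hc
      have hrr := rr_third H hL ha5 m
      have hr0 := rr_nonneg (third a) a m
      have hst := rb_step hm6
      have hcd := card_real hba.le
      have hc0 : (0 : ℝ) ≤ ((PB (third a) a).card : ℝ) := Nat.cast_nonneg _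
      refine ⟨_, _, _, _, Ch.step a m hc hba hm, ?_, ?_, ?_, ?_⟩
      · calc P * (1 + rr (third a) a m) ≤ Real.exp (1.025 * rb (m + 2)) * Real.exp (rr (third a) a m) := by
              apply mul_le_mul hP _ (by positivity) (Real.exp_pos _).le
              have := Real.add_one_le_exp (rr (third a) a m)
              linarith
          _ = Real.exp (1.025 * rb (m + 2) + rr (third a) a m) := by rw [Real.exp_add]
          _ ≤ Real.exp (1.025 * rb m) := Real.exp_le_exp.mpr (by linarith)
      · linarith
      · by_cases hth : 12 ≤ a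
        · have e1 : third a = a / 3 := by unfold third; omega
          have h3 : 3 * third a ≤ a := by rw [e1]; omega
          calc (E * (((PB (third a) a).card : ℝ) + 1) ^ m) ^ 2 =
                E ^ 2 * ((((PB (third a) a).card : ℝ) + 1) ^ m) ^ 2 := by rw [mul_pow]
            _ ≤ 2 ^ (3 * (m + 2 + 1) * third a) * ((2 ^ a) ^ m) ^ 2 := by
                apply mul_le_mul hE _ (by positivity) (by positivity)
                apply pow_le_pow_left₀ (by positivity)
                exact pow_le_pow_left₀ (by positivity) hcd m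
            _ = 2 ^ (3 * (m + 2 + 1) * third a + a * m * 2) := by
                rw [pow_add, pow_mul (2 : ℝ) (a * m) 2, pow_mul (2 : ℝ) a m]
            _ ≤ 2 ^ (3 * (m + 1) * a) := by
                apply pow_le_pow_right₀ (by norm_num)
                nlinarith
        · have e1 : third a = 4 := by unfold third; omega
          -- the chain below is the trivial one up to its own bound; bound E directly
          have hE1 : E ^ 2 ≤ 2 ^ (3 * (m + 2 + 1) * 4) := by rw [e1] at hE; exact hE
          calc (E * (((PB (third a) a).card : ℝ) + 1) ^ m) ^ 2 =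
                E ^ 2 * ((((PB (third a) a).card : ℝ) + 1) ^ m) ^ 2 := by rw [mul_pow]
            _ ≤ 2 ^ (3 * (m + 1) * a) := by
                have hE' : E = 1 := by
                  rw [e1] at hc
                  have key : ∀ (x : ℕ) (P' R' E' M' : ℝ), Ch x P' R' E' M' → x = 4 → E' = 1 := by
                    intro x P' R' E' M' hx
                    induction hx with
                    | base => intro _; rfl
                    | step a' m' hc' hba' _ _ =>
                      intro h4'
                      have := Ch_four_le hc'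
                      omega
                  exact key 4 P R E M hc rfl
                rw [hE', one_pow, one_mul]
                calc ((((PB (third a) a).card : ℝ) + 1) ^ m) ^ 2 ≤ ((2 ^ a) ^ m) ^ 2 := by
                      apply pow_le_pow_left₀ (by positivity)
                      exact pow_le_pow_left₀ (by positivity) hcd m
                  _ = 2 ^ (a * m * 2) := by rw [pow_mul, pow_mul]
                  _ ≤ _ := by
                      apply pow_le_pow_right₀ (by norm_num)
                      nlinarith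
      · have h1 := card_le_pow hba.le
        have h2 : (((PB (third a) a).card : ℝ)) + 2 ^ (third a) ≤ 2 ^ a := by exact_mod_cast h1
        have h3 : 2 ^ (third a) + 1 ≤ 2 ^ a := by
          have : 2 ^ (third a) < 2 ^ a := Nat.pow_lt_pow_right (by norm_num) hba
          omega
        have h3' : (2 : ℝ) ^ (third a) + 1 ≤ 2 ^ a := by exact_mod_cast h3
        rw [pow_succ] at hM ⊢
        linarith

/-- tails with first level 6 -/
theorem tail (H : Hyp) (hL : HrLog) {a : ℕ} (ha : 4 ≤ a) :
    ∃ P R E M : ℝ, Ch a P R E M ∧ P ≤ 1.0055 ∧ R ≤ 0.0054 ∧ E ^ 2 ≤ 2 ^ (21 * a) ∧ M ≤ 2 ^ (a + 1) := by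
  obtain ⟨P, R, E, M, hc, hP, hR, hE, hM⟩ := tail_aux H hL a ha 6 (by decide) le_rfl
  have h6 : 1.025 * rb 6 ≤ 0.0054 := by
    unfold rb
    norm_num [Nat.factorial]
  refine ⟨P, R, E, M, hc, ?_, by linarith, ?_, hM⟩
  · refine hP.trans ?_
    refine (Real.exp_le_exp.mpr h6).trans ?_
    have := Real.exp_bound' (show (0 : ℝ) ≤ 0.0054 by norm_num) (by norm_num) (show 0 < 2 by norm_num)
    refine this.trans ?_
    norm_num [Finset.sum_range_succ, Nat.factorial]
  · simpa using hE

end Pool.Agent.Helper1.SQ.C2
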