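import Pool.Agent.Helper1.SQ.C2b

/-!
# Project SQ: the asymptotic certificate (slack 0.051)
-/

set_option autoImplicit false

namespace Pool.Agent.Helper1.SQ.C2

def gs2 : List (ℕ × ℕ × List (ℕ × ℕ)) :=
  [(43, 31, [(19, 2), (7, 4), (3, 4), (1, 6)]), (55, 31, [(17, 2), (6, 4), (3, 4), (1, 6)]), (67, 31, [(17, 2), (10, 2), (4, 4), (2, 4), (1, 4)]), (79, 31, [(16, 2), (9, 2), (3, 4), (1, 6)]), (91, 31, [(15, 2), (8, 2), (5, 2), (2, 4), (1, 4)]), (103, 27, [(13, 2), (8, 2), (5, 2), (2, 4), (1, 4)]), (115, 25, [(12, 2), (7, 2), (4, 2), (2, 4), (1, 4)]), (127, 23, [(11, 2), (6, 2), (2, 4), (1, 4)]), (139, 20, [(10, 2), (5, 2), (2, 4), (1, 4)]), (151, 16, [(8, 2), (5, 2), (2, 4), (1, 4)]), (163, 14, [(7, 2), (4, 2), (3, 2), (2, 2), (1, 4)]), (175, 13, [(6, 2), (3, 2), (2, 2), (1, 4)]), (187, 9, [(5, 2), (3, 2), (1, 4)]), (202, 6, [(3, 2), (1, 4)])]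

set_option maxRecDepth 100000 in
theorem cert2 : chk2 202 31 2383510771 [(19, 2), (8, 4), (6, 2), (3, 4), (1, 6)] gs2 = true := by decide +kernel

end Pool.Agent.Helper1.SQ.C2
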