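import Pool.Agent.Helper1.SQ.C1c

/-!
# Project SQ: certificates for `2^12 ≤ φ(n) < 2^707`
-/

set_option autoImplicit false

namespace Pool.Agent.Helper1.SQ.C

def certs0 : List Cert :=
  [⟨12, 12, 8, 31, 10, 4, [],
    [(10, 4, [])]⟩,
   ⟨13, 13, 8, 33, 11, 4, [],
    [(11, 4, [])]⟩,
   ⟨14, 14, 8, 35, 12, 4, [],
    [(12, 4, [])]⟩,
   ⟨15, 16, 9, 40, 13, 4, [],
    [(13, 4, [])]⟩,
   ⟨17, 18, 10, 44, 15, 4, [],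
    [(15, 4, [])]⟩,
   ⟨19, 21, 11, 50, 16, 4, [],
    [(16, 4, [])]⟩,
   ⟨22, 24, 11, 56, 19, 5, [(4, 2)],
    [(9, 5, [(4, 2)]), (19, 4, [])]⟩,
   ⟨25, 28, 13, 65, 22, 5, [(4, 2)],
    [(12, 5, [(4, 2)]), (22, 4, [])]⟩,
   ⟨29, 33, 14, 75, 26, 6, [(5, 2), (4, 2)],
    [(13, 6, [(4, 2)]), (26, 4, [])]⟩,
   ⟨34, 37, 15, 83, 30, 7, [(5, 2), (4, 2)],
    [(9, 7, [(5, 2), (4, 2)]), (13, 7, [(4, 2)]), (19, 6, [(4, 2)]), (30, 4, [])]⟩,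
   ⟨38, 41, 16, 91, 34, 7, [(4, 4)],
    [(13, 7, [(5, 2), (4, 2)]), (21, 7, [(4, 2)]), (34, 4, [])]⟩,
   ⟨42, 45, 17, 100, 38, 7, [(4, 4)],
    [(10, 7, [(4, 4)]), (13, 7, [(5, 2), (4, 2)]), (25, 7, [(4, 2)]), (38, 4, [])]⟩,
   ⟨46, 50, 18, 110, 42, 8, [(4, 4)],
    [(11, 8, [(4, 4)]), (13, 8, [(6, 2), (4, 2)]), (26, 8, [(4, 2)]), (32, 5, [(4, 2)]), (42, 4, [])]⟩,
   ⟨51, 55, 19, 120, 46, 9, [(4, 4)],
    [(13, 9, [(4, 4)]), (24, 9, [(5, 2), (4, 2)]), (33, 7, [(4, 2)]), (46, 4, [])]⟩,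
   ⟨56, 61, 21, 132, 51, 9, [(8, 2), (4, 4)],
    [(13, 9, [(4, 4)]), (28, 9, [(5, 2), (4, 2)]), (38, 7, [(4, 2)]), (51, 4, [])]⟩,
   ⟨62, 67, 22, 144, 57, 10, [(5, 4), (4, 2)],
    [(13, 10, [(5, 4), (4, 2)]), (30, 10, [(6, 2), (4, 2)]), (39, 9, [(4, 2)]), (46, 6, [(4, 2)]), (57, 4, [])]⟩,
   ⟨68, 74, 24, 159, 63, 11, [(5, 4), (4, 4)],
    [(13, 11, [(5, 4), (4, 2)]), (34, 11, [(6, 2), (4, 2)]), (45, 9, [(4, 2)]), (51, 6, [(4, 2)]), (63, 4, [])]⟩,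
   ⟨75, 81, 25, 173, 70, 12, [(6, 4), (5, 2), (4, 2)],
    [(13, 12, [(6, 4), (5, 2), (4, 2)]), (32, 12, [(7, 2), (5, 2), (4, 2)]), (41, 11, [(6, 2), (4, 2)]), (52, 9, [(4, 2)]), (58, 6, [(4, 2)]), (70, 4, [])]⟩,
   ⟨82, 89, 27, 189, 77, 13, [(6, 4), (4, 4)],
    [(35, 13, [(8, 2), (5, 2), (4, 2)]), (46, 12, [(6, 2), (4, 2)]), (58, 9, [(4, 2)]), (65, 6, [(4, 2)]), (77, 4, [])]⟩,
   ⟨90, 98, 29, 207, 84, 13, [(4, 6)],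
    [(33, 13, [(5, 4), (4, 2)]), (50, 13, [(7, 2), (4, 2)]), (60, 10, [(5, 2), (4, 2)]), (71, 7, [(4, 2)]), (84, 4, [])]⟩,
   ⟨99, 107, 31, 225, 93, 15, [(7, 4), (4, 4)],
    [(41, 15, [(10, 2), (6, 2), (4, 2)]), (51, 15, [(8, 2), (4, 2)]), (63, 12, [(6, 2), (4, 2)]), (75, 9, [(4, 2)]), (81, 6, [(4, 2)]), (93, 4, [])]⟩,
   ⟨108, 117, 33, 246, 101, 16, [(8, 4), (4, 4)],
    [(36, 16, [(11, 2), (4, 4)]), (50, 16, [(9, 2), (5, 2), (4, 2)]), (58, 16, [(8, 2), (4, 2)]), (72, 12, [(6, 2), (4, 2)]), (84, 9, [(4, 2)]), (90, 6, [(4, 2)]), (101, 4, [])]⟩,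
   ⟨118, 128, 35, 268, 110, 17, [(9, 4), (4, 4)],
    [(39, 17, [(12, 2), (4, 4)]), (55, 17, [(10, 2), (6, 2), (4, 2)]), (65, 17, [(8, 2), (4, 2)]), (77, 13, [(7, 2), (4, 2)]), (87, 10, [(5, 2), (4, 2)]), (99, 7, [(4, 2)]), (110, 4, [])]⟩,
   ⟨129, 140, 37, 292, 121, 19, [(9, 4), (4, 4)],
    [(43, 19, [(13, 2), (9, 2), (6, 2), (4, 2)]), (59, 19, [(11, 2), (6, 2), (4, 2)]), (71, 19, [(9, 2), (4, 2)]), (87, 13, [(7, 2), (4, 2)]), (97, 10, [(5, 2), (4, 2)]), (109, 7, [(4, 2)]), (121, 4, [])]⟩,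
   ⟨141, 153, 40, 318, 132, 20, [(10, 4), (5, 4), (4, 2)],
    [(48, 20, [(13, 2), (5, 4), (4, 2)]), (70, 20, [(11, 2), (6, 2), (4, 2)]), (84, 16, [(9, 2), (5, 2), (4, 2)]), (100, 13, [(7, 2), (4, 2)]), (110, 10, [(5, 2), (4, 2)]), (122, 7, [(4, 2)]), (132, 4, [])]⟩,
   ⟨154, 167, 42, 346, 144, 22, [(11, 4), (5, 4), (4, 2)],
    [(43, 22, [(9, 4), (6, 2), (4, 2)]), (64, 22, [(13, 2), (8, 2), (5, 2), (4, 2)]), (79, 22, [(11, 2), (6, 2), (4, 2)]), (94, 17, [(9, 2), (5, 2), (4, 2)]), (112, 13, [(7, 2), (4, 2)]), (121, 10, [(5, 2), (4, 2)]), (133, 8, [(4, 2)]), (144, 4, [])]⟩,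
   ⟨168, 183, 45, 378, 157, 24, [(12, 4), (5, 4), (4, 2)],
    [(48, 24, [(9, 4), (6, 2), (4, 2)]), (75, 24, [(13, 2), (8, 2), (5, 2), (4, 2)]), (87, 24, [(12, 2), (6, 2), (4, 2)]), (105, 17, [(10, 2), (6, 2), (4, 2)]), (126, 13, [(7, 2), (4, 2)]), (135, 10, [(5, 2), (4, 2)]), (147, 8, [(4, 2)]), (157, 4, [])]⟩,
   ⟨184, 200, 48, 413, 172, 26, [(13, 4), (5, 4), (4, 2)],
    [(47, 26, [(10, 4), (4, 4)]), (74, 26, [(16, 2), (10, 2), (6, 2), (4, 2)]), (95, 26, [(13, 2), (7, 2), (4, 2)]), (110, 21, [(11, 2), (6, 2), (4, 2)]), (125, 16, [(9, 2), (5, 2), (4, 2)]), (143, 13, [(7, 2), (4, 2)]), (161, 9, [(4, 2)]), (172, 4, [])]⟩,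
   ⟨201, 216, 51, 445, 188, 28, [(12, 4), (6, 4), (4, 4)],
    [(52, 28, [(11, 4), (4, 4)]), (76, 28, [(17, 2), (11, 2), (7, 2), (5, 2), (4, 2)]), (92, 28, [(15, 2), (9, 2), (5, 2), (4, 2)]), (116, 24, [(13, 2), (7, 2), (4, 2)]), (136, 18, [(10, 2), (6, 2), (4, 2)]), (160, 13, [(7, 2), (4, 2)]), (176, 9, [(4, 2)]), (188, 5, [(4, 2)])]⟩,
   ⟨217, 236, 54, 485, 203, 31, [(13, 4), (6, 4), (4, 4)],
    [(67, 31, [(19, 2), (13, 2), (5, 4), (4, 2)]), (95, 31, [(17, 2), (10, 2), (6, 2), (4, 2)]), (119, 26, [(13, 2), (8, 2), (5, 2), (4, 2)]), (139, 21, [(12, 2), (7, 2), (4, 2)]), (155, 17, [(10, 2), (5, 2), (4, 2)]), (175, 13, [(7, 2), (4, 2)]), (191, 9, [(4, 2)]), (203, 5, [(4, 2)])]⟩,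
   ⟨237, 254, 58, 521, 218, 33, [(14, 4), (7, 4), (4, 4)],
    [(65, 33, [(20, 2), (9, 4), (4, 4)]), (89, 33, [(20, 2), (13, 2), (8, 2), (5, 2), (4, 2)]), (113, 33, [(16, 2), (10, 2), (6, 2), (4, 2)]), (141, 25, [(13, 2), (8, 2), (5, 2), (4, 2)]), (161, 21, [(12, 2), (6, 2), (4, 2)]), (177, 17, [(9, 2), (5, 2), (4, 2)]), (197, 13, [(6, 2), (4, 2)]), (218, 8, [(4, 2)])]⟩,
   ⟨255, 273, 61, 559, 234, 35, [(15, 4), (8, 4), (4, 4)],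
    [(75, 35, [(21, 2), (9, 4), (4, 4)]), (105, 35, [(19, 2), (13, 2), (8, 2), (5, 2), (4, 2)]), (125, 35, [(17, 2), (10, 2), (6, 2), (4, 2)]), (145, 27, [(15, 2), (10, 2), (6, 2), (4, 2)]), (170, 23, [(13, 2), (7, 2), (4, 2)]), (190, 17, [(10, 2), (6, 2), (4, 2)]), (215, 13, [(6, 2), (4, 2)]), (234, 8, [(4, 2)])]⟩,
   ⟨274, 294, 64, 601, 252, 38, [(16, 4), (8, 4), (4, 4)],
    [(78, 38, [(23, 2), (9, 4), (4, 4)]), (113, 38, [(21, 2), (13, 2), (8, 2), (6, 2), (4, 2)]), (133, 38, [(19, 2), (10, 2), (6, 2), (4, 2)]), (158, 29, [(16, 2), (10, 2), (6, 2), (4, 2)]), (188, 24, [(13, 2), (7, 2), (4, 2)]), (208, 18, [(10, 2), (6, 2), (4, 2)]), (233, 13, [(7, 2), (4, 2)]), (252, 9, [(4, 2)])]⟩,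
   ⟨295, 317, 68, 648, 271, 41, [(18, 4), (8, 4), (4, 4)],
    [(83, 41, [(25, 2), (10, 4), (4, 4)]), (119, 41, [(22, 2), (13, 2), (5, 4), (4, 2)]), (143, 41, [(20, 2), (11, 2), (6, 2), (4, 2)]), (173, 31, [(17, 2), (10, 2), (6, 2), (4, 2)]), (203, 23, [(13, 2), (8, 2), (5, 2), (4, 2)]), (227, 19, [(10, 2), (6, 2), (4, 2)]), (251, 13, [(7, 2), (4, 2)]), (271, 9, [(4, 2)])]⟩,
   ⟨318, 341, 72, 696, 286, 44, [(19, 4), (9, 4), (4, 4)],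
    [(80, 44, [(27, 2), (12, 4), (5, 4), (4, 2)]), (110, 44, [(24, 2), (9, 4), (6, 2), (5, 2), (4, 2)]), (146, 44, [(22, 2), (13, 2), (8, 2), (5, 2), (4, 2)]), (170, 35, [(19, 2), (12, 2), (8, 2), (5, 2), (4, 2)]), (200, 30, [(16, 2), (10, 2), (6, 2), (4, 2)]), (230, 25, [(13, 2), (7, 2), (4, 2)]), (254, 17, [(10, 2), (6, 2), (4, 2)]), (286, 11, [(6, 2), (4, 2)])]⟩,
   ⟨342, 367, 76, 748, 307, 47, [(20, 4), (10, 4), (4, 4)],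
    [(89, 47, [(29, 2), (12, 4), (5, 4), (4, 2)]), (131, 47, [(26, 2), (16, 2), (11, 2), (4, 4)]), (161, 47, [(23, 2), (13, 2), (8, 2), (5, 2), (4, 2)]), (191, 37, [(20, 2), (12, 2), (7, 2), (5, 2), (4, 2)]), (221, 30, [(16, 2), (10, 2), (6, 2), (4, 2)]), (251, 23, [(13, 2), (8, 2), (5, 2), (4, 2)]), (275, 18, [(10, 2), (6, 2), (4, 2)]), (307, 12, [(6, 2), (4, 2)])]⟩,
   ⟨368, 396, 81, 806, 331, 51, [(20, 4), (10, 4), (5, 4), (4, 2)],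
    [(100, 51, [(31, 2), (12, 4), (5, 4), (4, 2)]), (142, 51, [(28, 2), (17, 2), (11, 2), (4, 4)]), (170, 51, [(25, 2), (13, 2), (9, 2), (6, 2), (4, 2)]), (205, 39, [(21, 2), (13, 2), (8, 2), (5, 2), (4, 2)]), (240, 32, [(17, 2), (11, 2), (6, 2), (4, 2)]), (275, 24, [(13, 2), (8, 2), (5, 2), (4, 2)]), (303, 17, [(10, 2), (6, 2), (4, 2)]), (331, 13, [(6, 2), (4, 2)])]⟩,
   ⟨397, 426, 86, 866, 357, 55, [(22, 4), (10, 4), (5, 4), (4, 2)],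
    [(104, 55, [(34, 2), (13, 4), (5, 4), (4, 2)]), (146, 55, [(30, 2), (18, 2), (13, 2), (5, 4), (4, 2)]), (181, 55, [(27, 2), (15, 2), (10, 2), (6, 2), (4, 2)]), (223, 44, [(22, 2), (13, 2), (8, 2), (5, 2), (4, 2)]), (251, 35, [(19, 2), (12, 2), (7, 2), (5, 2), (4, 2)]), (286, 27, [(15, 2), (10, 2), (6, 2), (4, 2)]), (321, 21, [(12, 2), (6, 2), (4, 2)]), (357, 13, [(7, 2), (4, 2)])]⟩,
   ⟨427, 453, 90, 920, 384, 58, [(23, 4), (12, 4), (6, 4), (5, 2), (4, 2)],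
    [(98, 58, [(36, 2), (14, 4), (7, 4), (4, 4)]), (138, 58, [(32, 2), (12, 4), (5, 4), (4, 2)]), (178, 58, [(29, 2), (18, 2), (13, 2), (8, 2), (6, 2), (4, 2)]), (218, 47, [(26, 2), (16, 2), (11, 2), (7, 2), (5, 2), (4, 2)]), (266, 39, [(21, 2), (13, 2), (8, 2), (5, 2), (4, 2)]), (306, 30, [(16, 2), (10, 2), (6, 2), (4, 2)]), (346, 22, [(12, 2), (7, 2), (4, 2)]), (384, 13, [(7, 2), (4, 2)])]⟩,
   ⟨454, 488, 95, 991, 408, 62, [(24, 4), (12, 4), (6, 4), (5, 2), (4, 2)],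
    [(107, 62, [(38, 2), (15, 4), (7, 4), (4, 4)]), (152, 62, [(34, 2), (21, 2), (9, 4), (4, 4)]), (197, 62, [(31, 2), (19, 2), (12, 2), (7, 2), (5, 2), (4, 2)]), (242, 48, [(26, 2), (16, 2), (11, 2), (7, 2), (5, 2), (4, 2)]), (287, 41, [(22, 2), (13, 2), (8, 2), (5, 2), (4, 2)]), (323, 33, [(18, 2), (11, 2), (6, 2), (4, 2)]), (368, 24, [(13, 2), (7, 2), (4, 2)]), (408, 13, [(8, 2), (5, 2), (4, 2)])]⟩,
   ⟨489, 519, 100, 1053, 440, 66, [(26, 4), (13, 4), (6, 4), (4, 4)],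
    [(111, 66, [(41, 2), (16, 4), (8, 4), (4, 4)]), (174, 66, [(36, 2), (22, 2), (9, 4), (4, 4)]), (219, 66, [(33, 2), (18, 2), (12, 2), (8, 2), (5, 2), (4, 2)]), (264, 52, [(28, 2), (17, 2), (11, 2), (7, 2), (5, 2), (4, 2)]), (309, 46, [(23, 2), (13, 2), (8, 2), (5, 2), (4, 2)]), (354, 34, [(18, 2), (11, 2), (7, 2), (4, 2)]), (399, 25, [(13, 2), (7, 2), (4, 2)]), (440, 16, [(8, 2), (4, 2)])]⟩,
   ⟨520, 552, 105, 1119, 468, 70, [(28, 4), (12, 4), (4, 6)],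
    [(120, 70, [(43, 2), (17, 4), (9, 4), (4, 4)]), (180, 70, [(38, 2), (23, 2), (10, 4), (5, 4), (4, 2)]), (230, 70, [(35, 2), (19, 2), (13, 2), (9, 2), (6, 2), (4, 2)]), (280, 54, [(30, 2), (18, 2), (12, 2), (8, 2), (5, 2), (4, 2)]), (340, 46, [(23, 2), (13, 2), (8, 2), (5, 2), (4, 2)]), (390, 33, [(18, 2), (11, 2), (6, 2), (4, 2)]), (430, 25, [(13, 2), (7, 2), (4, 2)]), (468, 15, [(8, 2), (5, 2), (4, 2)])]⟩,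
   ⟨553, 587, 110, 1189, 486, 75, [(30, 4), (13, 4), (7, 4), (4, 4)],
    [(125, 75, [(46, 2), (18, 4), (9, 4), (4, 4)]), (185, 75, [(41, 2), (25, 2), (11, 4), (5, 4), (4, 2)]), (235, 75, [(37, 2), (20, 2), (8, 4), (5, 2), (4, 2)]), (285, 63, [(31, 2), (19, 2), (13, 2), (9, 2), (6, 2), (4, 2)]), (335, 50, [(27, 2), (16, 2), (11, 2), (7, 2), (5, 2), (4, 2)]), (385, 41, [(22, 2), (13, 2), (8, 2), (5, 2), (4, 2)]), (435, 30, [(16, 2), (10, 2), (6, 2), (4, 2)]), (486, 19, [(11, 2), (6, 2), (4, 2)])]⟩,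
   ⟨588, 624, 115, 1263, 517, 79, [(31, 4), (15, 4), (7, 4), (4, 4)],
    [(134, 79, [(49, 2), (19, 4), (9, 4), (4, 4)]), (200, 79, [(43, 2), (26, 2), (11, 4), (5, 4), (4, 2)]), (255, 79, [(39, 2), (21, 2), (8, 4), (5, 2), (4, 2)]), (310, 64, [(32, 2), (20, 2), (13, 2), (5, 4), (4, 2)]), (365, 52, [(26, 2), (16, 2), (11, 2), (4, 4)]), (420, 41, [(22, 2), (13, 2), (8, 2), (5, 2), (4, 2)]), (464, 31, [(17, 2), (10, 2), (6, 2), (4, 2)]), (517, 21, [(11, 2), (6, 2), (4, 2)])]⟩,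
   ⟨625, 664, 121, 1343, 562, 84, [(33, 4), (16, 4), (8, 4), (4, 4)],
    [(144, 84, [(52, 2), (20, 4), (10, 4), (4, 4)]), (216, 84, [(46, 2), (28, 2), (11, 4), (5, 4), (4, 2)]), (276, 77, [(38, 2), (23, 2), (10, 4), (4, 4)]), (336, 67, [(33, 2), (20, 2), (13, 2), (5, 4), (4, 2)]), (396, 52, [(28, 2), (17, 2), (11, 2), (4, 4)]), (456, 41, [(22, 2), (13, 2), (8, 2), (5, 2), (4, 2)]), (504, 30, [(16, 2), (10, 2), (6, 2), (4, 2)]), (562, 18, [(10, 2), (6, 2), (4, 2)])]⟩,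
   ⟨665, 706, 127, 1427, 598, 90, [(32, 4), (16, 4), (5, 6), (4, 2)],
    [(181, 90, [(50, 2), (20, 4), (10, 4), (4, 4)]), (246, 90, [(45, 2), (28, 2), (11, 4), (5, 4), (4, 2)]), (311, 78, [(39, 2), (24, 2), (9, 4), (4, 4)]), (376, 67, [(33, 2), (20, 2), (13, 2), (5, 4), (4, 2)]), (428, 56, [(28, 2), (17, 2), (11, 2), (4, 4)]), (493, 41, [(22, 2), (13, 2), (9, 2), (6, 2), (4, 2)]), (545, 30, [(16, 2), (10, 2), (6, 2), (4, 2)]), (598, 19, [(11, 2), (6, 2), (4, 2)])]⟩]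

set_option maxRecDepth 100000 in
theorem cover0 : cover 12 707 certs0 = true := by decide +kernel

end Pool.Agent.Helper1.SQ.C
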