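import Pool.Agent.Helper1.SQ.C1c

/-!
# Project SQ: certificates for `2^707 ≤ φ(n) < 2^1304`
-/

set_option autoImplicit false

namespace Pool.Agent.Helper1.SQ.C

def certs1 : List Cert :=
  [⟨707, 751, 134, 1518, 622, 95, [(38, 4), (16, 4), (9, 4), (4, 4)],
    [(160, 95, [(59, 2), (23, 4), (10, 4), (5, 4), (4, 2)]), (225, 95, [(52, 2), (32, 2), (14, 4), (7, 4), (5, 2), (4, 2)]), (290, 95, [(47, 2), (26, 2), (10, 4), (4, 4)]), (355, 80, [(40, 2), (22, 2), (9, 4), (4, 4)]), (420, 66, [(33, 2), (20, 2), (13, 2), (5, 4), (4, 2)]), (485, 52, [(26, 2), (16, 2), (11, 2), (4, 4)]), (550, 37, [(20, 2), (13, 2), (8, 2), (5, 2), (4, 2)]), (622, 25, [(13, 2), (7, 2), (4, 2)])]⟩,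
   ⟨752, 798, 140, 1612, 661, 101, [(40, 4), (17, 4), (9, 4), (4, 4)],
    [(199, 101, [(56, 2), (24, 4), (11, 4), (5, 4), (4, 2)]), (283, 101, [(50, 2), (31, 2), (13, 4), (5, 4), (4, 2)]), (353, 90, [(45, 2), (25, 2), (10, 4), (4, 4)]), (409, 74, [(37, 2), (23, 2), (10, 4), (4, 4)]), (465, 66, [(33, 2), (20, 2), (13, 2), (5, 4), (4, 2)]), (521, 52, [(28, 2), (17, 2), (12, 2), (8, 2), (5, 2), (4, 2)]), (591, 39, [(21, 2), (13, 2), (8, 2), (5, 2), (4, 2)]), (661, 24, [(13, 2), (8, 2), (5, 2), (4, 2)])]⟩,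
   ⟨799, 848, 147, 1712, 703, 108, [(39, 4), (19, 4), (10, 4), (5, 4), (4, 2)],
    [(213, 108, [(60, 2), (24, 4), (11, 4), (5, 4), (4, 2)]), (303, 108, [(54, 2), (30, 2), (13, 4), (6, 4), (5, 2), (4, 2)]), (378, 93, [(46, 2), (28, 2), (11, 4), (4, 4)]), (453, 77, [(38, 2), (23, 2), (9, 4), (4, 4)]), (513, 66, [(33, 2), (20, 2), (13, 2), (5, 4), (4, 2)]), (573, 52, [(28, 2), (17, 2), (11, 2), (7, 2), (5, 2), (4, 2)]), (633, 40, [(22, 2), (13, 2), (8, 2), (5, 2), (4, 2)]), (703, 26, [(13, 2), (8, 2), (5, 2), (4, 2)])]⟩,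
   ⟨849, 902, 155, 1820, 747, 114, [(41, 4), (20, 4), (11, 4), (5, 4), (4, 4)],
    [(178, 114, [(71, 2), (28, 4), (12, 4), (6, 4), (4, 4)]), (258, 114, [(63, 2), (39, 2), (17, 4), (8, 4), (4, 4)]), (338, 114, [(57, 2), (31, 2), (13, 4), (5, 4), (4, 2)]), (418, 93, [(46, 2), (28, 2), (12, 4), (5, 4), (4, 2)]), (498, 77, [(38, 2), (23, 2), (10, 4), (4, 4)]), (578, 62, [(31, 2), (19, 2), (13, 2), (5, 4), (4, 2)]), (674, 44, [(22, 2), (13, 2), (8, 2), (5, 2), (4, 2)]), (747, 27, [(15, 2), (9, 2), (5, 2), (4, 2)])]⟩,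
   ⟨903, 959, 162, 1934, 794, 121, [(44, 4), (22, 4), (11, 4), (5, 4), (4, 4)],
    [(189, 121, [(75, 2), (30, 4), (13, 4), (6, 4), (4, 4)]), (274, 121, [(67, 2), (41, 2), (18, 4), (9, 4), (4, 4)]), (359, 121, [(60, 2), (33, 2), (13, 4), (6, 4), (5, 2), (4, 2)]), (444, 102, [(51, 2), (28, 2), (12, 4), (5, 4), (4, 2)]), (546, 78, [(39, 2), (24, 2), (10, 4), (4, 4)]), (631, 62, [(31, 2), (19, 2), (13, 2), (5, 4), (4, 2)]), (716, 48, [(24, 2), (13, 2), (8, 2), (5, 2), (4, 2)]), (794, 28, [(15, 2), (10, 2), (6, 2), (4, 2)])]⟩,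
   ⟨960, 1020, 171, 2056, 844, 129, [(80, 2), (35, 4), (11, 6), (4, 6)],
    [(237, 129, [(71, 2), (28, 4), (15, 4), (8, 4), (4, 4)]), (327, 129, [(71, 2), (44, 2), (27, 2), (12, 4), (5, 4), (4, 2)]), (417, 122, [(61, 2), (33, 2), (13, 4), (5, 4), (4, 2)]), (507, 98, [(49, 2), (30, 2), (12, 4), (5, 4), (4, 2)]), (597, 79, [(39, 2), (24, 2), (10, 4), (4, 4)]), (687, 63, [(31, 2), (19, 2), (13, 2), (5, 4), (4, 2)]), (777, 47, [(23, 2), (13, 2), (8, 2), (5, 2), (4, 2)]), (844, 30, [(16, 2), (10, 2), (6, 2), (4, 2)])]⟩,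
   ⟨1021, 1084, 179, 2184, 898, 137, [(85, 2), (37, 4), (12, 6), (4, 6)],
    [(232, 137, [(85, 2), (53, 2), (23, 4), (12, 4), (6, 4), (4, 4)]), (327, 137, [(76, 2), (47, 2), (17, 4), (8, 4), (4, 4)]), (422, 137, [(68, 2), (37, 2), (23, 2), (10, 4), (4, 4)]), (517, 112, [(56, 2), (31, 2), (13, 4), (5, 4), (4, 2)]), (612, 91, [(45, 2), (25, 2), (11, 4), (5, 4), (4, 2)]), (707, 69, [(34, 2), (21, 2), (9, 4), (4, 4)]), (802, 52, [(26, 2), (16, 2), (11, 2), (7, 2), (5, 2), (4, 2)]), (898, 32, [(17, 2), (11, 2), (6, 2), (4, 2)])]⟩,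
   ⟨1085, 1152, 188, 2321, 954, 146, [(53, 4), (23, 4), (13, 4), (7, 4), (4, 4)],
    [(251, 146, [(91, 2), (56, 2), (24, 4), (12, 4), (6, 4), (4, 4)]), (335, 146, [(81, 2), (50, 2), (20, 4), (9, 4), (4, 4)]), (440, 146, [(73, 2), (40, 2), (25, 2), (11, 4), (4, 4)]), (545, 121, [(60, 2), (33, 2), (13, 4), (5, 4), (4, 2)]), (650, 94, [(47, 2), (29, 2), (11, 4), (5, 4), (4, 2)]), (755, 73, [(36, 2), (22, 2), (9, 4), (4, 4)]), (860, 52, [(28, 2), (17, 2), (11, 2), (7, 2), (5, 2), (4, 2)]), (954, 34, [(18, 2), (11, 2), (7, 2), (4, 2)])]⟩,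
   ⟨1153, 1225, 198, 2467, 1014, 155, [(56, 4), (24, 4), (8, 6), (4, 4)],
    [(265, 155, [(96, 2), (60, 2), (24, 4), (13, 4), (7, 4), (4, 4)]), (353, 155, [(86, 2), (53, 2), (21, 4), (10, 4), (4, 4)]), (463, 155, [(77, 2), (42, 2), (26, 2), (11, 4), (5, 4), (4, 4)]), (573, 131, [(65, 2), (36, 2), (13, 4), (5, 4), (4, 2)]), (683, 102, [(51, 2), (31, 2), (12, 4), (5, 4), (4, 2)]), (793, 79, [(39, 2), (24, 2), (10, 4), (4, 4)]), (903, 56, [(31, 2), (19, 2), (13, 2), (8, 2), (5, 2), (4, 2)]), (1014, 34, [(18, 2), (12, 2), (8, 2), (5, 2), (4, 2)])]⟩,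
   ⟨1226, 1303, 208, 2623, 1078, 164, [(59, 4), (26, 4), (8, 6), (4, 4)],
    [(302, 164, [(91, 2), (36, 4), (18, 4), (9, 4), (4, 4)]), (417, 164, [(91, 2), (50, 2), (20, 4), (10, 4), (4, 4)]), (509, 161, [(80, 2), (44, 2), (27, 2), (12, 4), (5, 4), (4, 2)]), (624, 130, [(65, 2), (40, 2), (25, 2), (11, 4), (5, 4), (4, 2)]), (739, 109, [(54, 2), (30, 2), (12, 4), (5, 4), (4, 2)]), (854, 84, [(42, 2), (23, 2), (10, 4), (4, 4)]), (969, 58, [(29, 2), (18, 2), (13, 2), (5, 4), (4, 2)]), (1078, 37, [(20, 2), (12, 2), (7, 2), (5, 2), (4, 2)])]⟩]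

set_option maxRecDepth 100000 in
theorem cover1 : cover 707 1304 certs1 = true := by decide +kernel

end Pool.Agent.Helper1.SQ.C
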