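import Pool.Agent.Helper1.SQ.C1c

/-!
# Project SQ: certificates for `2^1304 ≤ φ(n) < 2^2001`
-/

set_option autoImplicit false

namespace Pool.Agent.Helper1.SQ.C

def certs2 : List Cert :=
  [⟨1304, 1385, 219, 2787, 1147, 175, [(109, 2), (48, 4), (24, 4), (8, 6), (4, 4)],
    [(325, 175, [(97, 2), (38, 4), (19, 4), (9, 4), (4, 4)]), (450, 175, [(87, 2), (54, 2), (21, 4), (11, 4), (5, 4), (4, 2)]), (575, 163, [(81, 2), (45, 2), (28, 2), (12, 4), (5, 4), (4, 2)]), (675, 136, [(68, 2), (42, 2), (26, 2), (11, 4), (5, 4), (4, 2)]), (800, 112, [(56, 2), (31, 2), (13, 4), (5, 4), (4, 2)]), (925, 83, [(41, 2), (25, 2), (11, 4), (4, 4)]), (1025, 64, [(32, 2), (20, 2), (13, 2), (5, 4), (4, 2)]), (1147, 39, [(21, 2), (13, 2), (8, 2), (5, 2), (4, 2)])]⟩,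
   ⟨1386, 1472, 230, 2961, 1219, 186, [(116, 2), (51, 4), (25, 4), (8, 6), (7, 2), (4, 4)],
    [(321, 186, [(103, 2), (41, 4), (20, 4), (11, 4), (6, 4), (4, 4)]), (456, 186, [(103, 2), (57, 2), (22, 4), (12, 4), (5, 4), (4, 2)]), (591, 179, [(89, 2), (49, 2), (30, 2), (13, 4), (5, 4), (4, 2)]), (726, 148, [(74, 2), (41, 2), (25, 2), (11, 4), (5, 4), (4, 2)]), (861, 119, [(59, 2), (32, 2), (12, 4), (5, 4), (4, 2)]), (996, 86, [(43, 2), (26, 2), (10, 4), (4, 4)]), (1104, 65, [(32, 2), (20, 2), (13, 2), (5, 4), (4, 2)]), (1219, 43, [(21, 2), (13, 2), (8, 2), (5, 2), (4, 2)])]⟩,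
   ⟨1473, 1565, 242, 3147, 1296, 197, [(123, 2), (54, 4), (27, 4), (9, 6), (5, 4), (4, 2)],
    [(365, 197, [(109, 2), (43, 4), (19, 4), (10, 4), (5, 4), (4, 4)]), (505, 197, [(98, 2), (61, 2), (24, 4), (12, 4), (5, 4), (4, 4)]), (645, 185, [(92, 2), (51, 2), (31, 2), (13, 4), (6, 4), (5, 2), (4, 2)]), (785, 155, [(77, 2), (42, 2), (26, 2), (11, 4), (5, 4), (4, 2)]), (925, 123, [(61, 2), (33, 2), (13, 4), (5, 4), (4, 2)]), (1065, 93, [(46, 2), (25, 2), (10, 4), (4, 4)]), (1177, 69, [(34, 2), (21, 2), (13, 2), (5, 4), (4, 2)]), (1296, 46, [(23, 2), (13, 2), (8, 2), (5, 2), (4, 2)])]⟩,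
   ⟨1566, 1664, 254, 3345, 1378, 210, [(131, 2), (52, 4), (28, 4), (11, 6), (4, 6)],
    [(360, 210, [(116, 2), (46, 4), (23, 4), (13, 4), (7, 4), (4, 4)]), (510, 210, [(116, 2), (64, 2), (25, 4), (13, 4), (7, 4), (4, 4)]), (630, 201, [(100, 2), (55, 2), (22, 4), (10, 4), (5, 4), (4, 2)]), (780, 175, [(87, 2), (48, 2), (30, 2), (13, 4), (6, 4), (5, 2), (4, 2)]), (930, 143, [(71, 2), (39, 2), (24, 2), (11, 4), (5, 4), (4, 2)]), (1080, 108, [(54, 2), (30, 2), (12, 4), (5, 4), (4, 2)]), (1230, 76, [(38, 2), (21, 2), (9, 4), (4, 4)]), (1378, 47, [(23, 2), (13, 2), (5, 4), (4, 2)])]⟩,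
   ⟨1665, 1769, 267, 3556, 1465, 223, [(139, 2), (61, 4), (27, 4), (10, 6), (6, 4), (4, 4)],
    [(383, 223, [(123, 2), (49, 4), (24, 4), (8, 6), (4, 4)]), (543, 223, [(123, 2), (68, 2), (27, 4), (13, 4), (7, 4), (4, 4)]), (703, 207, [(103, 2), (57, 2), (22, 4), (10, 4), (5, 4), (4, 2)]), (863, 179, [(89, 2), (49, 2), (30, 2), (13, 4), (6, 4), (5, 2), (4, 2)]), (1023, 145, [(72, 2), (40, 2), (25, 2), (11, 4), (4, 4)]), (1151, 115, [(57, 2), (31, 2), (13, 4), (5, 4), (4, 2)]), (1311, 78, [(39, 2), (24, 2), (9, 4), (4, 4)]), (1465, 48, [(24, 2), (15, 2), (10, 2), (4, 4)])]⟩,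
   ⟨1770, 1881, 281, 3780, 1557, 237, [(148, 2), (59, 4), (32, 4), (11, 6), (4, 6)],
    [(441, 237, [(131, 2), (47, 4), (23, 4), (13, 4), (7, 4), (4, 4)]), (645, 237, [(118, 2), (65, 2), (26, 4), (13, 4), (7, 4), (4, 4)]), (781, 212, [(106, 2), (58, 2), (23, 4), (11, 4), (5, 4), (4, 2)]), (951, 184, [(92, 2), (51, 2), (31, 2), (13, 4), (5, 4), (4, 2)]), (1121, 145, [(72, 2), (40, 2), (25, 2), (11, 4), (5, 4), (4, 2)]), (1257, 115, [(57, 2), (31, 2), (13, 4), (5, 4), (4, 2)]), (1393, 83, [(41, 2), (25, 2), (10, 4), (4, 4)]), (1557, 50, [(27, 2), (16, 2), (11, 2), (7, 2), (5, 2), (4, 2)])]⟩,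
   ⟨1882, 2000, 296, 4018, 1656, 252, [(157, 2), (69, 4), (30, 4), (12, 6), (4, 6)],
    [(468, 252, [(140, 2), (50, 4), (25, 4), (13, 4), (7, 4), (4, 4)]), (648, 252, [(126, 2), (78, 2), (31, 4), (13, 4), (6, 4), (5, 2), (4, 2)]), (828, 227, [(113, 2), (62, 2), (24, 4), (11, 4), (5, 4), (4, 2)]), (1008, 190, [(95, 2), (52, 2), (20, 4), (9, 4), (4, 4)]), (1188, 157, [(78, 2), (43, 2), (26, 2), (11, 4), (5, 4), (4, 2)]), (1368, 115, [(57, 2), (31, 2), (13, 4), (5, 4), (4, 2)]), (1512, 81, [(40, 2), (25, 2), (10, 4), (4, 4)]), (1656, 52, [(28, 2), (17, 2), (12, 2), (8, 2), (5, 2), (4, 2)])]⟩]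

set_option maxRecDepth 100000 in
theorem cover2 : cover 1304 2001 certs2 = true := by decide +kernel

end Pool.Agent.Helper1.SQ.C
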