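import Pool.Agent.Helper1.SQ.C1c

/-!
# Project SQ: certificates for `2^2556 ≤ φ(n) < 2^3072`
-/

set_option autoImplicit false

namespace Pool.Agent.Helper1.SQ.C

def certs4 : List Cert :=
  [⟨2556, 2717, 381, 5453, 2249, 341, [(213, 2), (85, 4), (42, 4), (16, 6), (11, 4), (4, 6)],
    [(586, 341, [(189, 2), (75, 4), (33, 4), (11, 6), (6, 4), (4, 4)]), (831, 341, [(170, 2), (106, 2), (42, 4), (21, 4), (11, 4), (5, 4), (4, 4)]), (1076, 323, [(161, 2), (89, 2), (55, 2), (22, 4), (11, 4), (5, 4), (4, 2)]), (1321, 272, [(136, 2), (75, 2), (46, 2), (18, 4), (9, 4), (4, 4)]), (1566, 212, [(106, 2), (58, 2), (23, 4), (11, 4), (5, 4), (4, 2)]), (1811, 168, [(84, 2), (46, 2), (28, 2), (12, 4), (5, 4), (4, 2)]), (2056, 112, [(56, 2), (31, 2), (12, 4), (5, 4), (4, 2)]), (2249, 68, [(34, 2), (21, 2), (9, 4), (4, 4)])]⟩,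
   ⟨2718, 2888, 401, 5795, 2391, 363, [(226, 2), (90, 4), (45, 4), (16, 6), (4, 8)],
    [(628, 363, [(201, 2), (80, 4), (35, 4), (11, 6), (6, 4), (4, 4)]), (893, 363, [(181, 2), (113, 2), (45, 4), (20, 4), (11, 4), (5, 4), (4, 2)]), (1158, 341, [(170, 2), (94, 2), (58, 2), (23, 4), (11, 4), (5, 4), (4, 2)]), (1423, 281, [(140, 2), (77, 2), (48, 2), (21, 4), (10, 4), (5, 4), (4, 2)]), (1688, 220, [(110, 2), (61, 2), (24, 4), (11, 4), (5, 4), (4, 2)]), (1953, 173, [(86, 2), (47, 2), (29, 2), (12, 4), (5, 4), (4, 2)]), (2165, 124, [(62, 2), (34, 2), (13, 4), (5, 4), (4, 2)]), (2391, 73, [(36, 2), (22, 2), (9, 4), (4, 4)])]⟩,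
   ⟨2889, 3071, 422, 6161, 2542, 386, [(241, 2), (96, 4), (48, 4), (17, 6), (7, 6), (4, 4)],
    [(666, 386, [(214, 2), (85, 4), (37, 4), (12, 6), (6, 4), (4, 4)]), (946, 386, [(193, 2), (120, 2), (48, 4), (21, 4), (11, 4), (5, 4), (4, 4)]), (1226, 356, [(178, 2), (98, 2), (61, 2), (27, 4), (13, 4), (7, 4), (4, 4)]), (1506, 300, [(150, 2), (83, 2), (51, 2), (22, 4), (11, 4), (5, 4), (4, 2)]), (1786, 241, [(120, 2), (66, 2), (41, 2), (18, 4), (9, 4), (4, 4)]), (2066, 178, [(89, 2), (49, 2), (19, 4), (9, 4), (4, 4)]), (2290, 136, [(68, 2), (37, 2), (23, 2), (10, 4), (4, 4)]), (2542, 80, [(40, 2), (22, 2), (9, 4), (4, 4)])]⟩]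

set_option maxRecDepth 100000 in
theorem cover4 : cover 2556 3072 certs4 = true := by decide +kernel

end Pool.Agent.Helper1.SQ.C
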