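import Pool.Agent.Helper1.SQ.C1c

/-!
# Project SQ: certificates for `2^3072 ≤ φ(n) < 2^3691`
-/

set_option autoImplicit false

namespace Pool.Agent.Helper1.SQ.C

def certs5 : List Cert :=
  [⟨3072, 3265, 444, 6549, 2703, 410, [(256, 2), (102, 4), (51, 4), (18, 6), (12, 4), (4, 6)],
    [(770, 410, [(227, 2), (82, 4), (36, 4), (18, 4), (7, 6), (4, 4)]), (1070, 410, [(205, 2), (113, 2), (45, 4), (22, 4), (8, 6), (7, 2), (4, 4)]), (1370, 368, [(184, 2), (102, 2), (63, 2), (25, 4), (13, 4), (6, 4), (4, 4)]), (1610, 317, [(158, 2), (87, 2), (54, 2), (24, 4), (11, 4), (5, 4), (4, 2)]), (1910, 246, [(123, 2), (68, 2), (27, 4), (13, 4), (6, 4), (5, 2), (4, 2)]), (2210, 187, [(93, 2), (51, 2), (20, 4), (9, 4), (4, 4)]), (2450, 134, [(67, 2), (41, 2), (25, 2), (12, 4), (5, 4), (4, 2)]), (2703, 82, [(41, 2), (25, 2), (10, 4), (4, 4)])]⟩,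
   ⟨3266, 3471, 467, 6961, 2874, 436, [(272, 2), (108, 4), (54, 4), (18, 6), (8, 6), (5, 4), (4, 4)],
    [(814, 436, [(242, 2), (88, 4), (39, 4), (19, 4), (11, 4), (6, 4), (4, 4)]), (1129, 436, [(218, 2), (121, 2), (48, 4), (24, 4), (8, 6), (4, 4)]), (1444, 395, [(197, 2), (109, 2), (68, 2), (27, 4), (13, 4), (6, 4), (5, 2), (4, 2)]), (1759, 324, [(162, 2), (90, 2), (56, 2), (24, 4), (12, 4), (6, 4), (5, 2), (4, 2)]), (2074, 261, [(130, 2), (72, 2), (45, 2), (18, 4), (9, 4), (4, 4)]), (2326, 202, [(101, 2), (56, 2), (22, 4), (10, 4), (4, 4)]), (2578, 155, [(77, 2), (42, 2), (26, 2), (11, 4), (5, 4), (4, 2)]), (2874, 90, [(45, 2), (25, 2), (10, 4), (4, 4)])]⟩,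
   ⟨3472, 3690, 492, 7399, 3055, 463, [(289, 2), (115, 4), (57, 4), (19, 6), (8, 6), (4, 6)],
    [(865, 463, [(257, 2), (93, 4), (41, 4), (20, 4), (7, 6), (4, 4)]), (1200, 463, [(231, 2), (128, 2), (51, 4), (25, 4), (9, 6), (5, 4), (4, 4)]), (1535, 417, [(208, 2), (115, 2), (71, 2), (28, 4), (15, 4), (8, 4), (4, 4)]), (1870, 342, [(171, 2), (95, 2), (59, 2), (26, 4), (13, 4), (7, 4), (4, 4)]), (2205, 274, [(137, 2), (76, 2), (47, 2), (20, 4), (10, 4), (5, 4), (4, 2)]), (2473, 214, [(107, 2), (59, 2), (23, 4), (11, 4), (5, 4), (4, 2)]), (2741, 164, [(82, 2), (45, 2), (28, 2), (12, 4), (5, 4), (4, 2)]), (3055, 93, [(46, 2), (28, 2), (11, 4), (4, 4)])]⟩]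

set_option maxRecDepth 100000 in
theorem cover5 : cover 3072 3691 certs5 = true := by decide +kernel

end Pool.Agent.Helper1.SQ.C
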