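import Pool.Agent.Helper1.SQ.C1c

/-!
# Project SQ: certificates for `2^4715 ≤ φ(n) < 2^5076`
-/

set_option autoImplicit false

namespace Pool.Agent.Helper1.SQ.C

def certs8 : List Cert :=
  [⟨4715, 5075, 643, 10170, 4149, 636, [(397, 2), (158, 4), (70, 4), (25, 6), (10, 6), (4, 6)],
    [(1188, 636, [(353, 2), (220, 2), (88, 4), (44, 4), (22, 4), (9, 6), (4, 6)]), (1648, 636, [(318, 2), (176, 2), (64, 4), (28, 4), (10, 6), (6, 4), (4, 4)]), (2016, 574, [(287, 2), (159, 2), (99, 2), (39, 4), (19, 4), (7, 6), (4, 4)]), (2476, 481, [(240, 2), (133, 2), (83, 2), (33, 4), (16, 4), (8, 4), (4, 4)]), (2936, 386, [(193, 2), (107, 2), (66, 2), (26, 4), (13, 4), (6, 4), (5, 2), (4, 2)]), (3396, 286, [(143, 2), (79, 2), (49, 2), (21, 4), (10, 4), (5, 4), (4, 2)]), (3764, 204, [(102, 2), (56, 2), (22, 4), (10, 4), (5, 4), (4, 2)]), (4149, 130, [(65, 2), (36, 2), (22, 2), (9, 4), (4, 4)])]⟩]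

set_option maxRecDepth 100000 in
theorem cover8 : cover 4715 5076 certs8 = true := by decide +kernel

end Pool.Agent.Helper1.SQ.C
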