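import Mathlib

/-!
# Project SQ (MP_36c81c_nt): for every `n ≥ 1` the interval `(n², n² + φ(n)]` contains an integer with at most
three prime factors.  Definitions and statements of the modules.
-/

set_option autoImplicit false
open Finset

namespace Pool.Agent.Helper1.SQ

/-- primes in `(2^i, 2^j]` -/
def PB (i j : ℕ) : Finset ℕ := (Ioc (2 ^ i) (2 ^ j)).filter Nat.Prime

/-- `∑ 1/p` over the primes in `(2^i, 2^j]` -/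
noncomputable def sm (i j : ℕ) : ℝ := ∑ p ∈ PB i j, (1 : ℝ) / p

/-- `∏ (1 - 1/p)` over the primes in `(2^i, 2^j]` -/
noncomputable def vp (i j : ℕ) : ℝ := ∏ p ∈ PB i j, (1 - (1 : ℝ) / p)

/-- integers of `(N, N+H]` divisible by `d`, coprime to `30030 = 2·3·5·7·11·13` and without prime factors in
`(16, 2^a]` -/
def cnt (N H d a : ℕ) : Finset ℕ :=
  (Ioc N (N + H)).filter (fun m => d ∣ m ∧ Nat.Coprime m 30030 ∧ ∀ q ∈ PB 4 a, ¬ q ∣ m)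

/-! ### SQ-D: discrepancy modulo 30030 -/

/-- `(D)`; note `φ(30030)/30030 = 192/1001`; the true constant is about `7.1` -/
def Disc : Prop := ∀ N H d : ℕ, 0 < d → Nat.Coprime d 30030 →
  |((((Ioc N (N + H)).filter (fun m => d ∣ m ∧ Nat.Coprime m 30030)).card : ℝ)) - 192 / 1001 * ((H : ℝ) / d)| ≤ 8

/-- consequence of `Disc` (primes above 16 are coprime to 30030) -/
def CardB : Prop := ∀ i1 i2 : ℕ, 4 ≤ i1 → i1 ≤ i2 →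
  ((PB i1 i2).card : ℝ) ≤ 192 / 1001 * (2 ^ i2 - 2 ^ i1) + 8

/-! ### SQ-BH: Brun-Hooley sieve -/

/-- `r` of the block `(2^i, 2^j]` truncated at the even level `m` -/
noncomputable def rr (i j m : ℕ) : ℝ := sm i j ^ (m + 1) / ((m + 1).factorial * vp i j)

/-- chains of blocks: `Ch a P R E M` says that there is a chain `4 = a_t < … < a_0 = a` of blocks
`(2^(a_(j+1)), 2^(a_j)]` with even levels `m_j` such that `P = ∏ (1 + r_j)`, `R = ∑ r_j`, `E = ∏ (c_j + 1)^(m_j)`,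
`M = 1 + ∑ (c_j + 1)`, where `c_j` is the number of primes of the block -/
inductive Ch : ℕ → ℝ → ℝ → ℝ → ℝ → Prop
  | base : Ch 4 1 0 1 1
  | step {b : ℕ} {P R E M : ℝ} (a m : ℕ) : Ch b P R E M → b < a → Even m →
      Ch a (P * (1 + rr b a m)) (R + rr b a m) (E * (((PB b a).card : ℝ) + 1) ^ m) (M + (((PB b a).card : ℝ) + 1))

/-- upper bound sieve -/
def BHUp : Prop := ∀ (a : ℕ) (P R E M : ℝ), Ch a P R E M →
  ∀ N H p : ℕ, 0 < p → Nat.Coprime p 30030 → (∀ q ∈ PB 4 a, ¬ q ∣ p) →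
  ((cnt N H p a).card : ℝ) ≤ 192 / 1001 * ((H : ℝ) / p) * vp 4 a * P + 8 * E

/-- lower bound sieve -/
def BHLow : Prop := ∀ (a : ℕ) (P R E M : ℝ), Ch a P R E M → R ≤ 1 →
  ∀ N H : ℕ, 192 / 1001 * (H : ℝ) * vp 4 a * (1 - R) - 8 * (E * M) ≤ ((cnt N H 1 a).card : ℝ)

/-! ### SQ-A: Mertens, explicit -/

/-- for dyadic points `≥ 2^13` -/
def MertA : Prop := ∀ i1 i2 : ℕ, 13 ≤ i1 → i1 ≤ i2 →
  ∑ p ∈ PB i1 i2, Real.log p / p ≤ ((i2 : ℝ) - i1) * Real.log 2 + 1.07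

/-! ### SQ-S: sums over blocks (consequences of `MertA`) -/

/-- harmonic sum `∑_{i1 ≤ i < i2} 1/i` -/
noncomputable def hr (i1 i2 : ℕ) : ℝ := ∑ i ∈ Ico i1 i2, (1 : ℝ) / i

def SumS : Prop := ∀ i1 i2 : ℕ, 13 ≤ i1 → i1 ≤ i2 → sm i1 i2 ≤ hr i1 i2 + 1.55 / i1

def SumW : Prop := ∀ i1 i2 k : ℕ, 13 ≤ i1 → i1 ≤ i2 → i2 ≤ k →
  ∑ i ∈ Ico i1 i2, ((k : ℝ) - i) * sm i (i + 1) ≤ k * hr i1 i2 - ((i2 : ℝ) - i1) + 1.55 * ((k : ℝ) - i1) / i1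

def SumV : Prop := ∀ i1 i2 : ℕ, 13 ≤ i1 → i1 ≤ i2 → ∀ x : ℝ, 1.55 / i1 + sm i1 i2 / 2 ^ i1 ≤ x → x ≤ 1 →
  1 / vp i1 i2 ≤ (2 * (i2 : ℝ) - 1) / (2 * i1 - 1) * (1 + x + x ^ 2)

/-- `∑_{i1 ≤ i < i2} 1/i ≤ log ((2 i2 - 1)/(2 i1 - 1))` -/
def HrLog : Prop := ∀ i1 i2 : ℕ, 1 ≤ i1 → i1 ≤ i2 →
  hr i1 i2 ≤ Real.log ((2 * (i2 : ℝ) - 1) / (2 * i1 - 1))

/-! ### SQ-T: tables for the blocks `(2^i, 2^(i+1)]`, `4 ≤ i < 13` -/

/-- `10^6 ∑ 1/p`, rounded up -/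
def tbS : ℕ → ℕ
  | 4 => 221675 | 5 => 148161 | 6 => 143814 | 7 => 125969 | 8 => 117024 | 9 => 101357 | 10 => 93399
  | 11 => 86630 | 12 => 78838 | _ => 0

/-- `10^6 ∏ (1 - 1/p)⁻¹`, rounded up -/
def tbV : ℕ → ℕ
  | 4 => 1254861 | 5 => 1161603 | 6 => 1155630 | 7 => 1134655 | 8 => 1124333 | 9 => 1106751 | 10 => 1097936
  | 11 => 1090510 | 12 => 1082037 | _ => 0

/-- number of primes -/
def tbC : ℕ → ℕ
  | 4 => 5 | 5 => 7 | 6 => 13 | 7 => 23 | 8 => 43 | 9 => 75 | 10 => 137 | 11 => 255 | 12 => 464 | _ => 0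

def Tab : Prop := ∀ i : ℕ, 4 ≤ i → i < 13 →
  sm i (i + 1) ≤ (tbS i : ℝ) / 10 ^ 6 ∧ 1 / vp i (i + 1) ≤ (tbV i : ℝ) / 10 ^ 6 ∧ (PB i (i + 1)).card ≤ tbC i

/-! ### SQ-W, SQ-L: weights and the totient -/

def Wt : Prop := ∀ k Λ m : ℕ, 0 < m → m < 2 ^ (Λ + 1) →
  k * ArithmeticFunction.cardFactors m ≤ ∑ p ∈ m.primeFactors, m.factorization p * (k - Nat.log 2 p) + Λ

def TotL : Prop := ∀ L B n : ℕ, 0 < n → B ≤ L.factorial → Nat.totient n < B → n ≤ L * Nat.totient n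

/-! ### SQ-K: kernel range -/

def KR : Prop := ∀ n : ℕ, 0 < n → n < 28672 →
  ∃ m : ℕ, n ^ 2 < m ∧ m ≤ n ^ 2 + Nat.totient n ∧ ArithmeticFunction.cardFactors m ≤ 3

/-! ### SQ-M, SQ-HP: the weighted sieve -/

/-- `∑_{j ≥ 2} #{m ∈ S : p^j ∣ m}` -/
noncomputable def hpw (N H a p : ℕ) : ℕ := ∑ m ∈ cnt N H 1 a, (m.factorization p - 1)

/-- master inequality -/
def MT : Prop := ∀ N H k Λ a : ℕ, 4 ≤ a → N + H < 2 ^ (Λ + 1) →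
  ∑ i ∈ Ico a k, ((k : ℝ) - i) * ∑ p ∈ PB i (i + 1), (((cnt N H p a).card : ℝ) + hpw N H a p) <
    (4 * (k : ℝ) - Λ) * ((cnt N H 1 a).card : ℝ) →
  ∃ m ∈ Ioc N (N + H), ArithmeticFunction.cardFactors m ≤ 3

/-- higher prime powers, block by block (`Λ / i - 2` is computed in `ℕ`) -/
def HPb : Prop := ∀ N H Λ a i : ℕ, 4 ≤ a → a ≤ i → N + H < 2 ^ (Λ + 1) →
  ∑ p ∈ PB i (i + 1), (hpw N H a p : ℝ) ≤
    min (192 / 1001 * (H : ℝ) * sm i (i + 1) / 2 ^ i + 8 * ((PB i (i + 1)).card : ℝ))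
      ((H : ℝ) * sm i (i + 1) / 2 ^ i + ((PB i (i + 1)).card : ℝ)) +
    ((H : ℝ) * sm i (i + 1) / 4 ^ i + ((PB i (i + 1)).card : ℝ) * ((Λ / i - 2 : ℕ) : ℝ))

/-! ### target -/

def Target : Prop := ∀ n : ℕ, 0 < n →
  ∃ m : ℕ, n ^ 2 < m ∧ m ≤ n ^ 2 + Nat.totient n ∧ ArithmeticFunction.cardFactors m ≤ 3

end Pool.Agent.Helper1.SQ
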