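import Pool.Agent.Helper1.SQ.C1b
import Pool.Agent.Helper15.SQ.K

/-!
# Project SQ: the range `n < 28672` with large prime factors (variant of helper15's `kr`)
-/

set_option autoImplicit false
open Finset

namespace Pool.Agent.Helper1.SQ.C

open Pool.Agent.Helper15.SQ

theorem fin8 {n q P k : ℕ} (hn : 0 < n) (hP : ∀ p, p < q → p.Prime → p ∣ P) (hq : n + 1 ≤ q ^ 2)
    (hf : findj P (n ^ 2) k = true) (hk : k ≤ Nat.totient n) : Good n := by
  obtain ⟨j, h1, h2, h3⟩ := findj_spec P k _ hf
  refine ⟨n ^ 2 + j, by omega, by omega, omega_le hP h3 (by omega) ?_, fun p hp hpm => ?_⟩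
  · have h4 : Nat.totient n ≤ n := Nat.totient_le n
    have h5 : (n + 1) ^ 2 ≤ (q ^ 2) ^ 2 := Nat.pow_le_pow_left hq 2
    rw [← pow_mul] at h5
    norm_num at h5
    nlinarith
  · have hqp : q ≤ p := by
      by_contra hlt
      rw [not_le] at hlt
      have h4 : p ∣ Nat.gcd (n ^ 2 + j) P := Nat.dvd_gcd hpm (hP p hlt hp)
      rw [h3] at h4
      exact hp.one_lt.ne' (Nat.dvd_one.mp h4)
    have h5 : q ^ 2 ≤ p ^ 2 := Nat.pow_le_pow_left hqp 2
    have h6 : p ^ 2 ≤ p ^ 8 := Nat.pow_le_pow_right hp.pos (by norm_num)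
    omega

theorem kr8 (n : ℕ) (hn : 0 < n) (h28 : n < 28672) : Good n := by
  rcases Nat.lt_or_ge n 512 with h | h
  · have hc := allB_spec chkS 9 0 chkS_all n (by omega) (by norm_num; omega)
    rw [chkS, Bool.or_eq_true, Bool.and_eq_true, Nat.beq_eq, Nat.ble_eq, tc_self] at hc
    rcases hc with hc | hc
    · omega
    · exact fin8 hn (seg_spec n) hc.1 hc.2 le_rfl
  have hT : n ≤ 8 * Nat.totient n :=
    Pool.Agent.Helper1.SQ.totL 8 28672 n hn (by decide) (lt_of_le_of_lt (Nat.totient_le n) h28)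
  rcases Nat.lt_or_ge n 2048 with h1 | h1
  · have hc : chkM n = true := by
      rcases Nat.lt_or_ge n 1536 with h2 | h2
      · exact allB_spec chkM 10 512 chkM_1 n h (by norm_num; omega)
      · exact allB_spec chkM 9 1536 chkM_2 n h2 (by norm_num; omega)
    exact fin8 (k := 64) hn hP47 (by norm_num; omega) hc (by omega)
  · have hc : chkL n = true := by
      rcases Nat.lt_or_ge n 4096 with h2 | h2
      · exact allB_spec chkL 11 2048 chkL_1 n h1 (by norm_num; omega)
      rcases Nat.lt_or_ge n 8192 with h3 | h3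
      · exact allB_spec chkL 12 4096 chkL_2 n h2 (by norm_num; omega)
      rcases Nat.lt_or_ge n 12288 with h4 | h4
      · exact allB_spec chkL 12 8192 chkL_3 n h3 (by norm_num; omega)
      rcases Nat.lt_or_ge n 16384 with h5 | h5
      · exact allB_spec chkL 12 12288 chkL_4 n h4 (by norm_num; omega)
      rcases Nat.lt_or_ge n 20480 with h6 | h6
      · exact allB_spec chkL 12 16384 chkL_5 n h5 (by norm_num; omega)
      rcases Nat.lt_or_ge n 24576 with h7 | h7
      · exact allB_spec chkL 12 20480 chkL_6 n h6 (by norm_num; omega)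
      · exact allB_spec chkL 12 24576 chkL_7 n h7 (by norm_num; omega)
    exact fin8 (k := 256) hn hP173 (by norm_num; omega) hc (by omega)

end Pool.Agent.Helper1.SQ.C
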