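import Pool.Agent.Helper1.SQ.C1c
import Pool.Agent.Helper1.SQ.Cert2
import Pool.Agent.Helper1.SQ.Ct0
import Pool.Agent.Helper1.SQ.Ct1
import Pool.Agent.Helper1.SQ.Ct2
import Pool.Agent.Helper1.SQ.Ct3
import Pool.Agent.Helper1.SQ.Ct4
import Pool.Agent.Helper1.SQ.Ct5
import Pool.Agent.Helper1.SQ.Ct6
import Pool.Agent.Helper1.SQ.Ct7
import Pool.Agent.Helper1.SQ.Ct8
import Pool.Agent.Helper1.SQ.MT2
import Pool.Agent.Helper1.SQ.K2
import Pool.Agent.Helper7.SQ.BH
import Pool.Agent.Helper15.SQ.T
import Pool.Agent.Helper25.SQ.S
import Pool.Agent.Helper30.SQ.HP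
import Pool.Agent.Helper40.SQ.D
import Pool.Agent.Helper55.SQ.A
import Pool.Agent.Helper68.SQ.L

/-!
# Project SQ: assembly
-/

set_option autoImplicit false
open Finset

namespace Pool.Agent.Helper1.SQ

theorem hyp : Hyp where
  tab := Pool.Agent.Helper15.SQ.tab
  cardB := Pool.Agent.Helper40.SQ.cardB
  sumS := Pool.Agent.Helper25.SQ.sumS Pool.Agent.Helper55.SQ.mertA
  sumW := Pool.Agent.Helper25.SQ.sumW Pool.Agent.Helper55.SQ.mertA
  sumV := Pool.Agent.Helper25.SQ.sumV Pool.Agent.Helper55.SQ.mertA
  bhUp := bhUp Pool.Agent.Helper40.SQ.disc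
  bhLow := bhLow Pool.Agent.Helper40.SQ.disc
  hpb := hpb Pool.Agent.Helper40.SQ.disc
  mt := mt2 wt
  totL := totL

/-- For every `n ≥ 1` the interval `(n², n² + φ(n)]` contains an integer with at most three prime
factors, counted with multiplicity, all of them larger than `n^(1/8)`. -/
theorem target8 (n : ℕ) (hn : 0 < n) : C.Good n := by
  by_cases h12 : Nat.totient n < 2 ^ 12
  · have h1 := totL 7 (2 ^ 12) n hn (by decide) h12
    exact C.kr8 n hn (by omega)
  · rw [not_lt] at h12
    by_cases h0 : Nat.totient n < 2 ^ 707
    · exact C.cover_sound hyp n hn _ 12 707 C.cover0 h12 h0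
    · rw [not_lt] at h0
      clear h12
      by_cases h1 : Nat.totient n < 2 ^ 1304
      · exact C.cover_sound hyp n hn _ 707 1304 C.cover1 h0 h1
      · rw [not_lt] at h1
        clear h0
        by_cases h2 : Nat.totient n < 2 ^ 2001
        · exact C.cover_sound hyp n hn _ 1304 2001 C.cover2 h1 h2
        · rw [not_lt] at h2
          clear h1
          by_cases h3 : Nat.totient n < 2 ^ 2556
          · exact C.cover_sound hyp n hn _ 2001 2556 C.cover3 h2 h3
          · rw [not_lt] at h3
            clear h2
            by_cases h4 : Nat.totient n < 2 ^ 3072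
            · exact C.cover_sound hyp n hn _ 2556 3072 C.cover4 h3 h4
            · rw [not_lt] at h4
              clear h3
              by_cases h5 : Nat.totient n < 2 ^ 3691
              · exact C.cover_sound hyp n hn _ 3072 3691 C.cover5 h4 h5
              · rw [not_lt] at h5
                clear h4
                by_cases h6 : Nat.totient n < 2 ^ 4172
                · exact C.cover_sound hyp n hn _ 3691 4172 C.cover6 h5 h6
                · rw [not_lt] at h6
                  clear h5
                  by_cases h7 : Nat.totient n < 2 ^ 4715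
                  · exact C.cover_sound hyp n hn _ 4172 4715 C.cover7 h6 h7
                  · rw [not_lt] at h7
                    clear h6
                    by_cases h8 : Nat.totient n < 2 ^ 5076
                    · exact C.cover_sound hyp n hn _ 4715 5076 C.cover8 h7 h8
                    · rw [not_lt] at h8
                      clear h7
                      exact C2.final2 hyp Pool.Agent.Helper25.SQ.hrLog C2.cert2 n hn 5076
                        (by norm_num) h8

end Pool.Agent.Helper1.SQ
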